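import Pool.Agent.KHG77.Geo

/-!
# KHG77.Alg: real algebra for the node lemma
-/

namespace Pool.Agent.KHG77

open Set Filter Topology

/-- A window inside every long enough interval. -/
theorem window_exists {c w a b : ℝ} {nw : ℕ} (hw : 0 < w) (ha : c ≤ a) (hb : b ≤ c + nw * w)
    (hab : 2 * w ≤ b - a) : ⌈(a - c) / w⌉₊ < nw ∧ a ≤ c + (⌈(a - c) / w⌉₊ : ℝ) * w ∧
      c + ((⌈(a - c) / w⌉₊ : ℝ) + 1) * w ≤ b := by
  have h0 : 0 ≤ (a - c) / w := div_nonneg (by linarith) hw.le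
  have h1 : (a - c) / w ≤ ⌈(a - c) / w⌉₊ := Nat.le_ceil _
  have h2 : (⌈(a - c) / w⌉₊ : ℝ) < (a - c) / w + 1 := Nat.ceil_lt_add_one h0
  have h3 : (a - c) / w * w = a - c := div_mul_cancel₀ _ hw.ne'
  have h4 : a ≤ c + (⌈(a - c) / w⌉₊ : ℝ) * w := by nlinarith
  have h5 : c + ((⌈(a - c) / w⌉₊ : ℝ) + 1) * w ≤ b := by nlinarith
  refine ⟨?_, h4, h5⟩
  have h6 : ((⌈(a - c) / w⌉₊ : ℝ) + 1) * w ≤ nw * w := by linarith
  have h7 : (⌈(a - c) / w⌉₊ : ℝ) + 1 ≤ nw := le_of_mul_le_mul_right h6 hw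
  have h8 : (⌈(a - c) / w⌉₊ : ℝ) < nw := by linarith
  exact_mod_cast h8

/-- The overlap bound. Side `s`, direction `t` (above/below). `y` on side `s` of `x` with slope
`S`; `q` on side `s` of `x` with slope `T`, `t T ≤ t β`; `q` in the half plane of the line through
`y` of slope `α`; `t (α - β) > 0`. -/
theorem overlap {x y q : Pt} {s t : Bool} {α β : ℝ}
    (hy : 0 < sg s * (y.1 - x.1)) (hq : 0 < sg s * (q.1 - x.1))
    (hqβ : sg t * sl x q ≤ sg t * β)
    (hf : 0 ≤ sg s * sg t * (q.2 - y.2 - α * (q.1 - y.1))) :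
    sg s * (q.1 - x.1) * (sg t * (α - β)) ≤ sg s * (y.1 - x.1) * (sg t * (α - sl x y)) := by
  have hy0 : y.1 - x.1 ≠ 0 := by
    intro h; rw [h] at hy; simp at hy
  have hq0 : q.1 - x.1 ≠ 0 := by
    intro h; rw [h] at hq; simp at hq
  have e1 : y.2 - x.2 = sl x y * (y.1 - x.1) := by
    unfold sl; field_simp
  have e2 : q.2 - x.2 = sl x q * (q.1 - x.1) := by
    unfold sl; field_simp
  have h1 : sg s * (q.1 - x.1) * (sg t * sl x q) ≤ sg s * (q.1 - x.1) * (sg t * β) :=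
    mul_le_mul_of_nonneg_left hqβ hq.le
  have e3 : q.2 - y.2 = sl x q * (q.1 - x.1) - sl x y * (y.1 - x.1) := by linarith
  rw [e3] at hf
  nlinarith

/-- The conditions on the final point of a node (chart coordinates). -/
def OKX (N : ℕ) (V0 : ℝ) (t : ℕ → ℝ) (q : ℝ × ℝ) : Prop :=
  |q.1| < V0 + 1 ∧ ∀ i < N, q.1 ≠ t i ∧ |q.2 - q.1 ^ 2| < |q.1 - t i| / 10

theorem OKX.isOpen (N : ℕ) (V0 : ℝ) (t : ℕ → ℝ) : IsOpen {q : ℝ × ℝ | OKX N V0 t q} := by
  have : {q : ℝ × ℝ | OKX N V0 t q} = {q : ℝ × ℝ | |q.1| < V0 + 1} ∩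
      ⋂ i ∈ Finset.range N, ({q : ℝ × ℝ | q.1 ≠ t i} ∩ {q : ℝ × ℝ | |q.2 - q.1 ^ 2| < |q.1 - t i| / 10}) := by
    ext q
    simp [OKX]
  rw [this]
  refine IsOpen.inter (isOpen_lt (by fun_prop) (by fun_prop)) ?_
  refine isOpen_biInter_finset fun i _ => IsOpen.inter ?_ (isOpen_lt (by fun_prop) (by fun_prop))
  exact isOpen_ne_fun (by fun_prop) (by fun_prop)

/-- The set of candidates that see `(u, v)` steeply is open. -/
theorem steep_isOpen (N : ℕ) (V0 κ : ℝ) (t : ℕ → ℝ) (u v : ℝ) :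
    IsOpen {q : ℝ × ℝ | OKX N V0 t q ∧ q.1 ≠ u ∧ (v - q.2) / (u - q.1) ∈ Ioo κ (κ + 1)} := by
  have hU : IsOpen {q : ℝ × ℝ | OKX N V0 t q ∧ q.1 ≠ u} :=
    (OKX.isOpen N V0 t).inter (isOpen_ne_fun (by fun_prop) (by fun_prop))
  have hc : ContinuousOn (fun q : ℝ × ℝ => (v - q.2) / (u - q.1))
      {q : ℝ × ℝ | OKX N V0 t q ∧ q.1 ≠ u} := by
    apply ContinuousOn.div
    · fun_prop
    · fun_prop
    · rintro q ⟨-, hq⟩
      exact sub_ne_zero.2 (Ne.symm hq)
  have := hc.isOpen_inter_preimage hU (isOpen_Ioo (a := κ) (b := κ + 1))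
  convert this using 1
  ext q
  simp [and_assoc]

/-- Slopes from an admissible point to the points of the parabola. -/
theorem OKX.slope {N : ℕ} {V0 : ℝ} {t : ℕ → ℝ} {q : ℝ × ℝ} (h : OKX N V0 t q) {i : ℕ}
    (hi : i < N) : |(t i ^ 2 - q.2) / (t i - q.1) - (q.1 + t i)| < 1 / 10 := by
  obtain ⟨h1, h2⟩ := h.2 i hi
  have h3 : t i - q.1 ≠ 0 := sub_ne_zero.2 (Ne.symm h1)
  have e : (t i ^ 2 - q.2) / (t i - q.1) - (q.1 + t i) = (q.1 ^ 2 - q.2) / (t i - q.1) := by
    field_simp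
    ring
  rw [e, abs_div, div_lt_iff₀ (abs_pos.2 h3), abs_sub_comm (q.1 ^ 2), abs_sub_comm (t i)]
  linarith

/-- ... and nonempty. -/
theorem steep_nonempty {N : ℕ} {V0 κ : ℝ} (hV0 : 0 ≤ V0) (hκ : V0 + (V0 + 1) ^ 2 + 1 ≤ κ)
    {t : ℕ → ℝ} {u v : ℝ} (hu : |u| ≤ V0) (hv : |v| ≤ V0)
    (hne : ∀ i < N, ¬ (u = t i ∧ v = t i ^ 2)) :
    {q : ℝ × ℝ | OKX N V0 t q ∧ q.1 ≠ u ∧ (v - q.2) / (u - q.1) ∈ Ioo κ (κ + 1)}.Nonempty := by
  obtain ⟨hu1, hu2⟩ := abs_le.1 hu
  obtain ⟨hv1, hv2⟩ := abs_le.1 hv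
  by_cases hD : v = u ^ 2
  · -- the point on the parabola
    have hui : ∀ i < N, u ≠ t i := fun i hi h => hne i hi ⟨h, by rw [hD, h]⟩
    set s : ℝ := κ + 1 / 2 with hs
    have hev : ∀ i ∈ Finset.range N, ∀ᶠ δ : ℝ in 𝓝[>] (0 : ℝ),
        u - δ ≠ t i ∧ |δ * (2 * u - δ - s)| < |u - δ - t i| / 10 := by
      intro i hi
      have hpos : 0 < |u - t i| := abs_pos.2 (sub_ne_zero.2 (hui i (Finset.mem_range.1 hi)))
      have hc : Continuous fun δ : ℝ => |u - δ - t i| / 10 - |δ * (2 * u - δ - s)| := by fun_prop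
      have h1 : ∀ᶠ δ : ℝ in 𝓝 (0 : ℝ), 0 < |u - δ - t i| / 10 - |δ * (2 * u - δ - s)| := by
        refine hc.continuousAt.eventually_mem (IsOpen.mem_nhds isOpen_Ioi ?_) |>.mono
          fun δ h => h
        simp only [mem_Ioi]
        simp
        exact sub_ne_zero.2 (hui i (Finset.mem_range.1 hi))
      filter_upwards [nhdsWithin_le_nhds h1] with δ h
      have h2 : 0 ≤ |δ * (2 * u - δ - s)| := abs_nonneg _
      refine ⟨?_, by linarith⟩
      intro h3
      rw [h3, sub_self, abs_zero, zero_div] at h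
      linarith
    have hev2 : ∀ᶠ δ : ℝ in 𝓝[>] (0 : ℝ), δ < 1 :=
      nhdsWithin_le_nhds (Iio_mem_nhds one_pos)
    have hev3 : ∀ᶠ δ : ℝ in 𝓝[>] (0 : ℝ), 0 < δ := self_mem_nhdsWithin
    obtain ⟨δ, ⟨h1, h2⟩, h3⟩ :=
      ((hev2.and hev3).and ((Finset.eventually_all (Finset.range N)).2 hev)).exists
    refine ⟨(u - δ, (u - δ) ^ 2 + δ * (2 * u - δ - s)), ⟨?_, ?_⟩, ?_, ?_⟩
    · simp only
      rw [abs_lt]
      constructor <;> linarith
    · intro i hi
      obtain ⟨h4, h5⟩ := h3 i (Finset.mem_range.2 hi)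
      refine ⟨h4, ?_⟩
      simpa using h5
    · simp only
      linarith
    · have e : (v - ((u - δ) ^ 2 + δ * (2 * u - δ - s))) / (u - (u - δ)) = s := by
        rw [hD]
        have : u - (u - δ) = δ := by ring
        rw [this, div_eq_iff h2.ne']
        ring
      simp only
      rw [e]
      constructor <;> simp only [hs] <;> linarith
  · -- use the parabola itself
    set D : ℝ := v - u ^ 2 with hDdef
    have hD0 : D ≠ 0 := sub_ne_zero.2 hD
    set σ : ℝ := if 0 < D then 1 else -1 with hσ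
    have hσ2 : σ * σ = 1 := by rw [hσ]; split_ifs <;> norm_num
    have hσD : D = σ * |D| := by
      rw [hσ]
      split_ifs with h
      · rw [abs_of_pos h]; ring
      · rw [abs_of_nonpos (not_lt.1 h)]; ring
    have hσ1 : |σ| = 1 := by rw [hσ]; split_ifs <;> norm_num
    have hσle : σ ≤ 1 ∧ -1 ≤ σ := by
      have := abs_le.1 hσ1.le
      exact ⟨this.2, this.1⟩
    have hDpos : 0 < |D| := abs_pos.2 hD0
    have hDle : |D| ≤ V0 + V0 ^ 2 := by
      rw [abs_le]
      constructor <;> nlinarith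
    set f : ℝ → ℝ := fun ε => |D| / ε + 2 * u - σ * ε with hf
    -- choose the slope
    have hinf : (Ioo κ (κ + 1)).Infinite := Ioo_infinite (by linarith)
    obtain ⟨s, hs, hsn⟩ := hinf.exists_notMem_finset
      ((Finset.range N).image fun i => f (σ * (u - t i)))
    have hs1 := hs.1
    have hs2 := hs.2
    set ε0 : ℝ := |D| / (s + 2 * V0 + 1) with hε0
    have hden : 0 < s + 2 * V0 + 1 := by nlinarith
    have hε0pos : 0 < ε0 := div_pos hDpos hden
    have hε01 : ε0 ≤ 1 := by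
      rw [hε0, div_le_one hden]
      nlinarith
    have hfc : ContinuousOn f (Icc ε0 1) := by
      apply ContinuousOn.sub
      · apply ContinuousOn.add
        · apply ContinuousOn.div continuousOn_const continuousOn_id
          intro x hx
          exact (lt_of_lt_of_le hε0pos hx.1).ne'
        · exact continuousOn_const
      · fun_prop
    have hf0 : s ≤ f ε0 := by
      have h1 : |D| / ε0 = s + 2 * V0 + 1 := by
        rw [hε0]
        field_simp
      have h2 : σ * ε0 ≤ 1 := by nlinarith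
      simp only [hf]
      rw [h1]
      linarith
    have hf1 : f 1 ≤ s := by
      simp only [hf]
      have h1 : |D| / 1 = |D| := div_one _
      rw [h1]
      nlinarith
    obtain ⟨ε, hε, hfε⟩ := intermediate_value_Icc' hε01 hfc ⟨hf1, hf0⟩
    have hεpos : 0 < ε := lt_of_lt_of_le hε0pos hε.1
    have hεne : ∀ i < N, ε ≠ σ * (u - t i) := by
      intro i hi h
      apply hsn
      rw [Finset.mem_image]
      exact ⟨i, Finset.mem_range.2 hi, by rw [← h, hfε]⟩
    have hεlt : ε < 1 := by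
      rcases lt_or_eq_of_le hε.2 with h | h
      · exact h
      · exfalso
        have h2 : f 1 = s := by rw [← h, hfε]
        simp only [hf] at h2
        have h1 : |D| / 1 = |D| := div_one _
        rw [h1] at h2
        nlinarith
    have hσne : σ ≠ 0 := by
      intro h; rw [h] at hσ2; norm_num at hσ2
    refine ⟨(u - σ * ε, (u - σ * ε) ^ 2), ⟨?_, ?_⟩, ?_, ?_⟩
    · simp only
      have h1 : |σ * ε| < 1 := by rw [abs_mul, hσ1, abs_of_pos hεpos]; linarith
      obtain ⟨h2, h3⟩ := abs_lt.1 h1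
      rw [abs_lt]
      constructor <;> linarith
    · intro i hi
      have h1 : u - σ * ε ≠ t i := by
        intro h
        apply hεne i hi
        have : u - t i = σ * ε := by linarith
        rw [this, ← mul_assoc, hσ2, one_mul]
      refine ⟨h1, ?_⟩
      simp only [sub_self, abs_zero]
      have := abs_pos.2 (sub_ne_zero.2 h1)
      positivity
    · simp only
      intro h
      have : σ * ε = 0 := by linarith
      rcases mul_eq_zero.1 this with h | h
      · exact hσne h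
      · exact hεpos.ne' h
    · have e : (v - (u - σ * ε) ^ 2) / (u - (u - σ * ε)) = s := by
        have h1 : u - (u - σ * ε) = σ * ε := by ring
        have h2 : σ * ε ≠ 0 := mul_ne_zero hσne hεpos.ne'
        rw [h1, div_eq_iff h2, ← hfε]
        simp only [hf]
        have h3 : v = u ^ 2 + σ * |D| := by rw [← hσD, hDdef]; ring
        rw [h3]
        have h4 : |D| / ε * ε = |D| := div_mul_cancel₀ _ hεpos.ne'
        have h5 : (|D| / ε + 2 * u - σ * ε) * (σ * ε)
            = σ * (|D| / ε * ε) + 2 * u * (σ * ε) - σ * ε * (σ * ε) := by ring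
        rw [h5, h4]
        ring
      simp only
      rw [e]
      exact hs

end Pool.Agent.KHG77
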