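import Pool.Agent.KHG77.Defs

/-!
# KHG77.Basic: forcing in a bounded number of rounds, and strategies

`Force T n M B`: from the position `(M,B)` (after a Breaker move) Maker can force, within `n`
rounds, a position (after a Breaker move) satisfying `T`.
-/

namespace Pool.Agent.KHG77

open Set

/-- Valid position. -/
def Ok (M B : Finset Pt) : Prop := Disjoint M B ∧ GenPos (M ∪ B)

/-- Maker can force `T` within `n` rounds. -/
def Force (T : Finset Pt → Finset Pt → Prop) : ℕ → Finset Pt → Finset Pt → Prop
  | 0, M, B => T M B
  | n + 1, M, B => T M B ∨ ∃ p, LegalMove (M ∪ B) p ∧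
      ∀ b b', LegalReply (insert p (M ∪ B)) b b' → Force T n (insert p M) (insert b' (insert b B))

theorem Ok.insert_round {M B : Finset Pt} {p b b' : Pt} (h : Ok M B) (hp : LegalMove (M ∪ B) p)
    (hb : LegalReply (insert p (M ∪ B)) b b') : Ok (insert p M) (insert b' (insert b B)) := by
  obtain ⟨hd, _⟩ := h
  obtain ⟨hp1, _⟩ := hp
  obtain ⟨hb1, hb2, _, hb4⟩ := hb
  rw [Finset.mem_union, not_or] at hp1
  rw [Finset.mem_insert, Finset.mem_union, not_or, not_or] at hb1
  rw [Finset.mem_insert, Finset.mem_insert, Finset.mem_union, not_or, not_or, not_or] at hb2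
  refine ⟨?_, ?_⟩
  · rw [Finset.disjoint_insert_right, Finset.disjoint_insert_right, Finset.disjoint_insert_left,
      Finset.mem_insert, Finset.mem_insert, not_or, not_or]
    exact ⟨⟨hb2.2.1, hb2.2.2.1⟩, ⟨hb1.1, hb1.2.1⟩, hp1.2, hd⟩
  · have e : insert p M ∪ insert b' (insert b B) = insert b' (insert b (insert p (M ∪ B))) := by
      ext x
      simp only [Finset.mem_union, Finset.mem_insert]
      tauto
    rw [e]
    exact hb4

theorem Force.of_target {T : Finset Pt → Finset Pt → Prop} {n : ℕ} {M B : Finset Pt}
    (h : T M B) : Force T n M B := by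
  cases n with
  | zero => exact h
  | succ n => exact Or.inl h

theorem Force.mono {T T' : Finset Pt → Finset Pt → Prop} {n m : ℕ} {M B : Finset Pt}
    (hT : ∀ M B, T M B → T' M B) (hnm : n ≤ m) (h : Force T n M B) : Force T' m M B := by
  induction n generalizing m M B with
  | zero => exact Force.of_target (hT _ _ h)
  | succ n ih =>
    obtain ⟨m, rfl⟩ : ∃ k, m = k + 1 := ⟨m - 1, by omega⟩
    rcases h with h | ⟨p, hp, h⟩
    · exact Or.inl (hT _ _ h)
    · exact Or.inr ⟨p, hp, fun b b' hb => ih (by omega) (h b b' hb)⟩

/-- One more round. -/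
theorem Force.round {T : Finset Pt → Finset Pt → Prop} {n : ℕ} {M B : Finset Pt} {p : Pt}
    (hp : LegalMove (M ∪ B) p)
    (h : ∀ b b', LegalReply (insert p (M ∪ B)) b b' →
      Force T n (insert p M) (insert b' (insert b B))) : Force T (n + 1) M B :=
  Or.inr ⟨p, hp, h⟩

/-- Composition. -/
theorem Force.trans {T T' : Finset Pt → Finset Pt → Prop} {n m : ℕ} {M B : Finset Pt}
    (h : Force T n M B) (h' : ∀ M' B', T M' B' → Force T' m M' B') : Force T' (n + m) M B := by
  induction n generalizing M B with
  | zero => exact Force.mono (fun _ _ h => h) (by omega) (h' _ _ h)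
  | succ n ih =>
    rcases h with h | ⟨p, hp, h⟩
    · exact Force.mono (fun _ _ h => h) (by omega) (h' _ _ h)
    · have e : n + 1 + m = (n + m) + 1 := by omega
      rw [e]
      exact Or.inr ⟨p, hp, fun b b' hb => ih (h b b' hb)⟩

/-- The position reached is valid, contains the old one, and Breaker has at most `2 n` new
points, Maker at most `n` new points. -/
theorem Force.track {T : Finset Pt → Finset Pt → Prop} {n : ℕ} {M B : Finset Pt}
    (hok : Ok M B) (h : Force T n M B) :
    Force (fun M' B' => T M' B' ∧ Ok M' B' ∧ M ⊆ M' ∧ B ⊆ B' ∧ (B' \ B).card ≤ 2 * n ∧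
      (M' \ M).card ≤ n) n M B := by
  induction n generalizing M B with
  | zero =>
    exact ⟨h, hok, Finset.Subset.refl _, Finset.Subset.refl _, by simp, by simp⟩
  | succ n ih =>
    rcases h with h | ⟨p, hp, h⟩
    · exact Or.inl ⟨h, hok, Finset.Subset.refl _, Finset.Subset.refl _, by simp, by simp⟩
    · refine Or.inr ⟨p, hp, fun b b' hb => ?_⟩
      refine Force.mono ?_ le_rfl (ih (hok.insert_round hp hb) (h b b' hb))
      rintro M' B' ⟨hT, hok', hM, hB, hcB, hcM⟩
      refine ⟨hT, hok', (Finset.subset_insert _ _).trans hM,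
        ((Finset.subset_insert _ _).trans (Finset.subset_insert _ _)).trans hB, ?_, ?_⟩
      · have hs : B' \ B ⊆ insert b' (insert b (B' \ insert b' (insert b B))) := by
          intro x hx
          simp only [Finset.mem_sdiff, Finset.mem_insert] at hx ⊢
          tauto
        have h1 := Finset.card_le_card hs
        have h2 := Finset.card_insert_le b' (insert b (B' \ insert b' (insert b B)))
        have h3 := Finset.card_insert_le b (B' \ insert b' (insert b B))
        omega
      · have hs : M' \ M ⊆ insert p (M' \ insert p M) := by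
          intro x hx
          simp only [Finset.mem_sdiff, Finset.mem_insert] at hx ⊢
          tauto
        have h1 := Finset.card_le_card hs
        have h2 := Finset.card_insert_le p (M' \ insert p M)
        omega

end Pool.Agent.KHG77
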