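import Mathlib

/-!
# The bichromatic k-hole game with bias 1:2 (MP_f5afab_co)

Definitions used by the final statement.
-/

namespace Pool.Agent.KHG77

open Set

/-- Points of the plane. -/
abbrev Pt : Type := ℝ × ℝ

/-- General position: no three distinct points of `S` are collinear. -/
def GenPos (S : Finset Pt) : Prop :=
  ∀ a ∈ S, ∀ b ∈ S, ∀ c ∈ S, a ≠ b → a ≠ c → b ≠ c → ¬ Collinear ℝ ({a, b, c} : Set Pt)

/-- `H` is a `k`-hole of `S`: a `k`-element subset of `S` in convex position whose convex hull
contains no further point of `S`. -/
def IsHole (k : ℕ) (S H : Finset Pt) : Prop :=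
  H ⊆ S ∧ H.card = k ∧ ConvexIndependent ℝ ((↑) : H → Pt) ∧
    convexHull ℝ (H : Set Pt) ∩ (S : Set Pt) = (H : Set Pt)

/-- The point set `M ∪ B` has a `k`-hole all of whose vertices are in `M`. -/
def HasHole (k : ℕ) (M B : Finset Pt) : Prop := ∃ H : Finset Pt, H ⊆ M ∧ IsHole k (M ∪ B) H

/-- A history: the list of the completed rounds, the latest round first. A round consists of
Maker's point and Breaker's two points. -/
abbrev History : Type := List (Pt × Pt × Pt)

/-- Maker's points after the rounds of `h`. -/
noncomputable def makerPts (h : History) : Finset Pt := (h.map fun t => t.1).toFinset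

/-- Breaker's points after the rounds of `h`. -/
noncomputable def breakerPts (h : History) : Finset Pt :=
  (h.map fun t => t.2.1).toFinset ∪ (h.map fun t => t.2.2).toFinset

/-- Maker may place the point `p` when the points placed so far are `S`: the point is new and
general position is kept. -/
def LegalMove (S : Finset Pt) (p : Pt) : Prop := p ∉ S ∧ GenPos (insert p S)

/-- Breaker may place the two points `b`, `b'` when the points placed so far are `S`. -/
def LegalReply (S : Finset Pt) (b b' : Pt) : Prop :=
  b ∉ S ∧ b' ∉ insert b S ∧ GenPos (insert b S) ∧ GenPos (insert b' (insert b S))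

/-- Maker has made a `k`-hole at one of the three moments of a round that starts with Maker's
points `M` and Breaker's points `B`, when Maker plays `p` and Breaker answers `b`, `b'`. -/
def HoleInRound (k : ℕ) (M B : Finset Pt) (p b b' : Pt) : Prop :=
  HasHole k (insert p M) B ∨ HasHole k (insert p M) (insert b B) ∨
    HasHole k (insert p M) (insert b' (insert b B))

/-- A strategy of Maker: her next point as a function of the history. -/
abbrev MakerStrategy : Type := History → Pt

/-- A strategy of Breaker: his two points as a function of the history and Maker's new point. -/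
abbrev BreakerStrategy : Type := History → Pt → Pt × Pt

/-- The play in which Maker plays the points `m 0, m 1, ...` and Breaker follows `β`. -/
def playB (β : BreakerStrategy) (m : ℕ → Pt) : ℕ → History
  | 0 => []
  | n + 1 => (m n, β (playB β m n) (m n)) :: playB β m n

/-- The play in which Maker follows `μ` and Breaker plays the pairs `b 0, b 1, ...`. -/
def playM (μ : MakerStrategy) (b : ℕ → Pt × Pt) : ℕ → History
  | 0 => []
  | n + 1 => (μ (playM μ b n), b n) :: playM μ b n

/-- `β` is a winning strategy of Breaker in the game `G_k`: as long as Maker's moves are legal,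
the replies of `β` are legal and Maker never has a `k`-hole. -/
def BreakerWinning (k : ℕ) (β : BreakerStrategy) : Prop :=
  ∀ m : ℕ → Pt, ∀ n : ℕ,
    (∀ i ≤ n, LegalMove (makerPts (playB β m i) ∪ breakerPts (playB β m i)) (m i)) →
      LegalReply (insert (m n) (makerPts (playB β m n) ∪ breakerPts (playB β m n)))
        (β (playB β m n) (m n)).1 (β (playB β m n) (m n)).2 ∧
      ¬ HoleInRound k (makerPts (playB β m n)) (breakerPts (playB β m n)) (m n)
        (β (playB β m n) (m n)).1 (β (playB β m n) (m n)).2

/-- `μ` is a winning strategy of Maker in the game `G_k`: whatever Breaker plays, there is a round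
`n` such that all moves up to Maker's move of round `n` are legal, and in round `n` Maker has a
`k`-hole or Breaker's reply is illegal. -/
def MakerWinning (k : ℕ) (μ : MakerStrategy) : Prop :=
  ∀ b : ℕ → Pt × Pt, ∃ n : ℕ,
    (∀ i ≤ n, LegalMove (makerPts (playM μ b i) ∪ breakerPts (playM μ b i)) (μ (playM μ b i))) ∧
    (∀ i < n, LegalReply (insert (μ (playM μ b i)) (makerPts (playM μ b i) ∪
      breakerPts (playM μ b i))) (b i).1 (b i).2) ∧
    (HoleInRound k (makerPts (playM μ b n)) (breakerPts (playM μ b n)) (μ (playM μ b n))
        (b n).1 (b n).2 ∨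
      ¬ LegalReply (insert (μ (playM μ b n)) (makerPts (playM μ b n) ∪
        breakerPts (playM μ b n))) (b n).1 (b n).2)

/-- The set `K` of the problem: the `k ≥ 3` for which Breaker has a winning strategy in `G_k`. -/
def breakerSet : Set ℕ := {k | 3 ≤ k ∧ ∃ β : BreakerStrategy, BreakerWinning k β}

end Pool.Agent.KHG77
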