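import Pool.Agent.KHG77.StageDef

/-!
# KHG77.Start: the initial rich position
-/

namespace Pool.Agent.KHG77

open Set Filter Topology

/-- Size of the boxes. -/
private noncomputable def helper17_dl (n : ℕ) : ℝ := 1 / (4 * ((n : ℝ) + 3))

/-- Open box of half side `d` around `c`. -/
private def helper17_box (d : ℝ) (c : Pt) : Set Pt :=
  {p | c.1 - d < p.1 ∧ p.1 < c.1 + d ∧ c.2 - d < p.2 ∧ p.2 < c.2 + d}

private theorem helper17_box_open (d : ℝ) (c : Pt) : IsOpen (helper17_box d c) := by
  have h1 : IsOpen {p : Pt | c.1 - d < p.1} := isOpen_lt continuous_const continuous_fst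
  have h2 : IsOpen {p : Pt | p.1 < c.1 + d} := isOpen_lt continuous_fst continuous_const
  have h3 : IsOpen {p : Pt | c.2 - d < p.2} := isOpen_lt continuous_const continuous_snd
  have h4 : IsOpen {p : Pt | p.2 < c.2 + d} := isOpen_lt continuous_snd continuous_const
  have := (h1.inter h2).inter (h3.inter h4)
  convert this using 1
  ext p
  simp only [helper17_box, mem_ofPred_eq, mem_inter_iff]
  tauto

private theorem helper17_box_center {d : ℝ} (hd : 0 < d) (c : Pt) : c ∈ helper17_box d c := by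
  refine ⟨?_, ?_, ?_, ?_⟩ <;> linarith

private theorem helper17_dl_pos (n : ℕ) : 0 < helper17_dl n := by
  unfold helper17_dl
  positivity

private theorem helper17_dl_mul (n : ℕ) : helper17_dl n * (4 * ((n : ℝ) + 3)) = 1 := by
  unfold helper17_dl
  have : (0 : ℝ) < 4 * ((n : ℝ) + 3) := by positivity
  field_simp

/-- The left target of window `m`. -/
private noncomputable def helper17_cL (m : ℕ) : Pt := (-1, -((m : ℝ) + 1 / 2))

/-- The right target of window `m`. -/
private noncomputable def helper17_cR (m : ℕ) : Pt := (1, (m : ℝ) + 1 / 2)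

private theorem helper17_right {n m : ℕ} (hm : m < n) {z u : Pt}
    (hz : z ∈ helper17_box (helper17_dl n) (0, 0))
    (hu : u ∈ helper17_box (helper17_dl n) (helper17_cR m)) :
    0 < sg true * (u.1 - z.1) ∧ sl z u ∈ Ioo (0 + (m : ℝ) * 1) (0 + ((m : ℝ) + 1) * 1) := by
  obtain ⟨z1, z2, z3, z4⟩ := hz
  obtain ⟨u1, u2, u3, u4⟩ := hu
  simp only [helper17_cR] at u1 u2 u3 u4
  simp only at z1 z2 z3 z4
  have hd := helper17_dl_pos n
  have hdm := helper17_dl_mul n
  set d := helper17_dl n
  have hmn : (m : ℝ) + 1 ≤ n := by exact_mod_cast hm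
  have hm0 : (0 : ℝ) ≤ m := Nat.cast_nonneg m
  have hn0 : (0 : ℝ) ≤ n := Nat.cast_nonneg n
  have hk : d * ((m : ℝ) + 4) ≤ 1 / 4 := by nlinarith
  have hd1 : d ≤ 1 / 16 := by nlinarith
  have hden : 0 < u.1 - z.1 := by linarith
  refine ⟨by simp only [sg, if_true]; linarith, ?_, ?_⟩
  · unfold sl
    rw [lt_div_iff₀ hden]
    nlinarith
  · unfold sl
    rw [div_lt_iff₀ hden]
    nlinarith

private theorem helper17_left {n m : ℕ} (hm : m < n) {z u : Pt}
    (hz : z ∈ helper17_box (helper17_dl n) (0, 0))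
    (hu : u ∈ helper17_box (helper17_dl n) (helper17_cL m)) :
    0 < sg false * (u.1 - z.1) ∧ sl z u ∈ Ioo (0 + (m : ℝ) * 1) (0 + ((m : ℝ) + 1) * 1) := by
  obtain ⟨z1, z2, z3, z4⟩ := hz
  obtain ⟨u1, u2, u3, u4⟩ := hu
  simp only [helper17_cL] at u1 u2 u3 u4
  simp only at z1 z2 z3 z4
  have hd := helper17_dl_pos n
  have hdm := helper17_dl_mul n
  set d := helper17_dl n
  have hmn : (m : ℝ) + 1 ≤ n := by exact_mod_cast hm
  have hm0 : (0 : ℝ) ≤ m := Nat.cast_nonneg m
  have hn0 : (0 : ℝ) ≤ n := Nat.cast_nonneg n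
  have hk : d * ((m : ℝ) + 4) ≤ 1 / 4 := by nlinarith
  have hd1 : d ≤ 1 / 16 := by nlinarith
  have hden : u.1 - z.1 < 0 := by linarith
  refine ⟨by simp only [sg]; norm_num; linarith, ?_, ?_⟩
  · unfold sl
    rw [lt_div_iff_of_neg hden]
    nlinarith
  · unfold sl
    rw [div_lt_iff_of_neg hden]
    nlinarith

/-- The position after the first `2 j` rounds. -/
private def helper17_P (n j : ℕ) (M B : Finset Pt) : Prop :=
  Ok M B ∧ ∀ m < j, (∃ u ∈ M, u ∈ helper17_box (helper17_dl n) (helper17_cL m)) ∧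
    (∃ u ∈ M, u ∈ helper17_box (helper17_dl n) (helper17_cR m))

private theorem helper17_ok_empty : Ok (∅ : Finset Pt) ∅ := by
  refine ⟨Finset.disjoint_empty_left _, ?_⟩
  intro a ha
  simp at ha

private theorem helper17_build (n : ℕ) : ∀ j : ℕ, Force (helper17_P n j) (2 * j) ∅ ∅
  | 0 => Force.of_target ⟨helper17_ok_empty, fun m hm => absurd hm (Nat.not_lt_zero m)⟩
  | j + 1 => by
    have ih := helper17_build n j
    have step : ∀ M' B', helper17_P n j M' B' → Force (helper17_P n (j + 1)) 2 M' B' := by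
      intro M B hP
      obtain ⟨p, hpO, hp⟩ := exists_legal hP.1.2
        (helper17_box_open (helper17_dl n) (helper17_cL j))
        ⟨_, helper17_box_center (helper17_dl_pos n) _⟩
      refine Force.round hp ?_
      intro b b' hb
      have hok1 := hP.1.insert_round hp hb
      obtain ⟨q, hqO, hq⟩ := exists_legal hok1.2
        (helper17_box_open (helper17_dl n) (helper17_cR j))
        ⟨_, helper17_box_center (helper17_dl_pos n) _⟩
      refine Force.round hq ?_
      intro c c' hc
      have hok2 := hok1.insert_round hq hc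
      refine Force.of_target ⟨hok2, ?_⟩
      intro m hm
      rcases Nat.lt_or_eq_of_le (Nat.le_of_lt_succ hm) with h | h
      · obtain ⟨⟨u, hu, hu'⟩, ⟨v, hv, hv'⟩⟩ := hP.2 m h
        exact ⟨⟨u, Finset.mem_insert_of_mem (Finset.mem_insert_of_mem hu), hu'⟩,
          ⟨v, Finset.mem_insert_of_mem (Finset.mem_insert_of_mem hv), hv'⟩⟩
      · subst h
        exact ⟨⟨p, Finset.mem_insert_of_mem (Finset.mem_insert_self _ _), hpO⟩,
          ⟨q, Finset.mem_insert_self _ _, hqO⟩⟩
    have := ih.trans step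
    rw [show 2 * (j + 1) = 2 * j + 2 by ring]
    exact this

/-- From the empty position Maker forces `Rich 1 1 n`. -/
theorem start (n : ℕ) : ∃ T : ℕ, Force (Rich 1 1 n) T ∅ ∅ := by
  refine ⟨2 * n + 1, (helper17_build n n).trans ?_⟩
  intro M B hP
  obtain ⟨z, hzO, hz⟩ := exists_legal hP.1.2
    (helper17_box_open (helper17_dl n) (0, 0))
    ⟨_, helper17_box_center (helper17_dl_pos n) _⟩
  refine Force.round hz ?_
  intro b b' hb
  have hok := hP.1.insert_round hz hb
  refine Force.of_target ?_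
  have hzM : z ∈ insert z M := Finset.mem_insert_self _ _
  refine ⟨z, hzM, 0, 1, one_pos, ?_⟩
  intro m hm
  obtain ⟨⟨u, hu, hu'⟩, ⟨v, hv, hv'⟩⟩ := hP.2 m hm
  obtain ⟨hul, hul'⟩ := helper17_left hm hzO hu'
  obtain ⟨hvr, hvr'⟩ := helper17_right hm hzO hv'
  refine ⟨⟨{u}, flag_single hok hzM (Finset.mem_insert_of_mem hu) hul, Finset.card_singleton u, ?_⟩,
    ⟨{v}, flag_single hok hzM (Finset.mem_insert_of_mem hv) hvr, Finset.card_singleton v, ?_⟩⟩
  · intro w hw
    rw [Finset.mem_singleton] at hw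
    subst hw
    exact hul'
  · intro w hw
    rw [Finset.mem_singleton] at hw
    subst hw
    exact hvr'

end Pool.Agent.KHG77
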