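import Pool.Agent.KHG77.Basic

/-!
# KHG77.Strat: from forcing to strategies
-/

namespace Pool.Agent.KHG77

open Set

/-- Nobody has a hole on the empty board. -/
private theorem strat_not_hasHole_empty {k : ℕ} (hk : 3 ≤ k) : ¬ HasHole k ∅ ∅ := by
  rintro ⟨H, hH, -, hcard, -⟩
  rw [Finset.subset_empty] at hH
  rw [hH, Finset.card_empty] at hcard
  omega

private theorem strat_makerPts_cons (t : Pt × Pt × Pt) (h : History) :
    makerPts (t :: h) = insert t.1 (makerPts h) := by
  unfold makerPts
  rw [List.map_cons, List.toFinset_cons]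

private theorem strat_breakerPts_cons (t : Pt × Pt × Pt) (h : History) :
    breakerPts (t :: h) = insert t.2.2 (insert t.2.1 (breakerPts h)) := by
  unfold breakerPts
  rw [List.map_cons, List.toFinset_cons, List.map_cons, List.toFinset_cons]
  ext x
  simp only [Finset.mem_union, Finset.mem_insert]
  tauto

/-- The property of the move chosen by the strategy. -/
private def strat_good (k : ℕ) (M B : Finset Pt) (p : Pt) : Prop :=
  ∀ m, Force (HasHole k) (m + 1) M B → (∀ j ≤ m, ¬ Force (HasHole k) j M B) →
    LegalMove (M ∪ B) p ∧ ∀ b b', LegalReply (insert p (M ∪ B)) b b' →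
      Force (HasHole k) m (insert p M) (insert b' (insert b B))

private theorem strat_exists_good (k : ℕ) (M B : Finset Pt) : ∃ p, strat_good k M B p := by
  by_cases h : ∃ m, Force (HasHole k) (m + 1) M B ∧ ∀ j ≤ m, ¬ Force (HasHole k) j M B
  · obtain ⟨m, h1, h2⟩ := h
    rcases h1 with h1 | ⟨p, hp, hr⟩
    · exact absurd (show Force (HasHole k) 0 M B from h1) (h2 0 (Nat.zero_le _))
    · refine ⟨p, ?_⟩
      intro m' h1' h2'
      have hmm : m' = m := by
        by_contra hne
        rcases Nat.lt_or_gt_of_ne hne with hlt | hlt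
        · exact h2 (m' + 1) hlt h1'
        · exact h2' (m + 1) hlt (Or.inr ⟨p, hp, hr⟩)
      subst hmm
      exact ⟨hp, hr⟩
  · refine ⟨(0, 0), ?_⟩
    intro m h1 h2
    exact absurd ⟨m, h1, h2⟩ h

private theorem strat_win {k : ℕ} (hk : 3 ≤ k) (μ : MakerStrategy)
    (hμ : ∀ h : History, strat_good k (makerPts h) (breakerPts h) (μ h)) (b : ℕ → Pt × Pt) :
    ∀ m t : ℕ, Force (HasHole k) m (makerPts (playM μ b t)) (breakerPts (playM μ b t)) →
      (∀ i < t, LegalMove (makerPts (playM μ b i) ∪ breakerPts (playM μ b i)) (μ (playM μ b i))) →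
      (∀ i < t, LegalReply (insert (μ (playM μ b i)) (makerPts (playM μ b i) ∪
        breakerPts (playM μ b i))) (b i).1 (b i).2) →
      ∃ n : ℕ,
        (∀ i ≤ n, LegalMove (makerPts (playM μ b i) ∪ breakerPts (playM μ b i))
          (μ (playM μ b i))) ∧
        (∀ i < n, LegalReply (insert (μ (playM μ b i)) (makerPts (playM μ b i) ∪
          breakerPts (playM μ b i))) (b i).1 (b i).2) ∧
        (HoleInRound k (makerPts (playM μ b n)) (breakerPts (playM μ b n)) (μ (playM μ b n))
            (b n).1 (b n).2 ∨
          ¬ LegalReply (insert (μ (playM μ b n)) (makerPts (playM μ b n) ∪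
            breakerPts (playM μ b n))) (b n).1 (b n).2) := by
  classical
  intro m
  induction m using Nat.strong_induction_on with
  | _ m ih =>
    intro t hF hmv hrp
    have hex : ∃ m, Force (HasHole k) m (makerPts (playM μ b t)) (breakerPts (playM μ b t)) :=
      ⟨m, hF⟩
    obtain ⟨m₀, hm₀⟩ : ∃ m₀, m₀ = Nat.find hex := ⟨_, rfl⟩
    have hle : m₀ ≤ m := by
      rw [hm₀]
      exact Nat.find_min' hex hF
    have hspec : Force (HasHole k) m₀ (makerPts (playM μ b t)) (breakerPts (playM μ b t)) := by
      rw [hm₀]
      exact Nat.find_spec hex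
    have hmin : ∀ j < m₀, ¬ Force (HasHole k) j (makerPts (playM μ b t))
        (breakerPts (playM μ b t)) := by
      intro j hj
      rw [hm₀] at hj
      exact Nat.find_min hex hj
    rcases m₀ with _ | m'
    · -- the hole is there already
      rcases t with _ | t
      · exact absurd hspec (strat_not_hasHole_empty hk)
      · refine ⟨t, fun i hi => hmv i (Nat.lt_succ_of_le hi), fun i hi => hrp i (Nat.lt_succ_of_lt hi),
          Or.inl (Or.inr (Or.inr ?_))⟩
        have h := hspec
        rw [show playM μ b (t + 1) = (μ (playM μ b t), b t) :: playM μ b t from rfl,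
          strat_makerPts_cons, strat_breakerPts_cons] at h
        exact h
    · obtain ⟨hlegal, hnext⟩ := hμ (playM μ b t) m' hspec (fun j hj => hmin j (Nat.lt_succ_of_le hj))
      have hmv' : ∀ i ≤ t, LegalMove (makerPts (playM μ b i) ∪ breakerPts (playM μ b i))
          (μ (playM μ b i)) := by
        intro i hi
        rcases Nat.lt_or_eq_of_le hi with h | h
        · exact hmv i h
        · rw [h]
          exact hlegal
      by_cases hrep : LegalReply (insert (μ (playM μ b t)) (makerPts (playM μ b t) ∪
          breakerPts (playM μ b t))) (b t).1 (b t).2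
      · have hF' := hnext (b t).1 (b t).2 hrep
        refine ih m' (by omega) (t + 1) ?_ (fun i hi => hmv' i (Nat.le_of_lt_succ hi)) ?_
        · rw [show playM μ b (t + 1) = (μ (playM μ b t), b t) :: playM μ b t from rfl,
            strat_makerPts_cons, strat_breakerPts_cons]
          exact hF'
        · intro i hi
          rcases Nat.lt_or_eq_of_le (Nat.le_of_lt_succ hi) with h | h
          · exact hrp i h
          · rw [h]
            exact hrep
      · exact ⟨t, hmv', hrp, Or.inr hrep⟩

/-- A forced win gives a winning strategy of Maker. -/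
theorem makerWinning_of_force {k n : ℕ} (hk : 3 ≤ k) (h : Force (HasHole k) n ∅ ∅) :
    ∃ μ : MakerStrategy, MakerWinning k μ := by
  have hex : ∀ h : History, ∃ p, strat_good k (makerPts h) (breakerPts h) p :=
    fun h => strat_exists_good k _ _
  choose μ hμ using hex
  refine ⟨μ, fun b => ?_⟩
  refine strat_win hk μ hμ b n 0 ?_ (fun i hi => absurd hi (Nat.not_lt_zero _))
    (fun i hi => absurd hi (Nat.not_lt_zero _))
  exact h

/-- The history when Maker follows `μ` and Breaker follows `β`. -/
private noncomputable def strat_hist (μ : MakerStrategy) (β : BreakerStrategy) : ℕ → History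
  | 0 => []
  | n + 1 => (μ (strat_hist μ β n), β (strat_hist μ β n) (μ (strat_hist μ β n))) ::
      strat_hist μ β n

/-- A forced win of Maker excludes a winning strategy of Breaker. -/
theorem not_breakerWinning_of_force {k n : ℕ} (hk : 3 ≤ k) (h : Force (HasHole k) n ∅ ∅) :
    ¬ ∃ β : BreakerStrategy, BreakerWinning k β := by
  rintro ⟨β, hβ⟩
  obtain ⟨μ, hμ⟩ := makerWinning_of_force hk h
  let m : ℕ → Pt := fun n => μ (strat_hist μ β n)
  let b : ℕ → Pt × Pt := fun n => β (strat_hist μ β n) (μ (strat_hist μ β n))
  have hB : ∀ n, playB β m n = strat_hist μ β n := by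
    intro n
    induction n with
    | zero => rfl
    | succ n ih =>
      show (m n, β (playB β m n) (m n)) :: playB β m n = _
      rw [ih]
      rfl
  have hM : ∀ n, playM μ b n = strat_hist μ β n := by
    intro n
    induction n with
    | zero => rfl
    | succ n ih =>
      show (μ (playM μ b n), b n) :: playM μ b n = _
      rw [ih]
      rfl
  obtain ⟨N, h1, h2, h3⟩ := hμ b
  have h4 := hβ m N (by
    intro i hi
    have h5 := h1 i hi
    rw [hM] at h5
    rw [hB]
    exact h5)
  rw [hB] at h4
  rw [hM] at h3
  rcases h3 with h3 | h3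
  · exact h4.2 h3
  · exact h3 h4.1

end Pool.Agent.KHG77
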