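import Pool.Agent.KHG77.Stage
import Pool.Agent.KHG77.Start
import Pool.Agent.KHG77.Strat

/-!
# KHG77.Final: Maker wins for every `k`
-/

namespace Pool.Agent.KHG77

open Set Filter Topology

private theorem helper17_rich_mono {a b n n' : ℕ} (h : n' ≤ n) {M B : Finset Pt}
    (hr : Rich a b n M B) : Rich a b n' M B := by
  obtain ⟨z, hz, p, w, hw, hm⟩ := hr
  exact ⟨z, hz, p, w, hw, fun m hm' => hm m (lt_of_lt_of_le hm' h)⟩

private theorem helper17_ok_empty' : Ok (∅ : Finset Pt) ∅ := by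
  refine ⟨Finset.disjoint_empty_left _, ?_⟩
  intro a ha
  simp at ha

/-- After enough stages the levels are large. -/
theorem force_rich (j n : ℕ) (hn : 0 < n) :
    ∃ T : ℕ, Force (fun M B => ∃ a b, 1 ≤ a ∧ 1 ≤ b ∧ a + b = 2 + j ∧ Rich a b n M B) T ∅ ∅ := by
  induction j generalizing n with
  | zero =>
    obtain ⟨T, hT⟩ := start n
    exact ⟨T, hT.mono (fun M B h => ⟨1, 1, le_rfl, le_rfl, rfl, h⟩) le_rfl⟩
  | succ j ih =>
    have hst : ∀ a : ℕ, ∃ n' T : ℕ, ∀ b, 1 ≤ a → 1 ≤ b → a + b = 2 + j → ∀ M B, Ok M B →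
        Rich a b n' M B →
        Force (fun M' B' => Rich (a + 1) b n M' B' ∨ Rich a (b + 1) n M' B') T M B := by
      intro a
      by_cases h : 1 ≤ a ∧ 1 ≤ 2 + j - a
      · obtain ⟨n', T, -, hs⟩ := stage a (2 + j - a) n h.1 h.2 hn
        refine ⟨n', T, ?_⟩
        intro b ha hb hab M B hok hr
        have hb' : b = 2 + j - a := by omega
        subst hb'
        exact hs M B hok hr
      · refine ⟨0, 0, ?_⟩
        intro b ha hb hab
        exact absurd ⟨ha, by omega⟩ h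
    choose nf Tf hf using hst
    obtain ⟨T₀, hT₀⟩ := ih ((Finset.range (3 + j)).sup nf + 1) (Nat.succ_pos _)
    refine ⟨T₀ + (Finset.range (3 + j)).sup Tf, ?_⟩
    refine (hT₀.track helper17_ok_empty').trans ?_
    rintro M B ⟨⟨a, b, ha, hb, hab, hr⟩, hok, -, -, -, -⟩
    have har : a ∈ Finset.range (3 + j) := by
      rw [Finset.mem_range]
      omega
    have h1 : nf a ≤ (Finset.range (3 + j)).sup nf + 1 :=
      (Finset.le_sup (f := nf) har).trans (Nat.le_succ _)
    have h2 := hf a b ha hb hab M B hok (helper17_rich_mono h1 hr)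
    refine h2.mono ?_ (Finset.le_sup (f := Tf) har)
    rintro M' B' (h | h)
    · exact ⟨a + 1, b, by omega, hb, by omega, h⟩
    · exact ⟨a, b + 1, ha, by omega, by omega, h⟩

theorem force_hole (k : ℕ) : ∃ T : ℕ, Force (HasHole k) T ∅ ∅ := by
  obtain ⟨T, hT⟩ := force_rich (2 * k) 1 one_pos
  refine ⟨T, hT.mono ?_ le_rfl⟩
  rintro M B ⟨a, b, ha, hb, hab, z, hz, p, w, hw, hm⟩
  obtain ⟨⟨U, hU, hUc, -⟩, ⟨V, hV, hVc, -⟩⟩ := hm 0 one_pos
  by_cases h : k ≤ a + 1
  · exact hU.hasHole hz (by omega)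
  · exact hV.hasHole hz (by omega)

/-- The answer: `K` is empty; Maker has a winning strategy for every `k ≥ 3`. -/
theorem main : breakerSet = ∅ ∧ ∀ k, 3 ≤ k → ∃ μ : MakerStrategy, MakerWinning k μ := by
  constructor
  · rw [Set.eq_empty_iff_forall_notMem]
    rintro k ⟨hk, hβ⟩
    obtain ⟨T, hT⟩ := force_hole k
    exact not_breakerWinning_of_force hk hT hβ
  · intro k hk
    obtain ⟨T, hT⟩ := force_hole k
    exact makerWinning_of_force hk hT

end Pool.Agent.KHG77
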