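import Pool.Agent.KHG77.Geo

/-!
# KHG77.Flag: flags, their persistence near `z` and their extension
-/

namespace Pool.Agent.KHG77

open Set Filter Topology

/-- `U` is a flag at `z` of side `s`: `U ∪ {z}` is a hole, all of `U` lies on side `s` of `z`. -/
structure Flag (M B : Finset Pt) (z : Pt) (s : Bool) (U : Finset Pt) : Prop where
  sub : U ⊆ M
  side : ∀ u ∈ U, 0 < sg s * (u.1 - z.1)
  ext : ∀ u ∈ U, u ∉ convexHull ℝ (insert z ((U.erase u : Finset Pt) : Set Pt))
  hole : ∀ p ∈ M ∪ B, p ∈ convexHull ℝ (insert z (U : Set Pt)) → p = z ∨ p ∈ U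

/-- The robust properties of a flag `V` at `z` (old position `M,B`), seen from the points `x`, `y`
near `z`. -/
structure Near (M B : Finset Pt) (z : Pt) (s : Bool) (V : Finset Pt) (lo hi : ℝ) (x y : Pt) :
    Prop where
  side : ∀ v ∈ V, 0 < sg s * (v.1 - x.1)
  slope : ∀ v ∈ V, sl x v ∈ Ioo lo hi
  old : ∀ p ∈ M ∪ B, p ∈ convexHull ℝ (insert x (insert y (V : Set Pt))) → p = z ∨ p ∈ V
  ext : ∀ v ∈ V, v ∉ convexHull ℝ (insert x (insert y ((V.erase v : Finset Pt) : Set Pt)))

/-- Compactness: a point outside the hull stays outside. -/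
theorem thick (A : Finset Pt) (z p : Pt) (hp : p ∉ convexHull ℝ (insert z (A : Set Pt))) :
    ∀ᶠ q : Pt × Pt in 𝓝 (z, z), p ∉ convexHull ℝ (insert q.1 (insert q.2 (A : Set Pt))) := by
  have hfin : (insert z (A : Set Pt)).Finite := A.finite_toSet.insert z
  have hclosed : IsClosed (convexHull ℝ (insert z (A : Set Pt))) := hfin.isClosed_convexHull ℝ
  have hz : z ∈ convexHull ℝ (insert z (A : Set Pt)) :=
    subset_convexHull ℝ _ (mem_insert z (A : Set Pt))
  have hne : (convexHull ℝ (insert z (A : Set Pt))).Nonempty := ⟨z, hz⟩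
  have hδ : 0 < Metric.infDist p (convexHull ℝ (insert z (A : Set Pt))) :=
    (hclosed.notMem_iff_infDist_pos hne).1 hp
  have hconv : Convex ℝ (Metric.thickening
      (Metric.infDist p (convexHull ℝ (insert z (A : Set Pt))))
      (convexHull ℝ (insert z (A : Set Pt)))) := (convex_convexHull ℝ _).thickening _
  have hb := Metric.ball_mem_nhds z hδ
  have h1 : ∀ᶠ q : Pt × Pt in 𝓝 (z, z),
      q.1 ∈ Metric.ball z (Metric.infDist p (convexHull ℝ (insert z (A : Set Pt)))) :=
    (continuous_fst.tendsto (z, z)).eventually hb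
  have h2 : ∀ᶠ q : Pt × Pt in 𝓝 (z, z),
      q.2 ∈ Metric.ball z (Metric.infDist p (convexHull ℝ (insert z (A : Set Pt)))) :=
    (continuous_snd.tendsto (z, z)).eventually hb
  filter_upwards [h1, h2] with q hq1 hq2 hmem
  have hsub : convexHull ℝ (insert q.1 (insert q.2 (A : Set Pt))) ⊆
      Metric.thickening (Metric.infDist p (convexHull ℝ (insert z (A : Set Pt))))
        (convexHull ℝ (insert z (A : Set Pt))) := by
    refine convexHull_min ?_ hconv
    rintro y (rfl | rfl | hy)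
    · exact Metric.mem_thickening_iff.2 ⟨z, hz, Metric.mem_ball.1 hq1⟩
    · exact Metric.mem_thickening_iff.2 ⟨z, hz, Metric.mem_ball.1 hq2⟩
    · exact Metric.self_subset_thickening hδ _
        (subset_convexHull ℝ _ (mem_insert_of_mem z hy))
  have h3 := hsub hmem
  rw [Metric.mem_thickening_iff_infDist_lt hne] at h3
  exact lt_irrefl _ h3

theorem sl_continuousAt {z v : Pt} (h : v.1 ≠ z.1) : ContinuousAt (fun x => sl x v) z := by
  unfold sl
  refine ContinuousAt.div ?_ ?_ (sub_ne_zero.mpr h)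
  · exact (continuous_const.sub continuous_snd).continuousAt
  · exact (continuous_const.sub continuous_fst).continuousAt

/-- Nonzero first coordinate difference from the side condition. -/
theorem helper4_ne_of_side {z v : Pt} {s : Bool} (h : 0 < sg s * (v.1 - z.1)) : v.1 ≠ z.1 := by
  intro h0
  rw [h0, sub_self, mul_zero] at h
  exact lt_irrefl _ h

theorem flag_near {M B : Finset Pt} {z : Pt} {s : Bool} {V : Finset Pt} {lo hi : ℝ}
    (h : Flag M B z s V) (hsl : ∀ v ∈ V, sl z v ∈ Ioo lo hi) :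
    ∀ᶠ q : Pt × Pt in 𝓝 (z, z), Near M B z s V lo hi q.1 q.2 := by
  have hfst : Tendsto (fun q : Pt × Pt => q.1) (𝓝 (z, z)) (𝓝 z) := continuous_fst.tendsto (z, z)
  have h1 : ∀ᶠ q : Pt × Pt in 𝓝 (z, z), ∀ v ∈ V, 0 < sg s * (v.1 - q.1.1) := by
    rw [Filter.eventually_all_finset]
    intro v hv
    have hc : Continuous (fun q : Pt × Pt => sg s * (v.1 - q.1.1)) :=
      continuous_const.mul (continuous_const.sub (continuous_fst.comp continuous_fst))
    exact hc.continuousAt.eventually (lt_mem_nhds (h.side v hv))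
  have h2 : ∀ᶠ q : Pt × Pt in 𝓝 (z, z), ∀ v ∈ V, sl q.1 v ∈ Ioo lo hi := by
    rw [Filter.eventually_all_finset]
    intro v hv
    have hc := sl_continuousAt (helper4_ne_of_side (h.side v hv))
    exact hfst.eventually (hc.eventually (isOpen_Ioo.mem_nhds (hsl v hv)))
  have h3 : ∀ᶠ q : Pt × Pt in 𝓝 (z, z), ∀ p ∈ M ∪ B,
      p ∈ convexHull ℝ (insert q.1 (insert q.2 (V : Set Pt))) → p = z ∨ p ∈ V := by
    rw [Filter.eventually_all_finset]
    intro p hp
    by_cases hpV : p = z ∨ p ∈ V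
    · exact Filter.Eventually.of_forall (fun q _ => hpV)
    · have hnot : p ∉ convexHull ℝ (insert z (V : Set Pt)) := fun hmem =>
        hpV (h.hole p hp hmem)
      filter_upwards [thick V z p hnot] with q hq hmem
      exact absurd hmem hq
  have h4 : ∀ᶠ q : Pt × Pt in 𝓝 (z, z), ∀ v ∈ V,
      v ∉ convexHull ℝ (insert q.1 (insert q.2 ((V.erase v : Finset Pt) : Set Pt))) := by
    rw [Filter.eventually_all_finset]
    intro v hv
    exact thick (V.erase v) z v (h.ext v hv)
  filter_upwards [h1, h2, h3, h4] with q a1 a2 a3 a4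
  exact ⟨a1, a2, a3, a4⟩

/-- Persistence of the order of the slopes. -/
theorem helper4_sep_near {z : Pt} {V V' : Finset Pt} (hV : ∀ v ∈ V, v.1 ≠ z.1)
    (hV' : ∀ v ∈ V', v.1 ≠ z.1) (hsep : Sep z V V') : ∀ᶠ x : Pt in 𝓝 z, Sep x V V' := by
  unfold Sep
  rw [Filter.eventually_all_finset]
  intro u hu
  rw [Filter.eventually_all_finset]
  intro u' hu'
  rcases hsep u hu u' hu' with h | h
  · exact Filter.Eventually.of_forall (fun x => Or.inl h)
  · have h1 := sl_continuousAt (hV u hu)
    have h2 := sl_continuousAt (hV' u' hu')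
    filter_upwards [h1.eventually_lt h2 h] with x hx
    exact Or.inr hx

theorem sepd_near {z : Pt} {γ γ' : Bool × Finset Pt}
    (hs : ∀ v ∈ γ.2, 0 < sg γ.1 * (v.1 - z.1)) (hs' : ∀ v ∈ γ'.2, 0 < sg γ'.1 * (v.1 - z.1))
    (hsep : Sepd z γ γ') : ∀ᶠ x : Pt in 𝓝 z, Sepd x γ γ' := by
  have hn : ∀ v ∈ γ.2, v.1 ≠ z.1 := fun v hv => helper4_ne_of_side (hs v hv)
  have hn' : ∀ v ∈ γ'.2, v.1 ≠ z.1 := fun v hv => helper4_ne_of_side (hs' v hv)
  rcases hsep with h | h | h
  · exact Filter.Eventually.of_forall (fun x => Or.inl h)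
  · filter_upwards [helper4_sep_near hn hn' h] with x hx
    exact Or.inr (Or.inl hx)
  · filter_upwards [helper4_sep_near hn' hn h] with x hx
    exact Or.inr (Or.inr hx)

end Pool.Agent.KHG77
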