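import Pool.Agent.KHG77.Flag

/-!
# KHG77.FlagB: persistence and extension of flags, holes from flags
-/

namespace Pool.Agent.KHG77

open Set Filter Topology

/-- Persistence. `V` is still a flag at `x` in the new position if no new point and (if `z ≠ x`)
not `z` lies in the hull. -/
theorem Near.persist {M B M' B' : Finset Pt} {z x : Pt} {s : Bool} {V : Finset Pt} {lo hi : ℝ}
    (h : Near M B z s V lo hi x x) (hV : V ⊆ M) (hM : M ⊆ M')
    (hz : z ≠ x → z ∉ convexHull ℝ (insert x (V : Set Pt)))
    (hnew : ∀ p ∈ M' ∪ B', p ∉ M ∪ B → p ≠ x → p ∉ convexHull ℝ (insert x (V : Set Pt))) :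
    Flag M' B' x s V := by
  refine ⟨hV.trans hM, h.side, ?_, ?_⟩
  · intro u hu hmem
    refine h.ext u hu ?_
    rwa [Set.insert_idem]
  · intro p hp hmem
    by_cases hpx : p = x
    · exact Or.inl hpx
    · by_cases hpM : p ∈ M ∪ B
      · have h1 := h.old p hpM (by rwa [Set.insert_idem])
        rcases h1 with h1 | h1
        · subst h1
          exact absurd hmem (hz hpx)
        · exact Or.inr h1
      · exact absurd hmem (hnew p hp hpM hpx)

/-- A point seen in a strictly smaller or strictly larger slope is not in the hull. -/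
theorem helper39_notMem_hull {x y : Pt} {s : Bool} {V : Finset Pt}
    (hV : ∀ v ∈ V, 0 < sg s * (v.1 - x.1)) (hys : 0 < sg s * (y.1 - x.1))
    (hyl : (∀ v ∈ V, sl x y < sl x v) ∨ (∀ v ∈ V, sl x v < sl x y)) :
    y ∉ convexHull ℝ (insert x (V : Set Pt)) := by
  intro hmem
  have hne : y ≠ x := by
    intro h0
    rw [h0, sub_self, mul_zero] at hys
    exact lt_irrefl _ hys
  rcases hyl with hyl | hyl
  · exact lt_irrefl _ (cone_gt (fun a ha => ⟨hV a ha, hyl a ha⟩) hmem hne).2
  · exact lt_irrefl _ (cone_lt (fun a ha => ⟨hV a ha, hyl a ha⟩) hmem hne).2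

/-- Extension by one vertex `y` near `z`, seen from `x` in a slope outside the slopes of `V`. -/
theorem Near.extend {M B M' B' : Finset Pt} {z x y : Pt} {s : Bool} {V : Finset Pt} {lo hi : ℝ}
    (h : Near M B z s V lo hi x y) (hV : V ⊆ M) (hM : M ⊆ M') (hy : y ∈ M')
    (hys : 0 < sg s * (y.1 - x.1))
    (hyl : (∀ v ∈ V, sl x y < sl x v) ∨ (∀ v ∈ V, sl x v < sl x y))
    (hz : z ≠ x → z ≠ y → z ∉ convexHull ℝ (insert x (insert y (V : Set Pt))))
    (hnew : ∀ p ∈ M' ∪ B', p ∉ M ∪ B → p ≠ x → p ≠ y →
      p ∉ convexHull ℝ (insert x (insert y (V : Set Pt)))) :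
    Flag M' B' x s (insert y V) ∧ (insert y V).card = V.card + 1 := by
  have hyV : y ∉ V := by
    intro hmem
    rcases hyl with hyl | hyl
    · exact lt_irrefl _ (hyl y hmem)
    · exact lt_irrefl _ (hyl y hmem)
  refine ⟨⟨?_, ?_, ?_, ?_⟩, Finset.card_insert_of_notMem hyV⟩
  · intro p hp
    rcases Finset.mem_insert.1 hp with rfl | hp
    · exact hy
    · exact hM (hV hp)
  · intro u hu
    rcases Finset.mem_insert.1 hu with rfl | hu
    · exact hys
    · exact h.side u hu
  · intro u hu hmem
    rcases Finset.mem_insert.1 hu with rfl | hu'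
    · rw [Finset.erase_insert hyV] at hmem
      exact helper39_notMem_hull h.side hys hyl hmem
    · have hne : y ≠ u := fun h0 => hyV (by rw [h0]; exact hu')
      rw [Finset.erase_insert_of_ne hne, Finset.coe_insert] at hmem
      exact h.ext u hu' hmem
  · intro p hp hmem
    rw [Finset.coe_insert] at hmem
    by_cases hpx : p = x
    · exact Or.inl hpx
    · by_cases hpy : p = y
      · exact Or.inr (by rw [hpy]; exact Finset.mem_insert_self _ _)
      · by_cases hpM : p ∈ M ∪ B
        · rcases h.old p hpM hmem with h1 | h1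
          · subst h1
            exact absurd hmem (hz hpx hpy)
          · exact Or.inr (Finset.mem_insert_of_mem h1)
        · exact absurd hmem (hnew p hp hpM hpx hpy)

/-- The base point of a flag is not a vertex of it. -/
theorem helper39_base_notMem {z : Pt} {s : Bool} {U : Finset Pt}
    (hU : ∀ u ∈ U, 0 < sg s * (u.1 - z.1)) : z ∉ U := by
  intro hz
  have := hU z hz
  rw [sub_self, mul_zero] at this
  exact lt_irrefl _ this

/-- The base point of a flag is not in the hull of the vertices. -/
theorem helper39_base_notMem_hull {z : Pt} {s : Bool} {U : Set Pt}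
    (hU : ∀ u ∈ U, 0 < sg s * (u.1 - z.1)) : z ∉ convexHull ℝ U := by
  intro hz
  have hconv : Convex ℝ {p : Pt | 0 < sg s * (p.1 - z.1)} := by
    intro x hx y hy u v hu hv huv
    simp only [mem_ofPred_eq] at hx hy ⊢
    simp only [Prod.fst_add, Prod.smul_fst, smul_eq_mul]
    have h3 : sg s * (u * x.1 + v * y.1 - z.1)
        = u * (sg s * (x.1 - z.1)) + v * (sg s * (y.1 - z.1)) + (u + v - 1) * (sg s * z.1) := by
      ring
    rw [h3, huv, sub_self, zero_mul, add_zero]
    rcases hu.lt_or_eq with h0 | h0
    · exact add_pos_of_pos_of_nonneg (mul_pos h0 hx) (mul_nonneg hv hy.le)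
    · have hv1 : v = 1 := by linarith
      rw [← h0, hv1, zero_mul, zero_add, one_mul]
      exact hy
  have h1 : z ∈ {p : Pt | 0 < sg s * (p.1 - z.1)} := convexHull_min hU hconv hz
  simp only [mem_ofPred_eq, sub_self, mul_zero] at h1
  exact lt_irrefl _ h1

/-- A flag together with its base point is convexly independent. -/
theorem helper39_convexIndependent {M B : Finset Pt} {z : Pt} {s : Bool} {U : Finset Pt}
    (h : Flag M B z s U) :
    ConvexIndependent ℝ ((↑) : ((insert z U : Finset Pt) : Set Pt) → Pt) := by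
  rw [convexIndependent_set_iff_notMem_convexHull_sdiff]
  intro p hp hmem
  rw [Finset.coe_insert] at hp hmem
  rcases hp with rfl | hp
  · refine helper39_base_notMem_hull (s := s) ?_ hmem
    rintro u ⟨hu1, hu2⟩
    rcases hu1 with rfl | hu1
    · exact absurd rfl hu2
    · exact h.side u hu1
  · refine h.ext p hp (convexHull_mono ?_ hmem)
    rintro u ⟨hu1, hu2⟩
    rcases hu1 with rfl | hu1
    · exact Set.mem_insert _ _
    · refine Set.mem_insert_of_mem _ ?_
      rw [Finset.coe_erase]
      exact ⟨hu1, hu2⟩

/-- A flag of level at least `k - 1` gives a `k`-hole. -/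
theorem Flag.hasHole {M B : Finset Pt} {z : Pt} {s : Bool} {U : Finset Pt} {k : ℕ}
    (h : Flag M B z s U) (hz : z ∈ M) (hk : k ≤ U.card + 1) : HasHole k M B := by
  have hcard : (insert z U).card = U.card + 1 :=
    Finset.card_insert_of_notMem (helper39_base_notMem h.side)
  obtain ⟨H, hH1, hH2⟩ := Finset.exists_subset_card_eq (s := insert z U) (n := k)
    (by rw [hcard]; exact hk)
  have hUM : insert z U ⊆ M := by
    intro p hp
    rcases Finset.mem_insert.1 hp with rfl | hp
    · exact hz
    · exact h.sub hp
  have hHM : H ⊆ M := hH1.trans hUM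
  have hci := helper39_convexIndependent h
  have hci' : ConvexIndependent ℝ ((↑) : H → Pt) := by
    have hmem : ∀ p : H, p.1 ∈ ((insert z U : Finset Pt) : Set Pt) := fun p => by
      exact_mod_cast hH1 p.2
    have hinj : Function.Injective
        (fun p : H => (⟨p.1, hmem p⟩ : ((insert z U : Finset Pt) : Set Pt))) := by
      intro p q hpq
      have h1 : p.1 = q.1 := congrArg (fun w => w.1) hpq
      exact Subtype.ext h1
    exact hci.comp_embedding ⟨_, hinj⟩
  refine ⟨H, hHM, ?_, hH2, hci', ?_⟩
  · exact hHM.trans Finset.subset_union_left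
  · apply Set.Subset.antisymm
    · rintro p ⟨hp1, hp2⟩
      have hp3 : p ∈ convexHull ℝ (insert z (U : Set Pt)) := by
        refine convexHull_mono ?_ hp1
        rw [← Finset.coe_insert]
        exact_mod_cast hH1
      have hp4 : p ∈ insert z U := by
        rcases h.hole p (by exact_mod_cast hp2) hp3 with h1 | h1
        · rw [h1]; exact Finset.mem_insert_self _ _
        · exact Finset.mem_insert_of_mem h1
      have hp6 : p ∈ ((insert z U : Finset Pt) : Set Pt) := by exact_mod_cast hp4
      let K : Set ((insert z U : Finset Pt) : Set Pt) := fun q => q.1 ∈ H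
      have himg : (fun q : ((insert z U : Finset Pt) : Set Pt) => (q.1 : Pt)) '' K
          = (H : Set Pt) := by
        ext q
        constructor
        · rintro ⟨w, hw, rfl⟩
          exact hw
        · intro hq
          exact ⟨⟨q, by exact_mod_cast hH1 hq⟩, hq, rfl⟩
      have hp5 : (⟨p, hp6⟩ : ((insert z U : Finset Pt) : Set Pt)) ∈ K := hci K ⟨p, hp6⟩ (by
        rw [himg]
        exact hp1)
      exact hp5
    · intro p hp
      refine ⟨subset_convexHull ℝ _ hp, ?_⟩
      have : p ∈ M ∪ B := Finset.mem_union_left _ (hHM (by exact_mod_cast hp))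
      exact_mod_cast this

/-- Flags of level one. -/
theorem flag_single {M B : Finset Pt} (hok : Ok M B) {z u : Pt} (hz : z ∈ M) (hu : u ∈ M)
    {s : Bool} (hs : 0 < sg s * (u.1 - z.1)) : Flag M B z s {u} := by
  have hne : u ≠ z := by
    intro h0
    rw [h0, sub_self, mul_zero] at hs
    exact lt_irrefl _ hs
  refine ⟨?_, ?_, ?_, ?_⟩
  · intro p hp
    rw [Finset.mem_singleton.1 hp]
    exact hu
  · intro p hp
    rw [Finset.mem_singleton.1 hp]
    exact hs
  · intro p hp
    rw [Finset.mem_singleton.1 hp]
    simp only [Finset.erase_singleton, Finset.coe_empty, insert_empty_eq, convexHull_singleton,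
      mem_singleton_iff]
    exact hne
  · intro p hp hmem
    by_contra hcon
    push Not at hcon
    obtain ⟨h1, h2⟩ := hcon
    have h2' : p ≠ u := fun h0 => h2 (by rw [h0]; exact Finset.mem_singleton_self _)
    refine hok.2 z (Finset.mem_union_left _ hz) u (Finset.mem_union_left _ hu) p hp hne.symm
      (Ne.symm h1) h2'.symm ?_
    rw [Finset.coe_singleton, convexHull_pair] at hmem
    have hw := mem_segment_iff_wbtw.1 hmem
    have hc := hw.collinear
    have he : ({z, u, p} : Set Pt) = {z, p, u} := by
      rw [Set.pair_comm u p]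
    rw [he]
    exact hc

end Pool.Agent.KHG77
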