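import Pool.Agent.KHG77.Basic

/-!
# KHG77.Geo: slopes, cones, determinants
-/

namespace Pool.Agent.KHG77

open Set

/-- Sign of a side: `true` is the right side (larger first coordinate). -/
def sg (s : Bool) : ℝ := if s then 1 else -1

/-- Slope of the line through `x` and `p`. -/
noncomputable def sl (x p : Pt) : ℝ := (p.2 - x.2) / (p.1 - x.1)

/-- Orientation determinant. -/
def det3 (a b c : Pt) : ℝ := (b.1 - a.1) * (c.2 - a.2) - (b.2 - a.2) * (c.1 - a.1)

/-- The side of `x` on which `p` lies. -/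
noncomputable def sideOf (x p : Pt) : Bool := decide (x.1 < p.1)

theorem sg_sq (s : Bool) : sg s * sg s = 1 := by
  cases s <;> norm_num [sg]

theorem sideOf_pos {x p : Pt} (h : p.1 ≠ x.1) : 0 < sg (sideOf x p) * (p.1 - x.1) := by
  by_cases hx : x.1 < p.1
  · simp only [sideOf, hx, decide_true, sg, if_true]
    linarith
  · have : p.1 < x.1 := lt_of_le_of_ne (not_lt.mp hx) h
    simp only [sideOf, hx, decide_false, sg]
    simp only [Bool.false_eq_true, if_false]
    linarith

theorem sideOf_eq {x p : Pt} {s : Bool} (h : 0 < sg s * (p.1 - x.1)) : sideOf x p = s := by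
  cases s
  · simp only [sg, Bool.false_eq_true, if_false] at h
    simp only [sideOf, decide_eq_false_iff_not, not_lt]
    linarith
  · simp only [sg, if_true] at h
    simp only [sideOf, decide_eq_true_eq]
    linarith

theorem side_unique {x p : Pt} {s s' : Bool} (h : 0 < sg s * (p.1 - x.1))
    (h' : 0 < sg s' * (p.1 - x.1)) : s = s' := by
  rw [← sideOf_eq h, ← sideOf_eq h']

theorem collinear_iff_det3 (a b c : Pt) : Collinear ℝ ({a, b, c} : Set Pt) ↔ det3 a b c = 0 := by
  rw [collinear_iff_of_mem (p₀ := a) (by simp)]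
  constructor
  · rintro ⟨v, hv⟩
    obtain ⟨r, hr⟩ := hv b (by simp)
    obtain ⟨t, ht⟩ := hv c (by simp)
    have hb1 : b.1 = r * v.1 + a.1 := by rw [hr]; simp
    have hb2 : b.2 = r * v.2 + a.2 := by rw [hr]; simp
    have hc1 : c.1 = t * v.1 + a.1 := by rw [ht]; simp
    have hc2 : c.2 = t * v.2 + a.2 := by rw [ht]; simp
    simp only [det3, hb1, hb2, hc1, hc2]
    ring
  · intro h
    simp only [det3] at h
    by_cases h1 : b.1 = a.1
    · by_cases h2 : b.2 = a.2
      · refine ⟨(c.1 - a.1, c.2 - a.2), ?_⟩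
        intro p hp
        simp only [mem_insert_iff, mem_singleton_iff] at hp
        rcases hp with rfl | rfl | rfl
        · exact ⟨0, by simp⟩
        · exact ⟨0, by ext <;> simp [h1, h2]⟩
        · exact ⟨1, by ext <;> simp⟩
      · refine ⟨(b.1 - a.1, b.2 - a.2), ?_⟩
        have hne : b.2 - a.2 ≠ 0 := sub_ne_zero.mpr h2
        have hc1 : c.1 - a.1 = 0 := by
          have : (b.2 - a.2) * (c.1 - a.1) = 0 := by rw [h1] at h; linarith
          rcases mul_eq_zero.mp this with h' | h'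
          · exact absurd h' hne
          · exact h'
        intro p hp
        simp only [mem_insert_iff, mem_singleton_iff] at hp
        rcases hp with rfl | rfl | rfl
        · exact ⟨0, by simp⟩
        · exact ⟨1, by ext <;> simp⟩
        · refine ⟨(p.2 - a.2) / (b.2 - a.2), ?_⟩
          ext
          · simp only [vadd_eq_add, Prod.fst_add, Prod.smul_fst, smul_eq_mul, h1, sub_self,
              mul_zero, zero_add]
            linarith
          · simp only [vadd_eq_add, Prod.snd_add, Prod.smul_snd, smul_eq_mul]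
            rw [div_mul_cancel₀ _ hne]
            ring
    · refine ⟨(b.1 - a.1, b.2 - a.2), ?_⟩
      have hne : b.1 - a.1 ≠ 0 := sub_ne_zero.mpr h1
      intro p hp
      simp only [mem_insert_iff, mem_singleton_iff] at hp
      rcases hp with rfl | rfl | rfl
      · exact ⟨0, by simp⟩
      · exact ⟨1, by ext <;> simp⟩
      · refine ⟨(p.1 - a.1) / (b.1 - a.1), ?_⟩
        ext
        · simp only [vadd_eq_add, Prod.fst_add, Prod.smul_fst, smul_eq_mul]
          rw [div_mul_cancel₀ _ hne]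
          ring
        · simp only [vadd_eq_add, Prod.snd_add, Prod.smul_snd, smul_eq_mul]
          rw [div_mul_eq_mul_div, eq_comm, ← eq_sub_iff_add_eq, div_eq_iff hne]
          linarith

/-- Two points `p`, `q` seen from `x` in the same (non vertical) slope are collinear with `x`. -/
theorem det3_of_sl_eq {x p q : Pt} (hp : p.1 ≠ x.1) (hq : q.1 ≠ x.1) (h : sl x p = sl x q) :
    det3 x p q = 0 := by
  have hp' : p.1 - x.1 ≠ 0 := sub_ne_zero.mpr hp
  have hq' : q.1 - x.1 ≠ 0 := sub_ne_zero.mpr hq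
  simp only [sl] at h
  rw [div_eq_div_iff hp' hq'] at h
  simp only [det3]
  linarith

theorem halfplane {A : Set Pt} {a b c : ℝ} (h : ∀ p ∈ A, 0 ≤ a * p.1 + b * p.2 + c) {q : Pt}
    (hq : q ∈ convexHull ℝ A) : 0 ≤ a * q.1 + b * q.2 + c := by
  have hconv : Convex ℝ {p : Pt | 0 ≤ a * p.1 + b * p.2 + c} := by
    intro x hx y hy u v hu hv huv
    simp only [mem_setOf_eq] at hx hy ⊢
    simp only [Prod.fst_add, Prod.snd_add, Prod.smul_fst, Prod.smul_snd, smul_eq_mul]
    have h1 := mul_nonneg hu hx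
    have h2 := mul_nonneg hv hy
    have h3 : a * (u * x.1 + v * y.1) + b * (u * x.2 + v * y.2) + c
        = u * (a * x.1 + b * x.2 + c) + v * (a * y.1 + b * y.2 + c) + (1 - (u + v)) * c := by ring
    rw [h3, huv]
    linarith
  exact convexHull_min (fun p hp => h p hp) hconv hq

/-- The slope equation. -/
theorem helper15_sl_mul {x a : Pt} {s : Bool} (h : 0 < sg s * (a.1 - x.1)) :
    a.2 - x.2 = sl x a * (a.1 - x.1) := by
  have hne : a.1 - x.1 ≠ 0 := by
    intro h0
    rw [h0, mul_zero] at h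
    exact lt_irrefl _ h
  simp only [sl]
  rw [div_mul_cancel₀ _ hne]

/-- Cone lemma, closed slope interval. -/
theorem cone_closed {x q : Pt} {A : Set Pt} {s : Bool} {lo hi : ℝ}
    (h : ∀ a ∈ A, 0 < sg s * (a.1 - x.1) ∧ lo ≤ sl x a ∧ sl x a ≤ hi)
    (hq : q ∈ convexHull ℝ (insert x A)) (hne : q ≠ x) :
    0 < sg s * (q.1 - x.1) ∧ lo ≤ sl x q ∧ sl x q ≤ hi := by
  have H1 : 0 ≤ sg s * q.1 + 0 * q.2 + (-(sg s * x.1)) := by
    refine halfplane ?_ hq
    rintro p (rfl | hp)
    · apply le_of_eq; ring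
    · have := (h p hp).1
      linarith
  have H2 : 0 ≤ (-(sg s * lo)) * q.1 + sg s * q.2 + (sg s * lo * x.1 - sg s * x.2) := by
    refine halfplane ?_ hq
    rintro p (rfl | hp)
    · apply le_of_eq; ring
    · obtain ⟨h1, h2, h3⟩ := h p hp
      have h4 := helper15_sl_mul h1
      have h5 := mul_nonneg h1.le (sub_nonneg.mpr h2)
      have h6 : -(sg s * lo) * p.1 + sg s * p.2 + (sg s * lo * x.1 - sg s * x.2)
          = sg s * (p.2 - x.2) - sg s * lo * (p.1 - x.1) := by ring
      rw [h6, h4]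
      have h7 : sg s * (sl x p * (p.1 - x.1)) - sg s * lo * (p.1 - x.1)
          = sg s * (p.1 - x.1) * (sl x p - lo) := by ring
      rw [h7]
      exact h5
  have H3 : 0 ≤ (sg s * hi) * q.1 + (-(sg s)) * q.2 + (-(sg s * hi * x.1) + sg s * x.2) := by
    refine halfplane ?_ hq
    rintro p (rfl | hp)
    · apply le_of_eq; ring
    · obtain ⟨h1, h2, h3⟩ := h p hp
      have h4 := helper15_sl_mul h1
      have h5 := mul_nonneg h1.le (sub_nonneg.mpr h3)
      have h6 : sg s * hi * p.1 + -(sg s) * p.2 + (-(sg s * hi * x.1) + sg s * x.2)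
          = sg s * hi * (p.1 - x.1) - sg s * (p.2 - x.2) := by ring
      rw [h6, h4]
      have h7 : sg s * hi * (p.1 - x.1) - sg s * (sl x p * (p.1 - x.1))
          = sg s * (p.1 - x.1) * (hi - sl x p) := by ring
      rw [h7]
      exact h5
  have K1 : 0 ≤ sg s * (q.1 - x.1) := by linarith
  have K2 : 0 ≤ sg s * (q.2 - x.2) - lo * (sg s * (q.1 - x.1)) := by linarith
  have K3 : 0 ≤ hi * (sg s * (q.1 - x.1)) - sg s * (q.2 - x.2) := by linarith
  have hsg : sg s ≠ 0 := by
    intro h0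
    have := sg_sq s
    rw [h0] at this
    norm_num at this
  have hpos : 0 < sg s * (q.1 - x.1) := by
    refine lt_of_le_of_ne K1 (fun h0 => hne ?_)
    rw [← h0] at K2 K3
    have h2 : sg s * (q.2 - x.2) = 0 := by linarith
    have e1 : q.1 - x.1 = 0 := by
      rcases mul_eq_zero.mp h0.symm with h' | h'
      · exact absurd h' hsg
      · exact h'
    have e2 : q.2 - x.2 = 0 := by
      rcases mul_eq_zero.mp h2 with h' | h'
      · exact absurd h' hsg
      · exact h'
    exact Prod.ext (by linarith) (by linarith)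
  have h4 := helper15_sl_mul hpos
  refine ⟨hpos, ?_, ?_⟩
  · rw [h4] at K2
    have h7 : sg s * (sl x q * (q.1 - x.1)) - lo * (sg s * (q.1 - x.1))
          = sg s * (q.1 - x.1) * (sl x q - lo) := by ring
    rw [h7] at K2
    have := nonneg_of_mul_nonneg_right K2 hpos
    linarith
  · rw [h4] at K3
    have h7 : hi * (sg s * (q.1 - x.1)) - sg s * (sl x q * (q.1 - x.1))
          = sg s * (q.1 - x.1) * (hi - sl x q) := by ring
    rw [h7] at K3
    have := nonneg_of_mul_nonneg_right K3 hpos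
    linarith

/-- Finite cone lemma: the slope lies between the slopes of two members. -/
theorem helper15_cone_fin {x q : Pt} {A : Finset Pt} {s : Bool}
    (h : ∀ a ∈ A, 0 < sg s * (a.1 - x.1))
    (hq : q ∈ convexHull ℝ (insert x (A : Set Pt))) (hne : q ≠ x) :
    0 < sg s * (q.1 - x.1) ∧ ∃ u ∈ A, ∃ w ∈ A, sl x u ≤ sl x q ∧ sl x q ≤ sl x w ∧
      (∀ a ∈ A, sl x u ≤ sl x a) ∧ (∀ a ∈ A, sl x a ≤ sl x w) := by
  rcases A.eq_empty_or_nonempty with rfl | hA
  · exfalso
    simp only [Finset.coe_empty, insert_empty_eq, convexHull_singleton, mem_singleton_iff] at hq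
    exact hne hq
  · obtain ⟨u, hu, hu'⟩ := A.exists_min_image (sl x) hA
    obtain ⟨w, hw, hw'⟩ := A.exists_max_image (sl x) hA
    obtain ⟨h1, h2, h3⟩ := cone_closed (A := (A : Set Pt)) (s := s) (lo := sl x u) (hi := sl x w)
      (fun a ha => ⟨h a (Finset.mem_coe.mp ha), hu' a (Finset.mem_coe.mp ha),
        hw' a (Finset.mem_coe.mp ha)⟩) hq hne
    exact ⟨h1, u, hu, w, hw, h2, h3, hu', hw'⟩

/-- Cone lemma, open slope interval, finite set. -/
theorem cone_open {x q : Pt} {A : Finset Pt} {s : Bool} {lo hi : ℝ}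
    (h : ∀ a ∈ A, 0 < sg s * (a.1 - x.1) ∧ sl x a ∈ Ioo lo hi)
    (hq : q ∈ convexHull ℝ (insert x (A : Set Pt))) (hne : q ≠ x) :
    0 < sg s * (q.1 - x.1) ∧ sl x q ∈ Ioo lo hi := by
  obtain ⟨h1, u, hu, w, hw, h2, h3, _, _⟩ := helper15_cone_fin (fun a ha => (h a ha).1) hq hne
  exact ⟨h1, lt_of_lt_of_le (h u hu).2.1 h2, lt_of_le_of_lt h3 (h w hw).2.2⟩

/-- Strict lower bound on slopes is kept in the cone. -/
theorem cone_gt {x q : Pt} {A : Finset Pt} {s : Bool} {lo : ℝ}
    (h : ∀ a ∈ A, 0 < sg s * (a.1 - x.1) ∧ lo < sl x a)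
    (hq : q ∈ convexHull ℝ (insert x (A : Set Pt))) (hne : q ≠ x) :
    0 < sg s * (q.1 - x.1) ∧ lo < sl x q := by
  obtain ⟨h1, u, hu, w, hw, h2, h3, _, _⟩ := helper15_cone_fin (fun a ha => (h a ha).1) hq hne
  exact ⟨h1, lt_of_lt_of_le (h u hu).2 h2⟩

/-- Strict upper bound on slopes is kept in the cone. -/
theorem cone_lt {x q : Pt} {A : Finset Pt} {s : Bool} {hi : ℝ}
    (h : ∀ a ∈ A, 0 < sg s * (a.1 - x.1) ∧ sl x a < hi)
    (hq : q ∈ convexHull ℝ (insert x (A : Set Pt))) (hne : q ≠ x) :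
    0 < sg s * (q.1 - x.1) ∧ sl x q < hi := by
  obtain ⟨h1, u, hu, w, hw, h2, h3, _, _⟩ := helper15_cone_fin (fun a ha => (h a ha).1) hq hne
  exact ⟨h1, lt_of_le_of_lt h3 (h w hw).2⟩

/-- `V` is weakly before `V'` in the slope order at `x`: slopes are smaller, except that the two
sets may share vertices. -/
def Sep (x : Pt) (V V' : Finset Pt) : Prop := ∀ u ∈ V, ∀ u' ∈ V', u = u' ∨ sl x u < sl x u'

/-- Separated pair of sets with sides. -/
def Sepd (x : Pt) (γ γ' : Bool × Finset Pt) : Prop :=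
  γ.1 ≠ γ'.1 ∨ Sep x γ.2 γ'.2 ∨ Sep x γ'.2 γ.2

/-- Pairwise separated family. -/
def PairSep (x : Pt) (G : Finset (Bool × Finset Pt)) : Prop :=
  ∀ γ ∈ G, ∀ γ' ∈ G, γ ≠ γ' → Sepd x γ γ'

/-- A point in general position with respect to `x` and the vertices lies in at most one of the
hulls of a separated pair. -/
theorem hit_unique {x q : Pt} {γ γ' : Bool × Finset Pt}
    (hs : ∀ v ∈ γ.2, 0 < sg γ.1 * (v.1 - x.1)) (hs' : ∀ v ∈ γ'.2, 0 < sg γ'.1 * (v.1 - x.1))
    (hsep : Sepd x γ γ') (hne : q ≠ x)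
    (hgen : ∀ v ∈ γ.2, det3 x v q ≠ 0)
    (hq : q ∈ convexHull ℝ (insert x (γ.2 : Set Pt)))
    (hq' : q ∈ convexHull ℝ (insert x (γ'.2 : Set Pt))) : False := by
  obtain ⟨h1, u, hu, w, hw, h2, h3, hmin, hmax⟩ := helper15_cone_fin hs hq hne
  obtain ⟨h1', u', hu', w', hw', h2', h3', hmin', hmax'⟩ := helper15_cone_fin hs' hq' hne
  have hq1 : q.1 ≠ x.1 := by
    intro h0
    rw [h0, sub_self, mul_zero] at h1
    exact lt_irrefl _ h1
  have hv1 : ∀ v ∈ γ.2, v.1 ≠ x.1 := by
    intro v hv h0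
    have := hs v hv
    rw [h0, sub_self, mul_zero] at this
    exact lt_irrefl _ this
  rcases hsep with hsep | hsep | hsep
  · exact hsep (side_unique h1 h1')
  · rcases hsep w hw u' hu' with h | h
    · have : sl x w = sl x q := le_antisymm (by rw [h]; exact h2') h3
      exact hgen w hw (det3_of_sl_eq (hv1 w hw) hq1 this)
    · exact absurd (lt_of_lt_of_le h h2') (not_lt.mpr h3)
  · rcases hsep w' hw' u hu with h | h
    · have : sl x u = sl x q := le_antisymm h2 (by rw [← h]; exact h3')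
      exact hgen u hu (det3_of_sl_eq (hv1 u hu) hq1 this)
    · exact absurd (lt_of_lt_of_le h h2) (not_lt.mpr h3')

end Pool.Agent.KHG77
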