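import Pool.Agent.KHG77.Geo

/-!
# KHG77.Legal: existence of legal moves; the local chart
-/

namespace Pool.Agent.KHG77

open Set Filter Topology

/-- The local chart at `z`: scale `r`, slope centre `σ`, slope scale `ε`. -/
def phi (z : Pt) (r σ ε : ℝ) (X H : ℝ) : Pt := (z.1 + r * X, z.2 + r * (σ * X + ε * H))

/-- First chart coordinate. -/
noncomputable def cX (z : Pt) (r : ℝ) (p : Pt) : ℝ := (p.1 - z.1) / r

/-- Second chart coordinate. -/
noncomputable def cH (z : Pt) (r σ ε : ℝ) (p : Pt) : ℝ :=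
  ((p.2 - z.2) / r - σ * ((p.1 - z.1) / r)) / ε

theorem phi_cX {z : Pt} {r σ ε : ℝ} (hr : 0 < r) (hε : 0 < ε) (p : Pt) :
    phi z r σ ε (cX z r p) (cH z r σ ε p) = p := by
  have hr' := hr.ne'
  have hε' := hε.ne'
  unfold phi cX cH
  refine Prod.ext ?_ ?_
  · simp only
    field_simp
    ring
  · simp only
    field_simp
    ring

theorem cX_phi {z : Pt} {r σ ε : ℝ} (hr : 0 < r) (X H : ℝ) :
    cX z r (phi z r σ ε X H) = X := by
  have hr' := hr.ne'
  unfold phi cX
  simp only
  field_simp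
  ring

theorem cH_phi {z : Pt} {r σ ε : ℝ} (hr : 0 < r) (hε : 0 < ε) (X H : ℝ) :
    cH z r σ ε (phi z r σ ε X H) = H := by
  have hr' := hr.ne'
  have hε' := hε.ne'
  unfold phi cH
  simp only
  field_simp
  ring

theorem sl_phi {z : Pt} {r σ ε : ℝ} (hr : 0 < r) {X H X' H' : ℝ} (h : X' ≠ X) :
    sl (phi z r σ ε X H) (phi z r σ ε X' H') = σ + ε * ((H' - H) / (X' - X)) := by
  have hr' := hr.ne'
  have h1 : X' - X ≠ 0 := sub_ne_zero.mpr h
  have e1 : z.1 + r * X' - (z.1 + r * X) = r * (X' - X) := by ring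
  have e2 : z.2 + r * (σ * X' + ε * H') - (z.2 + r * (σ * X + ε * H))
      = r * (σ * (X' - X) + ε * (H' - H)) := by ring
  unfold phi sl
  simp only
  rw [e1, e2]
  field_simp

/-- Criterion for a legal move. -/
theorem helper99_legal_of_det {S : Finset Pt} (hS : GenPos S) {p : Pt} (hp : p ∉ S)
    (h : ∀ a ∈ S, ∀ b ∈ S, a ≠ b → det3 a b p ≠ 0) : LegalMove S p := by
  refine ⟨hp, ?_⟩
  intro a ha b hb c hc hab hac hbc
  rw [collinear_iff_det3]
  rcases Finset.mem_insert.mp ha with rfl | ha'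
  · -- a = p
    have hb' : b ∈ S := by
      rcases Finset.mem_insert.mp hb with h1 | h1
      · exact absurd h1.symm hab
      · exact h1
    have hc' : c ∈ S := by
      rcases Finset.mem_insert.mp hc with h1 | h1
      · exact absurd h1.symm hac
      · exact h1
    intro h0
    apply h b hb' c hc' hbc
    unfold det3 at h0 ⊢
    linarith
  · rcases Finset.mem_insert.mp hb with rfl | hb'
    · have hc' : c ∈ S := by
        rcases Finset.mem_insert.mp hc with h1 | h1
        · exact absurd h1.symm hbc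
        · exact h1
      intro h0
      apply h a ha' c hc' hac
      unfold det3 at h0 ⊢
      linarith
    · rcases Finset.mem_insert.mp hc with rfl | hc'
      · exact h a ha' b hb' hab
      · intro h0
        exact hS a ha' b hb' c hc' hab hac hbc ((collinear_iff_det3 a b c).mpr h0)

/-- The parameters of a nonzero quadratic polynomial's zeros form a finite set. -/
theorem helper99_quad_finite {A B C : ℝ} (h : A ≠ 0 ∨ B ≠ 0) :
    {t : ℝ | A * t ^ 2 + B * t + C = 0}.Finite := by
  set P : Polynomial ℝ := Polynomial.C A * Polynomial.X ^ 2 + Polynomial.C B * Polynomial.X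
    + Polynomial.C C with hP
  have hP0 : P ≠ 0 := by
    intro h0
    have h2 : P.coeff 2 = A := by
      simp [hP, Polynomial.coeff_X, Polynomial.coeff_C]
    have h1 : P.coeff 1 = B := by
      simp [hP, Polynomial.coeff_X, Polynomial.coeff_C]
    rw [h0] at h1 h2
    simp at h1 h2
    rcases h with h | h
    · exact h h2.symm
    · exact h h1.symm
  refine (P.roots.toFinset.finite_toSet).subset ?_
  intro t ht
  simp only [mem_setOf_eq] at ht
  simp only [Finset.mem_coe, Multiset.mem_toFinset]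
  rw [Polynomial.mem_roots hP0]
  simp only [Polynomial.IsRoot.def, hP, Polynomial.eval_add, Polynomial.eval_mul,
    Polynomial.eval_C, Polynomial.eval_pow, Polynomial.eval_X]
  exact ht

/-- On every arc of the parabola `H = X ^ 2` of the chart there is a legal move. -/
theorem exists_legal_curve {S : Finset Pt} (hS : GenPos S) {z : Pt} {r σ ε : ℝ} (hr : 0 < r)
    (hε : 0 < ε) {a b : ℝ} (hab : a < b) :
    ∃ t ∈ Ioo a b, LegalMove S (phi z r σ ε t (t ^ 2)) := by
  have h1 : {t : ℝ | ∃ u ∈ S, phi z r σ ε t (t ^ 2) = u}.Finite := by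
    have : {t : ℝ | ∃ u ∈ S, phi z r σ ε t (t ^ 2) = u} ⊆
        (S.image fun u : Pt => cX z r u : Finset ℝ) := by
      rintro t ⟨u, hu, htu⟩
      simp only [Finset.coe_image, mem_image, Finset.mem_coe]
      exact ⟨u, hu, by rw [← htu, cX_phi hr]⟩
    exact (Finset.finite_toSet _).subset this
  have h2 : {t : ℝ | ∃ u ∈ S, ∃ v ∈ S, u ≠ v ∧ det3 u v (phi z r σ ε t (t ^ 2)) = 0}.Finite := by
    have hsub : {t : ℝ | ∃ u ∈ S, ∃ v ∈ S, u ≠ v ∧ det3 u v (phi z r σ ε t (t ^ 2)) = 0} ⊆
        ⋃ q ∈ (S ×ˢ S).filter (fun q : Pt × Pt => q.1 ≠ q.2),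
          {t : ℝ | det3 q.1 q.2 (phi z r σ ε t (t ^ 2)) = 0} := by
      rintro t ⟨u, hu, v, hv, huv, h0⟩
      simp only [mem_iUnion]
      refine ⟨(u, v), ?_, h0⟩
      simp only [Finset.mem_filter, Finset.mem_product]
      exact ⟨⟨hu, hv⟩, huv⟩
    refine Set.Finite.subset ?_ hsub
    refine Set.Finite.biUnion (Finset.finite_toSet _) ?_
    rintro ⟨u, v⟩ huv
    have huv' : u ≠ v := (Finset.mem_filter.mp huv).2
    have hset : {t : ℝ | det3 (u, v).1 (u, v).2 (phi z r σ ε t (t ^ 2)) = 0} =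
        {t : ℝ | ((v.1 - u.1) * (r * ε)) * t ^ 2
          + ((v.1 - u.1) * (r * σ) - (v.2 - u.2) * r) * t
          + ((v.1 - u.1) * (z.2 - u.2) - (v.2 - u.2) * (z.1 - u.1)) = 0} := by
      ext t
      simp only [mem_setOf_eq, det3, phi]
      constructor
      · intro h
        linarith
      · intro h
        linarith
    rw [hset]
    apply helper99_quad_finite
    by_cases h3 : v.1 - u.1 = 0
    · right
      rw [h3]
      have h4 : v.2 - u.2 ≠ 0 := by
        intro h5
        apply huv'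
        exact Prod.ext (by linarith) (by linarith)
      have h6 : (v.2 - u.2) * r ≠ 0 := mul_ne_zero h4 hr.ne'
      intro h7
      apply h6
      linarith
    · left
      exact mul_ne_zero h3 (mul_ne_zero hr.ne' hε.ne')
  have hinf : (Ioo a b).Infinite := Ioo_infinite hab
  obtain ⟨t, ht, htn⟩ := (hinf.diff (h1.union h2)).nonempty
  refine ⟨t, ht, ?_⟩
  apply helper99_legal_of_det hS
  · intro hmem
    exact htn (Or.inl ⟨_, hmem, rfl⟩)
  · intro u hu v hv huv h0
    exact htn (Or.inr ⟨u, hu, v, hv, huv, h0⟩)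

/-- In every nonempty open set there is a legal move. -/
theorem exists_legal {S : Finset Pt} (hS : GenPos S) {O : Set Pt} (hO : IsOpen O)
    (hne : O.Nonempty) : ∃ p ∈ O, LegalMove S p := by
  obtain ⟨o, ho⟩ := hne
  have hcont : Continuous fun t : ℝ => phi o 1 0 1 t (t ^ 2) := by
    unfold phi
    fun_prop
  have hopen : IsOpen ((fun t : ℝ => phi o 1 0 1 t (t ^ 2)) ⁻¹' O) := hO.preimage hcont
  have h0 : (0 : ℝ) ∈ (fun t : ℝ => phi o 1 0 1 t (t ^ 2)) ⁻¹' O := by
    simp only [mem_preimage]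
    have : phi o 1 0 1 0 (0 ^ 2) = o := by
      unfold phi
      refine Prod.ext ?_ ?_ <;> simp
    rw [this]
    exact ho
  obtain ⟨δ, hδ, hball⟩ := Metric.isOpen_iff.mp hopen 0 h0
  obtain ⟨t, ht, hleg⟩ := exists_legal_curve hS (z := o) (r := 1) (σ := 0) (ε := 1)
    one_pos one_pos hδ
  refine ⟨phi o 1 0 1 t (t ^ 2), ?_, hleg⟩
  apply hball
  rw [Metric.mem_ball, Real.dist_eq, sub_zero, abs_of_pos ht.1]
  exact ht.2

/-- In every nonempty open set of the chart there is a legal move. -/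
theorem exists_legal_chart {S : Finset Pt} (hS : GenPos S) {z : Pt} {r σ ε : ℝ} (hr : 0 < r)
    (hε : 0 < ε) {O : Set (ℝ × ℝ)} (hO : IsOpen O) (hne : O.Nonempty) :
    ∃ q ∈ O, LegalMove S (phi z r σ ε q.1 q.2) := by
  have hcont : Continuous fun p : Pt => (cX z r p, cH z r σ ε p) := by
    unfold cX cH
    fun_prop
  have hopen : IsOpen ((fun p : Pt => (cX z r p, cH z r σ ε p)) ⁻¹' O) := hO.preimage hcont
  obtain ⟨o, ho⟩ := hne
  have hne' : ((fun p : Pt => (cX z r p, cH z r σ ε p)) ⁻¹' O).Nonempty := by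
    refine ⟨phi z r σ ε o.1 o.2, ?_⟩
    simp only [mem_preimage]
    rw [cX_phi hr, cH_phi hr hε]
    exact ho
  obtain ⟨p, hp, hleg⟩ := exists_legal hS hopen hne'
  refine ⟨(cX z r p, cH z r σ ε p), hp, ?_⟩
  simp only
  rw [phi_cX hr hε]
  exact hleg

/-- Chart points in a bounded box are near `z` when `r` is small. -/
theorem phi_near {z : Pt} {σ ε R : ℝ} {P : Pt × Pt → Prop} (hP : ∀ᶠ q in 𝓝 (z, z), P q) :
    ∃ r > 0, ∀ X H X' H' : ℝ, |X| ≤ R → |H| ≤ R → |X'| ≤ R → |H'| ≤ R →
      P (phi z r σ ε X H, phi z r σ ε X' H') := by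
  obtain ⟨δ, hδ, hball⟩ := Metric.eventually_nhds_iff_ball.mp hP
  set K : ℝ := (1 + |σ| + |ε|) * |R| + 1 with hK
  have hKpos : 0 < K := by
    have : 0 ≤ (1 + |σ| + |ε|) * |R| := by positivity
    linarith
  refine ⟨δ / (2 * K), by positivity, ?_⟩
  set r : ℝ := δ / (2 * K) with hr
  have hrpos : 0 < r := by rw [hr]; positivity
  have hrK : r * K < δ := by
    rw [hr]
    have : δ / (2 * K) * K = δ / 2 := by field_simp
    rw [this]
    linarith
  have key : ∀ X H : ℝ, |X| ≤ R → |H| ≤ R → dist (phi z r σ ε X H) z < δ := by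
    intro X H hX hH
    have hR : 0 ≤ R := le_trans (abs_nonneg X) hX
    have hRa : |R| = R := abs_of_nonneg hR
    rw [Prod.dist_eq]
    unfold phi
    simp only
    rw [Real.dist_eq, Real.dist_eq]
    have e1 : z.1 + r * X - z.1 = r * X := by ring
    have e2 : z.2 + r * (σ * X + ε * H) - z.2 = r * (σ * X + ε * H) := by ring
    rw [e1, e2, abs_mul, abs_mul, abs_of_pos hrpos]
    have hb1 : |X| ≤ K := by
      rw [hK, hRa]
      have : 0 ≤ (|σ| + |ε|) * R := by positivity
      nlinarith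
    have hb2 : |σ * X + ε * H| ≤ K := by
      calc |σ * X + ε * H| ≤ |σ * X| + |ε * H| := abs_add_le _ _
        _ = |σ| * |X| + |ε| * |H| := by rw [abs_mul, abs_mul]
        _ ≤ |σ| * R + |ε| * R := by gcongr
        _ ≤ K := by rw [hK, hRa]; nlinarith
    refine max_lt ?_ ?_
    · exact lt_of_le_of_lt (mul_le_mul_of_nonneg_left hb1 hrpos.le) hrK
    · exact lt_of_le_of_lt (mul_le_mul_of_nonneg_left hb2 hrpos.le) hrK
  intro X H X' H' hX hH hX' hH'
  apply hball
  rw [Metric.mem_ball, Prod.dist_eq]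
  exact max_lt (key X H hX hH) (key X' H' hX' hH')

end Pool.Agent.KHG77
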