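import Pool.Agent.KHG77.Node1b

/-!
# KHG77.Node3: the end of a node
-/

namespace Pool.Agent.KHG77

open Set Filter Topology

namespace Ctx

variable (C : Ctx)

/-- The half length of the cell. -/
theorem h35_half : C.ε * C.K = C.nw * C.w / 2 := by
  have hK := C.K_pos
  rw [C.hε]
  field_simp

/-- `K` is large. -/
theorem h35_K : C.V0 + C.N + 3 < C.K := by
  rw [C.hK]
  nlinarith [sq_nonneg (C.V0 + 1)]

/-- Slopes close to the slope of a cluster point are in the cell. -/
theorem h35_cell {q : ℝ × ℝ} (h : OKX C.N C.V0 C.t q) {i : ℕ} (hi : i < C.N) {s : ℝ}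
    (hs : |s - sl (C.pt q) (C.y i)| ≤ C.ε) : s ∈ Ioo C.c (C.c + C.nw * C.w) := by
  have h1 := C.slope_bd h hi
  have h2 := C.h35_half
  have h3 := C.h35_K
  have hε := C.ε_pos
  have h4 : C.ε * (C.V0 + C.N + 3) < C.ε * C.K := mul_lt_mul_of_pos_left h3 hε
  have h5 := C.hσ
  rw [abs_le] at h1 hs
  constructor
  · nlinarith [h1.1, hs.1]
  · nlinarith [h1.2, hs.2]

theorem h35_ne {q : ℝ × ℝ} (h : OKX C.N C.V0 C.t q) {j : ℕ} (hj : j < C.N) :
    C.y j ≠ C.pt q := fun he => C.fst_ne h hj (by rw [he])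

/-- Another point of the cluster is not in the hull of an alternative. -/
theorem h35_notin {q : ℝ × ℝ} (h : OKX C.N C.V0 C.t q) {i j : ℕ} (hi : i < C.N) (hj : j < C.N)
    (hij : i ≠ j) {τ : Bool} {l : ℕ} (hl : l < C.L) (hg : C.good (C.pt q) i τ l) :
    C.y j ∉ C.altHull (C.pt q) i τ l := by
  intro hmem
  obtain ⟨_, h1, h2⟩ := C.altHull_slope h hi hl hg hmem (C.h35_ne h hj)
  have hsep := C.slope_sep h hi hj hij
  have hε := C.ε_pos
  obtain ⟨ha, hb⟩ := C.alo_ahi (C.pt q) i τ hl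
  rcases Bool.eq_false_or_eq_true τ with ht | ht
  · obtain ⟨h3, h4⟩ := h1 ht
    obtain ⟨_, h6⟩ := ha ht
    rcases lt_abs.1 hsep with h7 | h7 <;> linarith
  · obtain ⟨h3, h4⟩ := h2 ht
    obtain ⟨h5, _⟩ := hb ht
    rcases lt_abs.1 hsep with h7 | h7 <;> linarith

/-- An index `(i, τ)` that is not hit gives a new flag. -/
theorem unhit_flag {q : ℝ × ℝ} (h : OKX C.N C.V0 C.t q) {M' B' : Finset Pt} (hok : Ok M' B')
    (hM : C.M ⊆ M') (hMY : ∀ p ∈ M', p ∈ C.M ∨ (∃ i < C.N, p = C.y i) ∨ p = C.pt q)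
    (hY : ∀ i < C.N, C.y i ∈ M') (hx : C.pt q ∈ M') (hB : C.B ⊆ B')
    (hQ : (B' \ C.B).card ≤ 2 * C.N) {i : ℕ} (hi : i < C.N) {τ : Bool}
    (hno : ∀ b ∈ B' \ C.B, ¬ C.hit (C.pt q) b (Sum.inr (i, τ))) :
    ∃ l < C.L, C.good (C.pt q) i τ l ∧
      Flag M' B' (C.pt q) (C.sd (C.pt q) i) (insert (C.y i) (C.altV (C.pt q) i τ l)) ∧
      (insert (C.y i) (C.altV (C.pt q) i τ l)).card = C.lv (C.sd (C.pt q) i) + 1 := by
  classical
  -- a good alternative without new points of Breaker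
  obtain ⟨l, hl, hg, hfree⟩ : ∃ l < C.L, C.good (C.pt q) i τ l ∧
      ∀ b ∈ B' \ C.B, b ∉ C.altHull (C.pt q) i τ l := by
    by_contra hcon
    push Not at hcon
    have hch : ∀ l, ∃ b, l < C.L → C.good (C.pt q) i τ l →
        b ∈ B' \ C.B ∧ b ∈ C.altHull (C.pt q) i τ l := by
      intro l
      by_cases hl : l < C.L ∧ C.good (C.pt q) i τ l
      · obtain ⟨b, hb, hb'⟩ := hcon l hl.1 hl.2
        exact ⟨b, fun _ _ => ⟨hb, hb'⟩⟩
      · exact ⟨C.z, fun h1 h2 => absurd ⟨h1, h2⟩ hl⟩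
    choose f hf using hch
    set G := (Finset.range C.L).filter fun l => C.good (C.pt q) i τ l with hG
    have hGmem : ∀ l, l ∈ G → l < C.L ∧ C.good (C.pt q) i τ l := by
      intro l hl
      rw [hG, Finset.mem_filter, Finset.mem_range] at hl
      exact hl
    have hle : G.card ≤ (B' \ C.B).card := by
      refine Finset.card_le_card_of_injOn f ?_ ?_
      · intro l hl
        exact (hf l (hGmem l hl).1 (hGmem l hl).2).1
      · intro l hl l' hl' heq
        by_contra hne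
        obtain ⟨a1, a2⟩ := hGmem l hl
        obtain ⟨b1, b2⟩ := hGmem l' hl'
        obtain ⟨c1, c2⟩ := hf l a1 a2
        obtain ⟨d1, d2⟩ := hf l' b1 b2
        rcases lt_or_gt_of_ne hne with hlt | hlt
        · exact hno (f l) c1 ⟨l, a1, l', b1, hlt, a2, b2, c2, by rw [heq]; exact d2⟩
        · exact hno (f l) c1 ⟨l', b1, l, a1, hlt, b2, a2, by rw [heq]; exact d2, c2⟩
    have hbad := C.card_bad h hi τ
    have hsum : ((Finset.range C.L).filter fun l => C.good (C.pt q) i τ l).card +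
        ((Finset.range C.L).filter fun l => ¬ C.good (C.pt q) i τ l).card = C.L := by
      rw [Finset.card_filter_add_card_filter_not, Finset.card_range]
    have hL := C.hL
    rw [← hG] at hsum
    omega
  refine ⟨l, hl, hg, ?_⟩
  have hε := C.ε_pos
  have hnear := C.alt_near h hi hl hg
  have hwl := (C.widx_spec h hi τ hl).1
  have hsub : C.altV (C.pt q) i τ l ⊆ C.M := C.subU _ _ hwl hg
  have hcard : (C.altV (C.pt q) i τ l).card = C.lv (C.sd (C.pt q) i) := C.cardU _ _ hwl hg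
  obtain ⟨ha, hb⟩ := C.alo_ahi (C.pt q) i τ hl
  have key := hnear.extend (M' := M') (B' := B') hsub hM (hY i hi) (sideOf_pos (C.fst_ne h hi))
    (by
      rcases Bool.eq_false_or_eq_true τ with ht | ht
      · left
        intro v hv
        have := (hnear.slope v hv).1
        have := (ha ht).1
        linarith
      · right
        intro v hv
        have := (hnear.slope v hv).2
        have := (hb ht).2
        linarith)
    (by
      intro _ hzi
      have hi0 : i ≠ 0 := by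
        rintro rfl
        exact hzi C.y_zero.symm
      have h0 : 0 < C.N := by have := C.hN; omega
      have := C.h35_notin h hi h0 hi0 hl hg
      rw [C.y_zero] at this
      exact this)
    (by
      intro p hp hpn hpx hpy hmem
      rw [Finset.mem_union, not_or] at hpn
      rcases Finset.mem_union.1 hp with hp | hp
      · rcases hMY p hp with h1 | ⟨j, hj, rfl⟩ | h1
        · exact hpn.1 h1
        · have hij : i ≠ j := by
            rintro rfl
            exact hpy rfl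
          exact C.h35_notin h hi hj hij hl hg hmem
        · exact hpx h1
      · exact hfree p (Finset.mem_sdiff.2 ⟨hp, hpn.2⟩) hmem)
  rw [hcard] at key
  exact key

/-- A point of the cluster is not in the hull of a watched flag. -/
theorem h35_notinW {q : ℝ × ℝ} (h : OKX C.N C.V0 C.t q) {a : Bool × Finset Pt × ℝ × ℝ}
    (ha : a ∈ C.WL) {j : ℕ} (hj : j < C.N) :
    C.y j ∉ convexHull ℝ (insert (C.pt q) (a.2.1 : Set Pt)) := by
  intro hmem
  obtain ⟨hb1, hb2⟩ := C.okx_box h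
  have hnear := C.nearW a ha q.1 q.2 q.1 q.2 hb1 hb2 hb1 hb2
  have hc := cone_open (x := C.pt q) (A := a.2.1) (s := a.1) (lo := a.2.2.1) (hi := a.2.2.2)
    (fun v hv => ⟨hnear.side v hv, hnear.slope v hv⟩) hmem (C.h35_ne h hj)
  have hcell := C.h35_cell h hj (s := sl (C.pt q) (C.y j)) (by
    rw [sub_self, abs_zero]; exact C.ε_pos.le)
  have h1 := hc.2.1
  have h2 := hc.2.2
  rcases C.outW a ha with h3 | h3
  · exact absurd hcell.1 (not_lt.2 (h2.le.trans h3))
  · exact absurd hcell.2 (not_lt.2 (h3.trans h1.le))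

/-- Watched flags persist unless hit by a new point of Breaker. -/
theorem watch {q : ℝ × ℝ} (h : OKX C.N C.V0 C.t q) {M' B' : Finset Pt} (hok : Ok M' B')
    (hM : C.M ⊆ M') (hMY : ∀ p ∈ M', p ∈ C.M ∨ (∃ i < C.N, p = C.y i) ∨ p = C.pt q)
    (hY : ∀ i < C.N, C.y i ∈ M') (hx : C.pt q ∈ M') (hB : C.B ⊆ B')
    {a : Bool × Finset Pt × ℝ × ℝ} (ha : a ∈ C.WL) :
    (∀ v ∈ a.2.1, 0 < sg a.1 * (v.1 - (C.pt q).1)) ∧
      (∀ v ∈ a.2.1, sl (C.pt q) v ∈ Ioo a.2.2.1 a.2.2.2) ∧
      (Flag M' B' (C.pt q) a.1 a.2.1 ∨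
        ∃ b ∈ B' \ C.B, b ∈ convexHull ℝ (insert (C.pt q) (a.2.1 : Set Pt))) := by
  obtain ⟨hb1, hb2⟩ := C.okx_box h
  have hnear := C.nearW a ha q.1 q.2 q.1 q.2 hb1 hb2 hb1 hb2
  refine ⟨hnear.side, hnear.slope, ?_⟩
  by_cases hcase : ∃ b ∈ B' \ C.B, b ∈ convexHull ℝ (insert (C.pt q) (a.2.1 : Set Pt))
  · exact Or.inr hcase
  · left
    push Not at hcase
    refine Near.persist (x := C.pt q) hnear (C.subW a ha) hM ?_ ?_
    · intro _
      have h0 : 0 < C.N := by have := C.hN; omega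
      have := C.h35_notinW h ha h0
      rw [C.y_zero] at this
      exact this
    · intro p hp hpn hpx
      rw [Finset.mem_union, not_or] at hpn
      rcases Finset.mem_union.1 hp with hp | hp
      · rcases hMY p hp with h1 | ⟨j, hj, rfl⟩ | h1
        · exact absurd h1 hpn.1
        · exact C.h35_notinW h ha hj
        · exact absurd h1 hpx
      · exact hcase p (Finset.mem_sdiff.2 ⟨hp, hpn.2⟩)

/-- Slopes of the vertices of a new flag. -/
theorem h35_slopes {q : ℝ × ℝ} (h : OKX C.N C.V0 C.t q) {i : ℕ} (hi : i < C.N) {τ : Bool} {l : ℕ}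
    (hl : l < C.L) (hg : C.good (C.pt q) i τ l) {u : Pt}
    (hu : u ∈ insert (C.y i) (C.altV (C.pt q) i τ l)) :
    (τ = true → (u = C.y i ∨ sl (C.pt q) (C.y i) < sl (C.pt q) u) ∧
      sl (C.pt q) (C.y i) ≤ sl (C.pt q) u ∧
      sl (C.pt q) u ≤ sl (C.pt q) (C.y i) + 3 * C.ε / 10) ∧
    (τ = false → (u = C.y i ∨ sl (C.pt q) u < sl (C.pt q) (C.y i)) ∧
      sl (C.pt q) u ≤ sl (C.pt q) (C.y i) ∧
      sl (C.pt q) (C.y i) - 3 * C.ε / 10 ≤ sl (C.pt q) u) := by
  have hε := C.ε_pos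
  have hnear := C.alt_near h hi hl hg
  obtain ⟨ha, hb⟩ := C.alo_ahi (C.pt q) i τ hl
  rw [Finset.mem_insert] at hu
  rcases hu with rfl | hu
  · refine ⟨fun _ => ⟨Or.inl rfl, le_rfl, by linarith⟩, fun _ => ⟨Or.inl rfl, le_rfl, by linarith⟩⟩
  · have hs := hnear.slope u hu
    refine ⟨fun ht => ?_, fun ht => ?_⟩
    · have h1 := ha ht
      have h2 := hs.1
      have h3 := hs.2
      exact ⟨Or.inr (by linarith), by linarith, by linarith⟩
    · have h1 := hb ht
      have h2 := hs.1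
      have h3 := hs.2
      exact ⟨Or.inr (by linarith), by linarith, by linarith⟩

theorem h35_slopes' {q : ℝ × ℝ} (h : OKX C.N C.V0 C.t q) {i : ℕ} (hi : i < C.N) {τ : Bool} {l : ℕ}
    (hl : l < C.L) (hg : C.good (C.pt q) i τ l) {u : Pt}
    (hu : u ∈ insert (C.y i) (C.altV (C.pt q) i τ l)) :
    |sl (C.pt q) u - sl (C.pt q) (C.y i)| ≤ 3 * C.ε / 10 := by
  have hε := C.ε_pos
  obtain ⟨h1, h2⟩ := C.h35_slopes h hi hl hg hu
  rw [abs_le]
  rcases Bool.eq_false_or_eq_true τ with ht | ht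
  · obtain ⟨_, h3, h4⟩ := h1 ht
    constructor <;> linarith
  · obtain ⟨_, h3, h4⟩ := h2 ht
    constructor <;> linarith

/-- New flags of different indices are separated and different. -/
theorem h35_sep {q : ℝ × ℝ} (h : OKX C.N C.V0 C.t q) {i i' : ℕ} (hi : i < C.N) (hi' : i' < C.N)
    {τ τ' : Bool} {l l' : ℕ} (hl : l < C.L) (hl' : l' < C.L) (hg : C.good (C.pt q) i τ l)
    (hg' : C.good (C.pt q) i' τ' l') (hne : (i, τ) ≠ (i', τ')) :
    (Sep (C.pt q) (insert (C.y i) (C.altV (C.pt q) i τ l))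
      (insert (C.y i') (C.altV (C.pt q) i' τ' l')) ∨
    Sep (C.pt q) (insert (C.y i') (C.altV (C.pt q) i' τ' l'))
      (insert (C.y i) (C.altV (C.pt q) i τ l))) ∧
    insert (C.y i) (C.altV (C.pt q) i τ l) ≠ insert (C.y i') (C.altV (C.pt q) i' τ' l') := by
  have hε := C.ε_pos
  by_cases hii : i = i'
  · subst hii
    have hττ : τ ≠ τ' := fun h => hne (by rw [h])
    -- same cluster point, opposite directions
    have main : ∀ {l l' : ℕ}, l < C.L → l' < C.L → C.good (C.pt q) i false l →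
        C.good (C.pt q) i true l' →
        Sep (C.pt q) (insert (C.y i) (C.altV (C.pt q) i false l))
          (insert (C.y i) (C.altV (C.pt q) i true l')) ∧
        insert (C.y i) (C.altV (C.pt q) i false l) ≠
          insert (C.y i) (C.altV (C.pt q) i true l') := by
      intro l l' hl hl' hg hg'
      constructor
      · intro u hu u' hu'
        obtain ⟨a1, a2, _⟩ := (C.h35_slopes h hi hl hg hu).2 rfl
        obtain ⟨b1, b2, _⟩ := (C.h35_slopes h hi hl' hg' hu').1 rfl
        rcases a1 with rfl | a1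
        · rcases b1 with rfl | b1
          · exact Or.inl rfl
          · exact Or.inr b1
        · exact Or.inr (a1.trans_le b2)
      · intro heq
        have hwl := (C.widx_spec h hi true hl').1
        have hcard : (C.altV (C.pt q) i true l').card = C.lv (C.sd (C.pt q) i) :=
          C.cardU _ _ hwl hg'
        have hpos : 0 < (C.altV (C.pt q) i true l').card := by
          rw [hcard]; exact C.hlv _
        obtain ⟨v, hv⟩ := Finset.card_pos.1 hpos
        have hs := (C.alt_near h hi hl' hg').slope v hv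
        have h1 := ((C.alo_ahi (C.pt q) i true hl').1 rfl).1
        have h2 := hs.1
        have hv' : v ∈ insert (C.y i) (C.altV (C.pt q) i false l) := by
          rw [heq]; exact Finset.mem_insert_of_mem hv
        obtain ⟨_, a2, _⟩ := (C.h35_slopes h hi hl hg hv').2 rfl
        linarith
    cases τ <;> cases τ'
    · exact absurd rfl hττ
    · exact ⟨Or.inl (main hl hl' hg hg').1, (main hl hl' hg hg').2⟩
    · exact ⟨Or.inr (main hl' hl hg' hg).1, (main hl' hl hg' hg).2.symm⟩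
    · exact absurd rfl hττ
  · have hsep := C.slope_sep h hi hi' hii
    have hlt : ∀ u ∈ insert (C.y i) (C.altV (C.pt q) i τ l),
        ∀ u' ∈ insert (C.y i') (C.altV (C.pt q) i' τ' l'),
        (sl (C.pt q) (C.y i) < sl (C.pt q) (C.y i') → sl (C.pt q) u < sl (C.pt q) u') ∧
        (sl (C.pt q) (C.y i') < sl (C.pt q) (C.y i) → sl (C.pt q) u' < sl (C.pt q) u) := by
      intro u hu u' hu'
      have h1 := abs_le.1 (C.h35_slopes' h hi hl hg hu)
      have h2 := abs_le.1 (C.h35_slopes' h hi' hl' hg' hu')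
      constructor
      · intro h3
        rcases lt_abs.1 hsep with h4 | h4 <;> linarith [h1.1, h1.2, h2.1, h2.2]
      · intro h3
        rcases lt_abs.1 hsep with h4 | h4 <;> linarith [h1.1, h1.2, h2.1, h2.2]
    constructor
    · rcases lt_abs.1 hsep with h4 | h4
      · right
        intro u' hu' u hu
        exact Or.inr ((hlt u hu u' hu').2 (by linarith))
      · left
        intro u hu u' hu'
        exact Or.inr ((hlt u hu u' hu').1 (by linarith))
    · intro heq
      have hy : C.y i ∈ insert (C.y i') (C.altV (C.pt q) i' τ' l') := by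
        rw [← heq]; exact Finset.mem_insert_self _ _
      have h1 := hlt (C.y i) (Finset.mem_insert_self _ _) (C.y i) hy
      rcases lt_abs.1 hsep with h4 | h4
      · exact lt_irrefl _ (h1.2 (by linarith))
      · exact lt_irrefl _ (h1.1 (by linarith))

open Classical in
/-- **End of the node.** If at most `2 N - 1` indices are hit by the new points of Breaker, the
target of the node lemma is reached. -/
theorem target {Γ : Finset (Bool × Finset Pt)} (hΓ : C.GOk Γ) {q : ℝ × ℝ}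
    (h : OKX C.N C.V0 C.t q) {M' B' : Finset Pt} (hok : Ok M' B')
    (hM : C.M ⊆ M') (hMY : ∀ p ∈ M', p ∈ C.M ∨ (∃ i < C.N, p = C.y i) ∨ p = C.pt q)
    (hY : ∀ i < C.N, C.y i ∈ M') (hx : C.pt q ∈ M') (hB : C.B ⊆ B')
    (hQ : (B' \ C.B).card ≤ 2 * C.N)
    (hcount : ((C.idx Γ).filter fun a => ∃ b ∈ B' \ C.B, C.hit (C.pt q) b a).card + 1 ≤ 2 * C.N) :
    NodeTarget C.lv C.c (C.c + C.nw * C.w) C.z C.B C.WL Γ M' B' := by
  -- the flags of the indices that are not hit
  have hch : ∀ a : ℕ × Bool, ∃ l : ℕ, a.1 < C.N →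
      (∀ b ∈ B' \ C.B, ¬ C.hit (C.pt q) b (Sum.inr a)) →
      l < C.L ∧ C.good (C.pt q) a.1 a.2 l ∧
        Flag M' B' (C.pt q) (C.sd (C.pt q) a.1) (insert (C.y a.1) (C.altV (C.pt q) a.1 a.2 l)) ∧
        (insert (C.y a.1) (C.altV (C.pt q) a.1 a.2 l)).card = C.lv (C.sd (C.pt q) a.1) + 1 := by
    intro a
    by_cases ha : a.1 < C.N ∧ (∀ b ∈ B' \ C.B, ¬ C.hit (C.pt q) b (Sum.inr a))
    · obtain ⟨l, h1, h2, h3, h4⟩ := C.unhit_flag h hok hM hMY hY hx hB hQ (i := a.1) (τ := a.2)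
        ha.1 ha.2
      exact ⟨l, fun _ _ => ⟨h1, h2, by convert h3, by convert h4⟩⟩
    · exact ⟨0, fun h1 h2 => absurd ⟨h1, h2⟩ ha⟩
  choose f hf using hch
  set U2 : Finset (ℕ × Bool) := ((Finset.range C.N) ×ˢ (Finset.univ : Finset Bool)).filter
    fun a => ¬ ∃ b ∈ B' \ C.B, C.hit (C.pt q) b (Sum.inr a) with hU2
  set Γ' : Finset (Bool × Finset Pt) := Γ.filter
    fun γ => ¬ ∃ b ∈ B' \ C.B, C.hit (C.pt q) b (Sum.inl γ) with hΓ'
  have hmem : ∀ a ∈ U2, a.1 < C.N ∧ ∀ b ∈ B' \ C.B, ¬ C.hit (C.pt q) b (Sum.inr a) := by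
    intro a ha
    rw [hU2, Finset.mem_filter, Finset.mem_product, Finset.mem_range] at ha
    exact ⟨ha.1.1, fun b hb hh => ha.2 ⟨b, hb, hh⟩⟩
  have hf' : ∀ a ∈ U2, f a < C.L ∧ C.good (C.pt q) a.1 a.2 (f a) ∧
        Flag M' B' (C.pt q) (C.sd (C.pt q) a.1)
          (insert (C.y a.1) (C.altV (C.pt q) a.1 a.2 (f a))) ∧
        (insert (C.y a.1) (C.altV (C.pt q) a.1 a.2 (f a))).card =
          C.lv (C.sd (C.pt q) a.1) + 1 := fun a ha => hf a (hmem a ha).1 (hmem a ha).2
  let g : ℕ × Bool → Bool × Finset Pt := fun a =>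
    (C.sd (C.pt q) a.1, insert (C.y a.1) (C.altV (C.pt q) a.1 a.2 (f a)))
  have hsepg : ∀ a ∈ U2, ∀ a' ∈ U2, a ≠ a' → Sepd (C.pt q) (g a) (g a') ∧ g a ≠ g a' := by
    intro a ha a' ha' hne
    obtain ⟨h1, h2⟩ := C.h35_sep h (hmem a ha).1 (hmem a' ha').1 (hf' a ha).1 (hf' a' ha').1
      (hf' a ha).2.1 (hf' a' ha').2.1 (τ := a.2) (τ' := a'.2) (by simpa using hne)
    refine ⟨Or.inr ?_, fun he => h2 ?_⟩
    · convert h1
    · have := congrArg Prod.snd he
      convert this
  refine ⟨C.pt q, hx, fun a ha => C.watch h hok hM hMY hY hx hB ha, ?_, U2.image g, ?_, ?_, Γ',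
    Finset.filter_subset _ _, ?_, ?_⟩
  · intro a ha a' ha' hs
    obtain ⟨hb1, hb2⟩ := C.okx_box h
    exact C.sepW a ha a' ha' hs q.1 q.2 hb1 hb2
  · intro ν hν
    obtain ⟨a, ha, rfl⟩ := Finset.mem_image.1 hν
    obtain ⟨h1, h2, h3, h4⟩ := hf' a ha
    refine ⟨h3, h4, ?_⟩
    intro u hu
    refine C.h35_cell h (hmem a ha).1 ?_
    have h5 := C.h35_slopes' h (hmem a ha).1 h1 h2 (u := u) (by convert hu)
    have hε := C.ε_pos
    linarith
  · intro ν hν ν' hν' hne
    obtain ⟨a, ha, rfl⟩ := Finset.mem_image.1 hν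
    obtain ⟨a', ha', rfl⟩ := Finset.mem_image.1 hν'
    exact (hsepg a ha a' ha' (fun he => hne (by rw [he]))).1
  · intro γ hγ
    rw [hΓ', Finset.mem_filter] at hγ
    obtain ⟨lo, hi, hW⟩ := hΓ.1 γ hγ.1
    rcases (C.watch h hok hM hMY hY hx hB hW).2.2 with h1 | h1
    · exact h1
    · exact absurd h1 hγ.2
  · rw [Finset.card_image_of_injOn]
    swap
    · intro a ha a' ha' he
      by_contra hne
      exact (hsepg a ha a' ha' hne).2 he
    have hidx := C.card_idx Γ
    have hsum := Finset.card_filter_add_card_filter_not (s := C.idx Γ)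
      (fun a => ∃ b ∈ B' \ C.B, C.hit (C.pt q) b a)
    have hdec : (C.idx Γ).filter (fun a => ¬ ∃ b ∈ B' \ C.B, C.hit (C.pt q) b a) =
        Γ'.disjSum U2 := by
      ext a
      rw [Finset.mem_filter, idx]
      cases a with
      | inl γ =>
        rw [Finset.inl_mem_disjSum, Finset.inl_mem_disjSum, hΓ', Finset.mem_filter]
      | inr a =>
        rw [Finset.inr_mem_disjSum, Finset.inr_mem_disjSum, hU2, Finset.mem_filter]
    rw [hdec, Finset.card_disjSum] at hsum
    omega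

end Ctx

end Pool.Agent.KHG77
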