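import Pool.Agent.KHG77.Node2
import Pool.Agent.KHG77.Node3

/-!
# KHG77.Node: the node lemma
-/

namespace Pool.Agent.KHG77

open Set Filter Topology

/-- Placing the cluster: `n` points on prescribed arcs of the parabola. -/
theorem place_cluster {M B : Finset Pt} (hok : Ok M B) {z : Pt} {r σ ε : ℝ} (hr : 0 < r)
    (hε : 0 < ε) (n : ℕ) :
    Force (fun M' B' => ∃ t : ℕ → ℝ,
      (∀ i, 1 ≤ i → i ≤ n → t i ∈ Ioo ((i : ℝ) - 1 / 100) (i + 1 / 100)) ∧ t 0 = 0 ∧
      (∀ i, 1 ≤ i → i ≤ n → phi z r σ ε (t i) (t i ^ 2) ∈ M') ∧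
      (∀ p ∈ M', p ∈ M ∨ ∃ i, 1 ≤ i ∧ i ≤ n ∧ p = phi z r σ ε (t i) (t i ^ 2))) n M B := by
  induction n with
  | zero =>
    refine Force.of_target ⟨fun _ => 0, ?_, rfl, ?_, fun p hp => Or.inl hp⟩
    · intro i h1 h2
      omega
    · intro i h1 h2
      omega
  | succ n ih =>
    refine Force.trans (ih.track hok) ?_
    rintro M1 B1 ⟨⟨t, ht, ht0, htM, hMt⟩, hok1, hM1, hB1, _, _⟩
    obtain ⟨τ, hτ, hleg⟩ := exists_legal_curve (S := M1 ∪ B1) hok1.2 (z := z) (r := r) (σ := σ)
      (ε := ε) hr hε (a := ((n + 1 : ℕ) : ℝ) - 1 / 100) (b := ((n + 1 : ℕ) : ℝ) + 1 / 100)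
      (by linarith)
    refine Force.round hleg (fun b b' _ => Force.of_target ?_)
    refine ⟨Function.update t (n + 1) τ, ?_, ?_, ?_, ?_⟩
    · intro i h1 h2
      rcases eq_or_ne i (n + 1) with rfl | hne
      · rw [Function.update_self]
        exact hτ
      · rw [Function.update_of_ne hne]
        exact ht i h1 (by omega)
    · rw [Function.update_of_ne (by omega)]
      exact ht0
    · intro i h1 h2
      rcases eq_or_ne i (n + 1) with rfl | hne
      · rw [Function.update_self]
        exact Finset.mem_insert_self _ _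
      · rw [Function.update_of_ne hne]
        exact Finset.mem_insert_of_mem (htM i h1 (by omega))
    · intro p hp
      rcases Finset.mem_insert.1 hp with rfl | hp
      · right
        refine ⟨n + 1, by omega, le_rfl, ?_⟩
        rw [Function.update_self]
      · rcases hMt p hp with h | ⟨i, h1, h2, rfl⟩
        · exact Or.inl h
        · right
          refine ⟨i, h1, by omega, ?_⟩
          rw [Function.update_of_ne (by omega)]

/-- **Node lemma.** -/
theorem node (g d : ℕ) : ∃ n0 : ℕ, ∀ nw ≥ n0, NodeProp g d nw := by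
  classical
  obtain ⟨N, hN⟩ : ∃ N : ℕ, N = g + 2 := ⟨_, rfl⟩
  obtain ⟨L, hL⟩ : ∃ L : ℕ, L = 2 * N + 1 + d := ⟨_, rfl⟩
  obtain ⟨V0, hV0⟩ : ∃ V0 : ℝ, V0 = 3 * N * L * (N + 2) + 2 := ⟨_, rfl⟩
  obtain ⟨K, hK⟩ : ∃ K : ℝ, K = V0 + (V0 + 1) ^ 2 + N + 6 := ⟨_, rfl⟩
  have hV0pos : 0 < V0 := by
    rw [hV0]
    positivity
  have hKpos : 0 < K := by
    rw [hK]
    positivity
  have hLpos : (0 : ℝ) < L := by
    have : 0 < L := by omega
    exact_mod_cast this
  refine ⟨⌈200 * K * L⌉₊, ?_⟩
  intro nw hnw0 c w hw lv hlv M B z hok hz U Bad hBad hU WL hWL Γ hΓ hΓWL hΓsep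
  have hnw : 200 * K * L ≤ (nw : ℝ) := by
    refine le_trans (Nat.le_ceil _) ?_
    exact_mod_cast hnw0
  have hnwpos : (0 : ℝ) < nw := lt_of_lt_of_le (by positivity) hnw
  obtain ⟨σ, hσ⟩ : ∃ σ : ℝ, σ = c + nw * w / 2 := ⟨_, rfl⟩
  obtain ⟨ε, hε⟩ : ∃ ε : ℝ, ε = nw * w / (2 * K) := ⟨_, rfl⟩
  have hεpos : 0 < ε := by
    rw [hε]
    positivity
  -- the size of the chart
  have hP : ∀ᶠ q : Pt × Pt in 𝓝 (z, z),
      (∀ s, ∀ m ∈ Finset.range nw, m ∉ Bad s →
        Near M B z s (U s m) (c + m * w) (c + (m + 1) * w) q.1 q.2) ∧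
      (∀ a ∈ WL, Near M B z a.1 a.2.1 a.2.2.1 a.2.2.2 q.1 q.2) ∧
      (∀ a ∈ WL, ∀ a' ∈ WL, Sepd z (a.1, a.2.1) (a'.1, a'.2.1) →
        Sepd q.1 (a.1, a.2.1) (a'.1, a'.2.1)) := by
    refine Filter.Eventually.and ?_ (Filter.Eventually.and ?_ ?_)
    · rw [Filter.eventually_all]
      intro s
      rw [Filter.eventually_all_finset]
      intro m hm
      by_cases hb : m ∈ Bad s
      · exact Filter.Eventually.of_forall fun q h => absurd hb h
      · have h := hU s m (Finset.mem_range.1 hm) hb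
        filter_upwards [flag_near h.1 h.2.2] with q hq _
        exact hq
    · rw [Filter.eventually_all_finset]
      intro a ha
      have h := hWL a ha
      exact flag_near h.1 h.2.1
    · rw [Filter.eventually_all_finset]
      intro a ha
      rw [Filter.eventually_all_finset]
      intro a' ha'
      by_cases hs : Sepd z (a.1, a.2.1) (a'.1, a'.2.1)
      · have h1 := sepd_near (γ := (a.1, a.2.1)) (γ' := (a'.1, a'.2.1)) (hWL a ha).1.side
          (hWL a' ha').1.side hs
        have hfst : Tendsto (fun q : Pt × Pt => q.1) (𝓝 (z, z)) (𝓝 z) :=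
          continuous_fst.tendsto (z, z)
        filter_upwards [hfst.eventually h1] with q hq _
        exact hq
      · exact Filter.Eventually.of_forall fun q h => absurd h hs
  obtain ⟨r, hr, hnear⟩ := phi_near (z := z) (σ := σ) (ε := ε) (R := K) hP
  -- the game
  refine Force.trans (n := g + 1) (m := 1) ((place_cluster hok (z := z) (σ := σ) hr hεpos
    (g + 1)).track hok) ?_
  rintro M1 B1 ⟨⟨t, ht, ht0, htM, hMt⟩, hok1, hM1, hB1, hcB, _⟩
  let C : Ctx :=
    { M := M, B := B, z := z, c := c, w := w, nw := nw, lv := lv, U := U, Bad := Bad, WL := WL,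
      N := N, L := L, d := d, V0 := V0, K := K, r := r, σ := σ, ε := ε, t := t, hw := hw, hz := hz,
      hok := hok, hlv := hlv, hBad := hBad, hN := by omega, hL := hL, hV0 := hV0, hK := hK,
      hnw := hnw, hσ := hσ, hε := hε, hr := hr, ht0 := ht0
      ht := fun i h1 h2 => ht i h1 (by omega)
      subU := fun s m h1 h2 => (hU s m h1 h2).1.sub
      cardU := fun s m h1 h2 => (hU s m h1 h2).2.1
      nearU := fun s m h1 h2 X H X' H' hX hH hX' hH' =>
        (hnear X H X' H' hX hH hX' hH').1 s m (Finset.mem_range.2 h1) h2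
      subW := fun a ha => (hWL a ha).1.sub
      outW := fun a ha => (hWL a ha).2.2
      nearW := fun a ha X H X' H' hX hH hX' hH' => (hnear X H X' H' hX hH hX' hH').2.1 a ha
      sepW := fun a ha a' ha' hs X H hX hH => (hnear X H X H hX hH hX hH).2.2 a ha a' ha' hs }
  have hGOk : C.GOk Γ := ⟨hΓWL, hΓsep⟩
  have hY : ∀ i < C.N, C.y i ∈ M1 := by
    intro i hi
    have hi' : i < g + 2 := by
      have : i < N := hi
      omega
    rcases Nat.eq_zero_or_pos i with rfl | hpos
    · rw [C.y_zero]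
      exact hM1 hz
    · exact htM i hpos (by omega)
  have hMY : ∀ p ∈ M1, p ∈ C.M ∨ ∃ i < C.N, p = C.y i := by
    intro p hp
    rcases hMt p hp with h | ⟨i, h1, h2, rfl⟩
    · exact Or.inl h
    · right
      refine ⟨i, ?_, rfl⟩
      show i < N
      omega
  have hN' : C.N = g + 2 := hN
  obtain ⟨q, hq, hleg, hcnt⟩ := C.choose hGOk (by rw [hN']; omega) hok1 hM1 hB1 hY
    (by
      have h5 : (B1 \ C.B).card ≤ 2 * (g + 1) := hcB
      rw [hN']
      omega)
  refine Force.round hleg (fun b b' hrep => Force.of_target ?_)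
  have hok2 : Ok (insert (C.pt q) M1) (insert b' (insert b B1)) := hok1.insert_round hleg hrep
  have hM2 : C.M ⊆ insert (C.pt q) M1 := hM1.trans (Finset.subset_insert _ _)
  have hB2 : C.B ⊆ insert b' (insert b B1) :=
    hB1.trans ((Finset.subset_insert _ _).trans (Finset.subset_insert _ _))
  have hY2 : ∀ i < C.N, C.y i ∈ insert (C.pt q) M1 :=
    fun i hi => Finset.mem_insert_of_mem (hY i hi)
  have hx2 : C.pt q ∈ insert (C.pt q) M1 := Finset.mem_insert_self _ _
  -- a new point hits at most one index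
  have huniq : ∀ e ∈ insert b' (insert b B1),
      ((C.idx Γ).filter fun a => C.hit (C.pt q) e a).card ≤ 1 := by
    intro e he
    rw [Finset.card_le_one]
    intro a ha a' ha'
    rw [Finset.mem_filter] at ha ha'
    have hnot : e ∉ insert (C.pt q) M1 := fun h =>
      (Finset.disjoint_left.1 hok2.1 h) he
    refine C.hit_uniq hGOk hq (S := insert (C.pt q) M1 ∪ insert b' (insert b B1)) hok2.2
      (hM2.trans Finset.subset_union_left)
      (fun i hi => Finset.mem_union_left _ (hY2 i hi)) (Finset.mem_union_left _ hx2)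
      (Finset.mem_union_right _ he) (fun h => hnot (hM2 h)) ?_ ?_ ha.1 ha'.1 ha.2 ha'.2
    · rintro i hi rfl
      exact hnot (hY2 i hi)
    · rintro rfl
      exact hnot hx2
  refine C.target hGOk hq hok2 hM2 ?_ hY2 hx2 hB2 ?_ ?_
  · intro p hp
    rcases Finset.mem_insert.1 hp with rfl | hp
    · exact Or.inr (Or.inr rfl)
    · rcases hMY p hp with h | h
      · exact Or.inl h
      · exact Or.inr (Or.inl h)
  · have h1 : insert b' (insert b B1) \ C.B ⊆ insert b' (insert b (B1 \ C.B)) := by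
      intro e he
      rw [Finset.mem_sdiff, Finset.mem_insert, Finset.mem_insert] at he
      rw [Finset.mem_insert, Finset.mem_insert, Finset.mem_sdiff]
      rcases he with ⟨h | h | h, h'⟩
      · exact Or.inl h
      · exact Or.inr (Or.inl h)
      · exact Or.inr (Or.inr ⟨h, h'⟩)
    have h2 := Finset.card_le_card h1
    have h3 := Finset.card_insert_le b' (insert b (B1 \ C.B))
    have h4 := Finset.card_insert_le b (B1 \ C.B)
    have h5 : (B1 \ C.B).card ≤ 2 * (g + 1) := hcB
    rw [hN']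
    omega
  · have h1 : ((C.idx Γ).filter fun a => ∃ e ∈ insert b' (insert b B1) \ C.B,
        C.hit (C.pt q) e a) ⊆
        ((C.idx Γ).filter fun a => ∃ e ∈ B1 \ C.B, C.hit (C.pt q) e a) ∪
          (((C.idx Γ).filter fun a => C.hit (C.pt q) b a) ∪
            ((C.idx Γ).filter fun a => C.hit (C.pt q) b' a)) := by
      intro a ha
      rw [Finset.mem_filter] at ha
      obtain ⟨haΓ, e, he, hhit⟩ := ha
      rw [Finset.mem_sdiff, Finset.mem_insert, Finset.mem_insert] at he
      rw [Finset.mem_union, Finset.mem_union, Finset.mem_filter, Finset.mem_filter,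
        Finset.mem_filter]
      obtain ⟨h | h | h, h'⟩ := he
      · subst h
        exact Or.inr (Or.inr ⟨haΓ, hhit⟩)
      · subst h
        exact Or.inr (Or.inl ⟨haΓ, hhit⟩)
      · exact Or.inl ⟨haΓ, e, Finset.mem_sdiff.2 ⟨h, h'⟩, hhit⟩
    have h2 := Finset.card_le_card h1
    have h3 := Finset.card_union_le ((C.idx Γ).filter fun a => ∃ e ∈ B1 \ C.B,
      C.hit (C.pt q) e a) (((C.idx Γ).filter fun a => C.hit (C.pt q) b a) ∪
            ((C.idx Γ).filter fun a => C.hit (C.pt q) b' a))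
    have h4 := Finset.card_union_le ((C.idx Γ).filter fun a => C.hit (C.pt q) b a)
      ((C.idx Γ).filter fun a => C.hit (C.pt q) b' a)
    have h5 := huniq b (Finset.mem_insert_of_mem (Finset.mem_insert_self _ _))
    have h6 := huniq b' (Finset.mem_insert_self _ _)
    rw [hN'] at hcnt ⊢
    omega

end Pool.Agent.KHG77
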