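import Pool.Agent.KHG77.NodeDef

/-!
# KHG77.Node1: the context of a node, alternatives, hits

The cell is `(c, c + nw w) = (σ - ε K, σ + ε K)`. The cluster is `y i = phi z r σ ε (t i) (t i ^ 2)`,
`i < N`, `y 0 = z`. A candidate final point is `x = pt q`, `OKX N V0 t q`. From `x` the points `y i`
have slopes `σ + ε s_i` with `|s_i - (q.1 + t i)| < 1/10`.

For `i < N`, a direction `τ` (`true` = above) and `l < L` the interval `(alo, ahi)` has length
`ε / (10 L)` and lies between `S + ε/10` and `S + 3 ε/10` (`τ = true`), resp. between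
`S - 3 ε / 10` and `S - ε / 10` (`τ = false`), where `S = sl x (y i)`; it contains the window
`widx`; if this window is good on the side of `y i`, its base flag `altV` is an alternative.
-/

namespace Pool.Agent.KHG77

open Set Filter Topology

structure Ctx where
  M : Finset Pt
  B : Finset Pt
  z : Pt
  c : ℝ
  w : ℝ
  nw : ℕ
  lv : Bool → ℕ
  U : Bool → ℕ → Finset Pt
  Bad : Bool → Finset ℕ
  WL : Finset (Bool × Finset Pt × ℝ × ℝ)
  N : ℕ
  L : ℕ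
  d : ℕ
  V0 : ℝ
  K : ℝ
  r : ℝ
  σ : ℝ
  ε : ℝ
  t : ℕ → ℝ
  hw : 0 < w
  hz : z ∈ M
  hok : Ok M B
  hlv : ∀ s, 1 ≤ lv s
  hBad : ∀ s, (Bad s).card ≤ d
  hN : 2 ≤ N
  hL : L = 2 * N + 1 + d
  hV0 : V0 = 3 * N * L * (N + 2) + 2
  hK : K = V0 + (V0 + 1) ^ 2 + N + 6
  hnw : 200 * K * L ≤ nw
  hσ : σ = c + nw * w / 2
  hε : ε = nw * w / (2 * K)
  hr : 0 < r
  ht0 : t 0 = 0
  ht : ∀ i, 1 ≤ i → i < N → t i ∈ Ioo ((i : ℝ) - 1 / 100) (i + 1 / 100)
  subU : ∀ s m, m < nw → m ∉ Bad s → U s m ⊆ M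
  cardU : ∀ s m, m < nw → m ∉ Bad s → (U s m).card = lv s
  nearU : ∀ s m, m < nw → m ∉ Bad s → ∀ X H X' H' : ℝ, |X| ≤ K → |H| ≤ K → |X'| ≤ K → |H'| ≤ K →
    Near M B z s (U s m) (c + m * w) (c + (m + 1) * w) (phi z r σ ε X H) (phi z r σ ε X' H')
  subW : ∀ a ∈ WL, a.2.1 ⊆ M
  outW : ∀ a ∈ WL, a.2.2.2 ≤ c ∨ c + nw * w ≤ a.2.2.1
  nearW : ∀ a ∈ WL, ∀ X H X' H' : ℝ, |X| ≤ K → |H| ≤ K → |X'| ≤ K → |H'| ≤ K →
    Near M B z a.1 a.2.1 a.2.2.1 a.2.2.2 (phi z r σ ε X H) (phi z r σ ε X' H')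
  sepW : ∀ a ∈ WL, ∀ a' ∈ WL, Sepd z (a.1, a.2.1) (a'.1, a'.2.1) → ∀ X H : ℝ, |X| ≤ K → |H| ≤ K →
    Sepd (phi z r σ ε X H) (a.1, a.2.1) (a'.1, a'.2.1)

namespace Ctx

variable (C : Ctx)

/-- A point in chart coordinates. -/
def pt (q : ℝ × ℝ) : Pt := phi C.z C.r C.σ C.ε q.1 q.2

/-- The cluster. -/
def y (i : ℕ) : Pt := C.pt (C.t i, C.t i ^ 2)

noncomputable def alo (x : Pt) (i : ℕ) (τ : Bool) (l : ℕ) : ℝ :=
  sl x (C.y i) + C.ε * (if τ then 1 / 10 + (l : ℝ) / (5 * C.L)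
    else -(1 / 10 + (l : ℝ) / (5 * C.L) + 1 / (10 * C.L)))

noncomputable def ahi (x : Pt) (i : ℕ) (τ : Bool) (l : ℕ) : ℝ :=
  C.alo x i τ l + C.ε / (10 * C.L)

noncomputable def widx (x : Pt) (i : ℕ) (τ : Bool) (l : ℕ) : ℕ :=
  ⌈(C.alo x i τ l - C.c) / C.w⌉₊

/-- The side of `y i` seen from `x`. -/
noncomputable def sd (x : Pt) (i : ℕ) : Bool := sideOf x (C.y i)

def good (x : Pt) (i : ℕ) (τ : Bool) (l : ℕ) : Prop := C.widx x i τ l ∉ C.Bad (C.sd x i)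

noncomputable def altV (x : Pt) (i : ℕ) (τ : Bool) (l : ℕ) : Finset Pt :=
  C.U (C.sd x i) (C.widx x i τ l)

/-- The hull of the alternative `l` of the index `(i, τ)`. -/
noncomputable def altHull (x : Pt) (i : ℕ) (τ : Bool) (l : ℕ) : Set Pt :=
  convexHull ℝ (insert x (insert (C.y i) (C.altV x i τ l : Set Pt)))

/-- Indices: golden flags, and pairs `(i, τ)`. -/
abbrev Idx : Type := (Bool × Finset Pt) ⊕ (ℕ × Bool)

/-- The point `q` hits an index. -/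
def hit (x q : Pt) : Idx → Prop
  | Sum.inl γ => q ∈ convexHull ℝ (insert x (γ.2 : Set Pt))
  | Sum.inr a => ∃ l < C.L, ∃ l' < C.L, l < l' ∧ C.good x a.1 a.2 l ∧ C.good x a.1 a.2 l' ∧
      q ∈ C.altHull x a.1 a.2 l ∧ q ∈ C.altHull x a.1 a.2 l'

/-- The set of all indices. -/
def idx (Γ : Finset (Bool × Finset Pt)) : Finset Idx :=
  Γ.disjSum ((Finset.range C.N) ×ˢ (Finset.univ : Finset Bool))

/-- `Γ` is an admissible golden family. -/
def GOk (Γ : Finset (Bool × Finset Pt)) : Prop :=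
  (∀ γ ∈ Γ, ∃ lo hi, (γ.1, γ.2, lo, hi) ∈ C.WL) ∧ PairSep C.z Γ

/-! ### Basic facts -/

theorem card_idx (Γ : Finset (Bool × Finset Pt)) : (C.idx Γ).card = Γ.card + 2 * C.N := by
  unfold idx
  rw [Finset.card_disjSum, Finset.card_product, Finset.card_range]
  simp [mul_comm]

theorem h37_L_pos : (0 : ℝ) < C.L := by
  have : 0 < C.L := by rw [C.hL]; omega
  exact_mod_cast this

theorem h37_V0_ge : (C.N : ℝ) ^ 2 + 2 ≤ C.V0 := by
  have hN : (2 : ℝ) ≤ C.N := by exact_mod_cast C.hN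
  have hL1 : (1 : ℝ) ≤ C.L := by
    have : 1 ≤ C.L := by rw [C.hL]; omega
    exact_mod_cast this
  rw [C.hV0]
  have h1 : (C.N : ℝ) ^ 2 ≤ 3 * C.N * 1 * (C.N + 2) := by nlinarith
  have h2 : 3 * (C.N : ℝ) * 1 * (C.N + 2) ≤ 3 * C.N * C.L * (C.N + 2) := by
    have : 0 ≤ (C.N : ℝ) * (C.N + 2) := by positivity
    nlinarith
  linarith

theorem h37_V0_ge' : (2 : ℝ) ≤ C.V0 := by
  have := C.h37_V0_ge
  nlinarith [sq_nonneg (C.N : ℝ)]

theorem K_pos : 0 < C.K := by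
  have h := C.h37_V0_ge'
  rw [C.hK]
  positivity

theorem h37_nw_pos : (0 : ℝ) < C.nw := by
  have h1 := C.K_pos
  have h2 := C.h37_L_pos
  have h3 := C.hnw
  have : 0 < 200 * C.K * C.L := by positivity
  linarith

theorem ε_pos : 0 < C.ε := by
  have h1 := C.K_pos
  have h2 := C.h37_nw_pos
  have h3 := C.hw
  rw [C.hε]
  positivity

theorem h37_εK : C.ε * C.K = C.nw * C.w / 2 := by
  have h1 := C.K_pos
  rw [C.hε]
  field_simp

theorem y_zero : C.y 0 = C.z := by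
  unfold y pt phi
  simp [C.ht0]

theorem h37_t_near {i : ℕ} (hi : i < C.N) : |C.t i - i| < 1 / 100 := by
  rcases Nat.eq_zero_or_pos i with rfl | h
  · simp [C.ht0]
  · have := C.ht i h hi
    rw [abs_lt]
    constructor <;> linarith [this.1, this.2]

theorem h37_t_nonneg {i : ℕ} (hi : i < C.N) : 0 ≤ C.t i := by
  rcases Nat.eq_zero_or_pos i with rfl | h
  · simp [C.ht0]
  · have := C.ht i h hi
    have h1 : (1 : ℝ) ≤ i := by exact_mod_cast h
    linarith [this.1]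

theorem h37_t_le {i : ℕ} (hi : i < C.N) : C.t i ≤ C.N := by
  have h1 := C.h37_t_near hi
  rw [abs_lt] at h1
  have h2 : (i : ℝ) + 1 ≤ C.N := by exact_mod_cast hi
  linarith [h1.2]

theorem h37_V0_le_K : C.V0 + C.N + 6 ≤ C.K := by
  rw [C.hK]
  nlinarith [sq_nonneg (C.V0 + 1)]

/-- The parameters of the cluster are in the box. -/
theorem t_box {i : ℕ} (hi : i < C.N) : |C.t i| ≤ C.K ∧ |C.t i ^ 2| ≤ C.K ∧ 0 ≤ C.t i ∧ C.t i ≤ C.N := by
  have h0 := C.h37_t_nonneg hi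
  have h1 := C.h37_t_le hi
  have h2 := C.h37_V0_le_K
  have h3 := C.h37_V0_ge
  have h4 : (0 : ℝ) ≤ C.N := Nat.cast_nonneg _
  have h5 : C.t i ^ 2 ≤ (C.N : ℝ) ^ 2 := by gcongr
  refine ⟨?_, ?_, h0, h1⟩
  · rw [abs_of_nonneg h0]
    nlinarith [sq_nonneg (C.N : ℝ)]
  · rw [abs_of_nonneg (by positivity)]
    linarith

theorem t_sep {i j : ℕ} (hi : i < C.N) (hj : j < C.N) (h : i ≠ j) : 9 / 10 < |C.t i - C.t j| := by
  have h1 := abs_lt.1 (C.h37_t_near hi)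
  have h2 := abs_lt.1 (C.h37_t_near hj)
  rcases lt_or_gt_of_ne h with h3 | h3
  · have h4 : (i : ℝ) + 1 ≤ j := by exact_mod_cast h3
    rw [abs_sub_comm, lt_abs]
    left
    linarith [h1.1, h1.2, h2.1, h2.2]
  · have h4 : (j : ℝ) + 1 ≤ i := by exact_mod_cast h3
    rw [lt_abs]
    left
    linarith [h1.1, h1.2, h2.1, h2.2]

/-- Admissible points are in the box. -/
theorem okx_box {q : ℝ × ℝ} (h : OKX C.N C.V0 C.t q) : |q.1| ≤ C.K ∧ |q.2| ≤ C.K := by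
  have hV := C.h37_V0_ge'
  have hN : (0 : ℝ) ≤ C.N := Nat.cast_nonneg _
  have hK := C.h37_V0_le_K
  have h1 := h.1
  have h2 := (h.2 0 (by have := C.hN; omega)).2
  rw [C.ht0, sub_zero] at h2
  refine ⟨by linarith, ?_⟩
  have h3 : |q.2| ≤ |q.2 - q.1 ^ 2| + |q.1 ^ 2| := by
    have := abs_add_le (q.2 - q.1 ^ 2) (q.1 ^ 2)
    simpa using this
  have h4 : |q.1 ^ 2| ≤ (C.V0 + 1) ^ 2 := by
    rw [abs_pow]
    have := abs_nonneg q.1
    gcongr
  rw [C.hK]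
  linarith

theorem fst_ne {q : ℝ × ℝ} (h : OKX C.N C.V0 C.t q) {i : ℕ} (hi : i < C.N) :
    (C.y i).1 ≠ (C.pt q).1 := by
  have h1 := (h.2 i hi).1
  have hr := C.hr
  unfold y pt phi
  intro h2
  have h3 : C.r * C.t i = C.r * q.1 := by simpa using h2
  exact h1 (mul_left_cancel₀ hr.ne' h3).symm

theorem h37_sl {q : ℝ × ℝ} (h : OKX C.N C.V0 C.t q) {i : ℕ} (hi : i < C.N) :
    sl (C.pt q) (C.y i) = C.σ + C.ε * ((C.t i ^ 2 - q.2) / (C.t i - q.1)) := by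
  unfold y pt
  exact sl_phi C.hr (h.2 i hi).1.symm

/-- Slope of `y i` from `x`, in normalised form. -/
theorem slope_y {q : ℝ × ℝ} (h : OKX C.N C.V0 C.t q) {i : ℕ} (hi : i < C.N) :
    |sl (C.pt q) (C.y i) - (C.σ + C.ε * (q.1 + C.t i))| < C.ε / 10 := by
  have h1 := h.slope hi
  have h2 := C.ε_pos
  rw [C.h37_sl h hi]
  have h3 : C.σ + C.ε * ((C.t i ^ 2 - q.2) / (C.t i - q.1)) - (C.σ + C.ε * (q.1 + C.t i)) =
      C.ε * ((C.t i ^ 2 - q.2) / (C.t i - q.1) - (q.1 + C.t i)) := by ring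
  rw [h3, abs_mul, abs_of_pos h2]
  have h4 := mul_lt_mul_of_pos_left h1 h2
  linarith

theorem slope_sep {q : ℝ × ℝ} (h : OKX C.N C.V0 C.t q) {i j : ℕ} (hi : i < C.N) (hj : j < C.N)
    (hij : i ≠ j) : 7 / 10 * C.ε < |sl (C.pt q) (C.y i) - sl (C.pt q) (C.y j)| := by
  have h1 := abs_lt.1 (C.slope_y h hi)
  have h2 := abs_lt.1 (C.slope_y h hj)
  have h3 := C.t_sep hi hj hij
  have h4 := C.ε_pos
  rw [lt_abs] at h3 ⊢
  rcases h3 with h3 | h3
  · left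
    have h5 := mul_lt_mul_of_pos_left h3 h4
    linarith [h1.1, h1.2, h2.1, h2.2]
  · right
    have h5 := mul_lt_mul_of_pos_left h3 h4
    linarith [h1.1, h1.2, h2.1, h2.2]

/-- Normalised slopes of the cluster are at most `V0 + N + 2` in absolute value. -/
theorem slope_bd {q : ℝ × ℝ} (h : OKX C.N C.V0 C.t q) {i : ℕ} (hi : i < C.N) :
    |sl (C.pt q) (C.y i) - C.σ| ≤ C.ε * (C.V0 + C.N + 2) := by
  have h1 := abs_lt.1 (C.slope_y h hi)
  have h2 := abs_lt.1 h.1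
  have h3 := C.t_box hi
  have h4 := C.ε_pos
  have h5 : C.ε * (q.1 + C.t i) ≤ C.ε * (C.V0 + 1 + C.N) := by
    apply mul_le_mul_of_nonneg_left _ h4.le
    linarith [h3.2.2.2, h2.2]
  have h6 : C.ε * (-(C.V0 + 1)) ≤ C.ε * (q.1 + C.t i) := by
    apply mul_le_mul_of_nonneg_left _ h4.le
    linarith [h3.2.2.1, h2.1]
  have hN : (0 : ℝ) ≤ C.ε * C.N := by positivity
  rw [abs_le]
  constructor <;> nlinarith [h1.1, h1.2]

/-- The intervals `(alo, ahi)` lie within distance `3 ε / 10` of the slope of `y i`, on side `τ`. -/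
theorem alo_ahi (x : Pt) (i : ℕ) (τ : Bool) {l : ℕ} (hl : l < C.L) :
    (τ = true → sl x (C.y i) + C.ε / 10 ≤ C.alo x i τ l ∧
      C.ahi x i τ l ≤ sl x (C.y i) + 3 * C.ε / 10) ∧
    (τ = false → sl x (C.y i) - 3 * C.ε / 10 ≤ C.alo x i τ l ∧
      C.ahi x i τ l ≤ sl x (C.y i) - C.ε / 10) := by
  have hL := C.h37_L_pos
  have hε := C.ε_pos
  have hl' : (l : ℝ) + 1 ≤ C.L := by exact_mod_cast hl
  have hl0 : (0 : ℝ) ≤ (l : ℝ) / (5 * C.L) := by positivity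
  have e1 : (l : ℝ) / (5 * C.L) + 1 / (10 * C.L) ≤ 2 / 10 := by
    rw [div_add_div _ _ (by positivity) (by positivity), div_le_div_iff₀ (by positivity) (by norm_num)]
    nlinarith [mul_pos hL hL]
  have e2 : C.ε / (10 * C.L) = C.ε * (1 / (10 * C.L)) := by ring
  have e3 := mul_le_mul_of_nonneg_left e1 hε.le
  have e4 : 0 ≤ C.ε * ((l : ℝ) / (5 * C.L)) := by positivity
  have e5 : 0 ≤ C.ε * (1 / (10 * C.L)) := by positivity
  constructor
  · rintro rfl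
    unfold ahi alo
    rw [e2]
    simp only [if_true]
    constructor <;> nlinarith
  · rintro rfl
    unfold ahi alo
    rw [e2]
    simp only [Bool.false_eq_true, if_false]
    constructor <;> nlinarith

/-- Distinct alternatives are separated by at least `ε / (10 L)`. -/
theorem alo_sep (x : Pt) (i : ℕ) (τ : Bool) {l l' : ℕ} (h : l < l') :
    (τ = true → C.ahi x i τ l + C.ε / (10 * C.L) ≤ C.alo x i τ l') ∧
    (τ = false → C.ahi x i τ l' + C.ε / (10 * C.L) ≤ C.alo x i τ l) := by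
  have hL := C.h37_L_pos
  have hε := C.ε_pos
  have hl' : (l : ℝ) + 1 ≤ l' := by exact_mod_cast h
  have e1 : (l : ℝ) / (5 * C.L) + 2 * (1 / (10 * C.L)) ≤ (l' : ℝ) / (5 * C.L) := by
    have : (l : ℝ) / (5 * C.L) + 2 * (1 / (10 * C.L)) = ((l : ℝ) + 1) / (5 * C.L) := by
      field_simp
      ring
    rw [this]
    gcongr
  have e2 : C.ε / (10 * C.L) = C.ε * (1 / (10 * C.L)) := by ring
  have e3 := mul_le_mul_of_nonneg_left e1 hε.le
  constructor
  · rintro rfl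
    unfold ahi alo
    rw [e2]
    simp only [if_true]
    nlinarith
  · rintro rfl
    unfold ahi alo
    rw [e2]
    simp only [Bool.false_eq_true, if_false]
    nlinarith

/-- The window of an alternative. -/
theorem widx_spec {q : ℝ × ℝ} (h : OKX C.N C.V0 C.t q) {i : ℕ} (hi : i < C.N) (τ : Bool) {l : ℕ}
    (hl : l < C.L) : C.widx (C.pt q) i τ l < C.nw ∧
      C.alo (C.pt q) i τ l ≤ C.c + (C.widx (C.pt q) i τ l : ℝ) * C.w ∧
      C.c + ((C.widx (C.pt q) i τ l : ℝ) + 1) * C.w ≤ C.ahi (C.pt q) i τ l := by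
  have hL := C.h37_L_pos
  have hε := C.ε_pos
  have hw := C.hw
  have hK := C.K_pos
  have hbd := abs_le.1 (C.slope_bd h hi)
  have hVK := C.h37_V0_le_K
  have hεK := C.h37_εK
  have hσ := C.hσ
  have h7 : C.ε * (C.V0 + C.N + 6) ≤ C.ε * C.K := mul_le_mul_of_nonneg_left hVK hε.le
  have hlo : C.c ≤ C.alo (C.pt q) i τ l := by
    have h1 := C.alo_ahi (C.pt q) i τ hl
    cases τ
    · have := (h1.2 rfl).1
      nlinarith [hbd.1]
    · have := (h1.1 rfl).1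
      nlinarith [hbd.1]
  have hhi : C.ahi (C.pt q) i τ l ≤ C.c + C.nw * C.w := by
    have h1 := C.alo_ahi (C.pt q) i τ hl
    cases τ
    · have := (h1.2 rfl).2
      nlinarith [hbd.2]
    · have := (h1.1 rfl).2
      nlinarith [hbd.2]
  have h2w : 2 * C.w ≤ C.ahi (C.pt q) i τ l - C.alo (C.pt q) i τ l := by
    have e : C.ahi (C.pt q) i τ l - C.alo (C.pt q) i τ l = C.ε / (10 * C.L) := by
      unfold ahi; ring
    rw [e, le_div_iff₀ (by positivity)]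
    have h8 : 200 * C.K * C.L * C.w ≤ C.nw * C.w := mul_le_mul_of_nonneg_right C.hnw hw.le
    have h9 : 100 * C.L * C.w ≤ C.ε := by
      rw [C.hε, le_div_iff₀ (by positivity)]
      linarith
    nlinarith [mul_pos hL hw]
  exact window_exists hw hlo hhi h2w

theorem h37_widx_inj {q : ℝ × ℝ} (h : OKX C.N C.V0 C.t q) {i : ℕ} (hi : i < C.N) (τ : Bool)
    {l l' : ℕ} (hl : l < C.L) (hl' : l' < C.L) (hll : l < l') :
    C.widx (C.pt q) i τ l ≠ C.widx (C.pt q) i τ l' := by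
  intro he
  have h1 := C.widx_spec h hi τ hl
  have h2 := C.widx_spec h hi τ hl'
  have h3 := C.alo_sep (C.pt q) i τ hll
  have hL := C.h37_L_pos
  have hε := C.ε_pos
  have hw := C.hw
  have h4 : 0 < C.ε / (10 * C.L) := by positivity
  rw [← he] at h2
  cases τ
  · have h5 := h3.2 rfl
    linarith [h1.2.1, h1.2.2, h2.2.1, h2.2.2]
  · have h5 := h3.1 rfl
    linarith [h1.2.1, h1.2.2, h2.2.1, h2.2.2]

open Classical in
/-- At most `d` alternatives are bad. -/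
theorem card_bad {q : ℝ × ℝ} (h : OKX C.N C.V0 C.t q) {i : ℕ} (hi : i < C.N) (τ : Bool) :
    ((Finset.range C.L).filter fun l => ¬ C.good (C.pt q) i τ l).card ≤ C.d := by
  refine le_trans ?_ (C.hBad (C.sd (C.pt q) i))
  apply Finset.card_le_card_of_injOn (fun l => C.widx (C.pt q) i τ l)
  · intro l hl
    have hl2 := (Finset.mem_filter.1 (Finset.mem_coe.1 hl)).2
    unfold good at hl2
    push Not at hl2
    exact Finset.mem_coe.2 hl2
  · intro l hl l' hl' he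
    have h1 := Finset.mem_range.1 (Finset.mem_filter.1 (Finset.mem_coe.1 hl)).1
    have h2 := Finset.mem_range.1 (Finset.mem_filter.1 (Finset.mem_coe.1 hl')).1
    rcases lt_trichotomy l l' with h3 | h3 | h3
    · exact absurd he (C.h37_widx_inj h hi τ h1 h2 h3)
    · exact h3
    · exact absurd he.symm (C.h37_widx_inj h hi τ h2 h1 h3)

/-- A good alternative is near, seen from `(x, y i)` ... -/
theorem alt_near {q : ℝ × ℝ} (h : OKX C.N C.V0 C.t q) {i : ℕ} (hi : i < C.N) {τ : Bool} {l : ℕ}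
    (hl : l < C.L) (hg : C.good (C.pt q) i τ l) :
    Near C.M C.B C.z (C.sd (C.pt q) i) (C.altV (C.pt q) i τ l) (C.alo (C.pt q) i τ l)
      (C.ahi (C.pt q) i τ l) (C.pt q) (C.y i) := by
  have h1 := C.widx_spec h hi τ hl
  have h2 := C.okx_box h
  have h3 := C.t_box hi
  have h4 := C.nearU (C.sd (C.pt q) i) _ h1.1 hg q.1 q.2 (C.t i) (C.t i ^ 2) h2.1 h2.2 h3.1 h3.2.1
  exact ⟨h4.side, fun v hv => ⟨lt_of_le_of_lt h1.2.1 (h4.slope v hv).1,
    lt_of_lt_of_le (h4.slope v hv).2 h1.2.2⟩, h4.old, h4.ext⟩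

/-- ... and from `(y i, x)`. -/
theorem alt_near' {q : ℝ × ℝ} (h : OKX C.N C.V0 C.t q) {i : ℕ} (hi : i < C.N) {τ : Bool} {l : ℕ}
    (hl : l < C.L) (hg : C.good (C.pt q) i τ l) :
    Near C.M C.B C.z (C.sd (C.pt q) i) (C.altV (C.pt q) i τ l) (C.alo (C.pt q) i τ l)
      (C.ahi (C.pt q) i τ l) (C.y i) (C.pt q) := by
  have h1 := C.widx_spec h hi τ hl
  have h2 := C.okx_box h
  have h3 := C.t_box hi
  have h4 := C.nearU (C.sd (C.pt q) i) _ h1.1 hg (C.t i) (C.t i ^ 2) q.1 q.2 h3.1 h3.2.1 h2.1 h2.2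
  exact ⟨h4.side, fun v hv => ⟨lt_of_le_of_lt h1.2.1 (h4.slope v hv).1,
    lt_of_lt_of_le (h4.slope v hv).2 h1.2.2⟩, h4.old, h4.ext⟩

end Ctx

end Pool.Agent.KHG77
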