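import Pool.Agent.KHG77.Node1

/-!
# KHG77.Node1b: the hulls of the alternatives, uniqueness of hits
-/

namespace Pool.Agent.KHG77

open Set Filter Topology

namespace Ctx

variable (C : Ctx)

/-- Side and slope of a point of the hull of an alternative. -/
theorem altHull_slope {q : ℝ × ℝ} (h : OKX C.N C.V0 C.t q) {i : ℕ} (hi : i < C.N) {τ : Bool}
    {l : ℕ} (hl : l < C.L) (hg : C.good (C.pt q) i τ l) {p : Pt}
    (hp : p ∈ C.altHull (C.pt q) i τ l) (hne : p ≠ C.pt q) :
    0 < sg (C.sd (C.pt q) i) * (p.1 - (C.pt q).1) ∧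
    (τ = true → sl (C.pt q) (C.y i) ≤ sl (C.pt q) p ∧ sl (C.pt q) p ≤ C.ahi (C.pt q) i τ l) ∧
    (τ = false → C.alo (C.pt q) i τ l ≤ sl (C.pt q) p ∧ sl (C.pt q) p ≤ sl (C.pt q) (C.y i)) := by
  have hnear := C.alt_near h hi hl hg
  have hy : 0 < sg (C.sd (C.pt q) i) * ((C.y i).1 - (C.pt q).1) := sideOf_pos (C.fst_ne h hi)
  have hbd := C.alo_ahi (C.pt q) i τ hl
  have hε := C.ε_pos
  have hL : (0 : ℝ) < 10 * C.L := by
    have : 0 < C.L := lt_of_le_of_lt (Nat.zero_le _) hl
    have : (0 : ℝ) < (C.L : ℝ) := by exact_mod_cast this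
    linarith
  have hpos : C.alo (C.pt q) i τ l ≤ C.ahi (C.pt q) i τ l := by
    have : 0 ≤ C.ε / (10 * C.L) := (div_pos hε hL).le
    unfold ahi
    linarith
  have hp' : p ∈ convexHull ℝ (insert (C.pt q)
      (insert (C.y i) (C.altV (C.pt q) i τ l : Set Pt))) := hp
  cases τ with
  | true =>
    have hb := hbd.1 rfl
    have := cone_closed (x := C.pt q) (q := p) (s := C.sd (C.pt q) i)
      (A := insert (C.y i) (C.altV (C.pt q) i true l : Set Pt))
      (lo := sl (C.pt q) (C.y i)) (hi := C.ahi (C.pt q) i true l) (by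
        intro a ha
        rcases ha with ha | ha
        · subst ha
          exact ⟨hy, le_rfl, by linarith⟩
        · have ha' : a ∈ C.altV (C.pt q) i true l := ha
          have h1 := hnear.side a ha'
          have h2 := hnear.slope a ha'
          exact ⟨h1, by linarith [h2.1, hb.1], h2.2.le⟩) hp' hne
    exact ⟨this.1, fun _ => this.2, fun hf => by simp at hf⟩
  | false =>
    have hb := hbd.2 rfl
    have := cone_closed (x := C.pt q) (q := p) (s := C.sd (C.pt q) i)
      (A := insert (C.y i) (C.altV (C.pt q) i false l : Set Pt))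
      (lo := C.alo (C.pt q) i false l) (hi := sl (C.pt q) (C.y i)) (by
        intro a ha
        rcases ha with ha | ha
        · subst ha
          exact ⟨hy, by linarith, le_rfl⟩
        · have ha' : a ∈ C.altV (C.pt q) i false l := ha
          have h1 := hnear.side a ha'
          have h2 := hnear.slope a ha'
          exact ⟨h1, h2.1.le, by linarith [h2.2, hb.2]⟩) hp' hne
    exact ⟨this.1, fun hf => by simp at hf, fun _ => this.2⟩

/-- A point that hits `(i, τ)` has a slope within `3 ε / 10` of the slope of `y i`, on side `τ`. -/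
theorem helper12_hit_slope {q : ℝ × ℝ} (h : OKX C.N C.V0 C.t q) {i : ℕ} (hi : i < C.N) {τ : Bool}
    {b : Pt} (hb : b ≠ C.pt q) (hit : C.hit (C.pt q) b (Sum.inr (i, τ))) :
    0 < sg (C.sd (C.pt q) i) * (b.1 - (C.pt q).1) ∧
    (τ = true → sl (C.pt q) (C.y i) ≤ sl (C.pt q) b) ∧
    (τ = false → sl (C.pt q) b ≤ sl (C.pt q) (C.y i)) ∧
    |sl (C.pt q) b - sl (C.pt q) (C.y i)| ≤ 3 * C.ε / 10 := by
  obtain ⟨l, hl, l', hl', _, hg, _, hm, _⟩ := hit
  have hs := C.altHull_slope h hi hl hg hm hb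
  have hbd := C.alo_ahi (C.pt q) i τ hl
  have hε := C.ε_pos
  refine ⟨hs.1, fun ht => (hs.2.1 ht).1, fun ht => (hs.2.2 ht).2, ?_⟩
  cases τ with
  | true =>
    have h1 := hs.2.1 rfl
    have h2 := hbd.1 rfl
    rw [abs_le]
    constructor <;> linarith
  | false =>
    have h1 := hs.2.2 rfl
    have h2 := hbd.2 rfl
    rw [abs_le]
    constructor <;> linarith

/-- A point that hits some `(i, τ)` has its slope in the cell. -/
theorem helper12_hit_cell {q : ℝ × ℝ} (h : OKX C.N C.V0 C.t q) {i : ℕ} (hi : i < C.N) {τ : Bool}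
    {b : Pt} (hb : b ≠ C.pt q) (hit : C.hit (C.pt q) b (Sum.inr (i, τ))) :
    C.c < sl (C.pt q) b ∧ sl (C.pt q) b < C.c + C.nw * C.w := by
  have h1 := (C.helper12_hit_slope h hi hb hit).2.2.2
  have h2 := C.slope_bd h hi
  have hε := C.ε_pos
  have hK := C.K_pos
  have hεK : C.ε * C.K = C.nw * C.w / 2 := by
    rw [C.hε]
    field_simp
  have hσ := C.hσ
  have hKV : C.V0 + C.N + 3 ≤ C.K := by
    rw [C.hK]
    nlinarith [sq_nonneg (C.V0 + 1)]
  have h3 : |sl (C.pt q) b - C.σ| < C.ε * C.K := by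
    have e1 : |sl (C.pt q) b - C.σ| ≤ |sl (C.pt q) b - sl (C.pt q) (C.y i)| +
        |sl (C.pt q) (C.y i) - C.σ| := abs_sub_le _ _ _
    have e2 : C.ε * (C.V0 + C.N + 3) ≤ C.ε * C.K := mul_le_mul_of_nonneg_left hKV hε.le
    nlinarith
  rw [abs_lt] at h3
  constructor <;> linarith [h3.1, h3.2]

/-- A golden flag hit by `b`: side and slopes. -/
theorem helper12_hit_gold {Γ : Finset (Bool × Finset Pt)} (hΓ : C.GOk Γ) {q : ℝ × ℝ}
    (h : OKX C.N C.V0 C.t q) {γ : Bool × Finset Pt} (hγ : γ ∈ Γ) {b : Pt} (hb : b ≠ C.pt q)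
    (hit : C.hit (C.pt q) b (Sum.inl γ)) :
    sl (C.pt q) b < C.c ∨ C.c + C.nw * C.w < sl (C.pt q) b := by
  obtain ⟨lo, hi', hW⟩ := hΓ.1 γ hγ
  have hbox := C.okx_box h
  have hnear := C.nearW _ hW q.1 q.2 q.1 q.2 hbox.1 hbox.2 hbox.1 hbox.2
  have hc := cone_open (x := C.pt q) (q := b) (A := γ.2) (s := γ.1) (lo := lo) (hi := hi')
    (fun a ha => ⟨hnear.side a ha, hnear.slope a ha⟩) hit hb
  rcases C.outW _ hW with ho | ho
  · exact Or.inl (lt_of_lt_of_le hc.2.2 ho)
  · exact Or.inr (lt_of_le_of_lt ho hc.2.1)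

/-- **Uniqueness.** A further point in general position hits at most one index. -/
theorem hit_uniq {Γ : Finset (Bool × Finset Pt)} (hΓ : C.GOk Γ) {q : ℝ × ℝ}
    (h : OKX C.N C.V0 C.t q) {S : Finset Pt} (hS : GenPos S) (hM : C.M ⊆ S)
    (hY : ∀ i < C.N, C.y i ∈ S) (hx : C.pt q ∈ S) {b : Pt} (hb : b ∈ S) (hbM : b ∉ C.M)
    (hbY : ∀ i < C.N, b ≠ C.y i) (hbx : b ≠ C.pt q) {a a' : Idx} (ha : a ∈ C.idx Γ)
    (ha' : a' ∈ C.idx Γ) (hit1 : C.hit (C.pt q) b a) (hit2 : C.hit (C.pt q) b a') : a = a' := by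
  have hmem : ∀ j : ℕ × Bool, Sum.inr j ∈ C.idx Γ → j.1 < C.N := by
    intro j hj
    simp only [idx, Finset.inr_mem_disjSum, Finset.mem_product, Finset.mem_range] at hj
    exact hj.1
  have hmemG : ∀ γ : Bool × Finset Pt, Sum.inl γ ∈ C.idx Γ → γ ∈ Γ := by
    intro γ hγ
    simpa only [idx, Finset.inl_mem_disjSum] using hγ
  rcases a with γ | ⟨i, τ⟩ <;> rcases a' with γ' | ⟨j, τ'⟩
  · -- two golden flags
    have hγ := hmemG γ ha
    have hγ' := hmemG γ' ha'
    by_contra hne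
    have hne' : γ ≠ γ' := fun e => hne (by rw [e])
    obtain ⟨lo, hi', hW⟩ := hΓ.1 γ hγ
    obtain ⟨lo', hi'', hW'⟩ := hΓ.1 γ' hγ'
    have hbox := C.okx_box h
    have hnear := C.nearW _ hW q.1 q.2 q.1 q.2 hbox.1 hbox.2 hbox.1 hbox.2
    have hnear' := C.nearW _ hW' q.1 q.2 q.1 q.2 hbox.1 hbox.2 hbox.1 hbox.2
    have hsep := C.sepW _ hW _ hW' (hΓ.2 γ hγ γ' hγ' hne') q.1 q.2 hbox.1 hbox.2
    have hsub := C.subW _ hW
    refine hit_unique (x := C.pt q) (q := b) (γ := γ) (γ' := γ') hnear.side hnear'.side hsep hbx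
      ?_ hit1 hit2
    intro v hv hdet
    have hvM : v ∈ C.M := hsub hv
    have hvx : v ≠ C.pt q := by
      intro e
      have := hnear.side v hv
      rw [e] at this
      have e2 : (C.pt q).1 - (phi C.z C.r C.σ C.ε q.1 q.2).1 = 0 := sub_self _
      rw [e2, mul_zero] at this
      exact lt_irrefl _ this
    exact hS (C.pt q) hx v (hM hvM) b hb (Ne.symm hvx) (Ne.symm hbx)
      (fun e => hbM (e ▸ hvM)) ((collinear_iff_det3 _ _ _).2 hdet)
  · exfalso
    have h1 := C.helper12_hit_gold hΓ h (hmemG γ ha) hbx hit1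
    have h2 := C.helper12_hit_cell h (hmem _ ha') hbx hit2
    rcases h1 with h1 | h1 <;> linarith [h2.1, h2.2]
  · exfalso
    have h1 := C.helper12_hit_gold hΓ h (hmemG γ' ha') hbx hit2
    have h2 := C.helper12_hit_cell h (hmem _ ha) hbx hit1
    rcases h1 with h1 | h1 <;> linarith [h2.1, h2.2]
  · have hi := hmem _ ha
    have hj := hmem _ ha'
    have h1 := C.helper12_hit_slope h hi hbx hit1
    have h2 := C.helper12_hit_slope h hj hbx hit2
    have hε := C.ε_pos
    have hij : i = j := by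
      by_contra hne
      have h3 := C.slope_sep h hi hj hne
      have e1 : |sl (C.pt q) (C.y i) - sl (C.pt q) (C.y j)| ≤
          |sl (C.pt q) b - sl (C.pt q) (C.y i)| + |sl (C.pt q) b - sl (C.pt q) (C.y j)| := by
        have := abs_sub_le (sl (C.pt q) (C.y i)) (sl (C.pt q) b) (sl (C.pt q) (C.y j))
        rw [abs_sub_comm (sl (C.pt q) (C.y i)) (sl (C.pt q) b)] at this
        exact this
      linarith [h1.2.2.2, h2.2.2.2]
    subst hij
    have hτ : τ = τ' := by
      by_contra hne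
      have heq : sl (C.pt q) b = sl (C.pt q) (C.y i) := by
        cases τ <;> cases τ'
        · exact absurd rfl hne
        · exact le_antisymm (h1.2.2.1 rfl) (h2.2.1 rfl)
        · exact le_antisymm (h2.2.2.1 rfl) (h1.2.1 rfl)
        · exact absurd rfl hne
      have hbf : b.1 ≠ (C.pt q).1 := by
        intro e
        have := h1.1
        rw [e, sub_self, mul_zero] at this
        exact lt_irrefl _ this
      have hdet := det3_of_sl_eq hbf (C.fst_ne h hi) heq
      have hyx : C.y i ≠ C.pt q := fun e => C.fst_ne h hi (by rw [e])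
      exact hS (C.pt q) hx b hb (C.y i) (hY i hi) (Ne.symm hbx) (Ne.symm hyx) (hbY i hi)
        ((collinear_iff_det3 _ _ _).2 hdet)
    rw [hτ]

end Ctx

end Pool.Agent.KHG77
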