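import Pool.Agent.KHG77.Node1b

/-!
# KHG77.Node2: choice of the final point of a node
-/

namespace Pool.Agent.KHG77

open Set Filter Topology

namespace Ctx

variable (C : Ctx)

/-- Sharper bound on the parameters of the cluster. -/
theorem helper80_t_le {i : ℕ} (hi : i < C.N) : C.t i ≤ C.N - 99 / 100 := by
  have h1 := C.h37_t_near hi
  rw [abs_lt] at h1
  have h2 : (i : ℝ) + 1 ≤ C.N := by exact_mod_cast hi
  linarith [h1.2]

/-- The slope of a point in chart form. -/
theorem helper80_sl {q : ℝ × ℝ} {b : Pt} (hne : q.1 ≠ cX C.z C.r b) :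
    sl (C.pt q) b = C.σ + C.ε * ((cH C.z C.r C.σ C.ε b - q.2) / (cX C.z C.r b - q.1)) := by
  have h1 := sl_phi (z := C.z) (σ := C.σ) (ε := C.ε) (X := q.1) (H := q.2)
    (X' := cX C.z C.r b) (H' := cH C.z C.r C.σ C.ε b) C.hr hne.symm
  rw [phi_cX C.hr C.ε_pos] at h1
  exact h1

theorem helper80_fst {q : ℝ × ℝ} (b : Pt) :
    b.1 - (C.pt q).1 = C.r * (cX C.z C.r b - q.1) := by
  have hr := C.hr.ne'
  unfold pt phi cX
  simp only
  field_simp
  ring

theorem helper80_yfst {q : ℝ × ℝ} (i : ℕ) :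
    (C.y i).1 - (C.pt q).1 = C.r * (C.t i - q.1) := by
  unfold y pt phi
  simp only
  ring

/-- Slope equation from the side. -/
theorem helper80_sl_mul {x a : Pt} {s : Bool} (h : 0 < sg s * (a.1 - x.1)) :
    a.2 - x.2 = sl x a * (a.1 - x.1) := helper15_sl_mul h

/-- The overlap inequality for a hit. -/
theorem helper80_overlap {q : ℝ × ℝ} (h : OKX C.N C.V0 C.t q) {i : ℕ}
    (hi : i < C.N) {τ : Bool} {b : Pt} (hb : b ≠ C.pt q)
    (hit : C.hit (C.pt q) b (Sum.inr (i, τ))) :
    0 < sg (C.sd (C.pt q) i) * (b.1 - (C.pt q).1) ∧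
    sg (C.sd (C.pt q) i) * (b.1 - (C.pt q).1) * (C.ε / (10 * C.L)) ≤
      sg (C.sd (C.pt q) i) * ((C.y i).1 - (C.pt q).1) * (3 * C.ε / 10) := by
  obtain ⟨l, hl, l', hl', hll, hg, hg', hm, hm'⟩ := hit
  simp only at hl hl' hll hg hg' hm hm'
  have hs := C.altHull_slope h hi hl hg hm hb
  have hbd' := C.alo_ahi (C.pt q) i τ hl'
  have hsep := C.alo_sep (C.pt q) i τ hll
  have hε := C.ε_pos
  have hy : 0 < sg (C.sd (C.pt q) i) * ((C.y i).1 - (C.pt q).1) := sideOf_pos (C.fst_ne h hi)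
  have hnear := C.alt_near' h hi hl' hg'
  have hLp : (0 : ℝ) < 10 * C.L := by have := C.h37_L_pos; linarith
  have hsl := helper15_sl_mul hy
  have hp' : b ∈ convexHull ℝ (insert (C.pt q)
      (insert (C.y i) (C.altV (C.pt q) i τ l' : Set Pt))) := hm'
  refine ⟨hs.1, ?_⟩
  set s := C.sd (C.pt q) i with hsdef
  cases τ with
  | true =>
    have hb1 := (hs.2.1 rfl).2
    have hb2 := hbd'.1 rfl
    have hb3 := hsep.1 rfl
    have hf : 0 ≤ (-(sg s * C.alo (C.pt q) i true l')) * b.1 + sg s * b.2 +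
        (sg s * C.alo (C.pt q) i true l' * (C.y i).1 - sg s * (C.y i).2) := by
      refine halfplane ?_ hp'
      rintro p (rfl | rfl | hp)
      · have e : -(sg s * C.alo (C.pt q) i true l') * (C.pt q).1 + sg s * (C.pt q).2 +
            (sg s * C.alo (C.pt q) i true l' * (C.y i).1 - sg s * (C.y i).2) =
            sg s * C.alo (C.pt q) i true l' * ((C.y i).1 - (C.pt q).1) -
              sg s * ((C.y i).2 - (C.pt q).2) := by ring
        rw [e, hsl]
        have e2 : sg s * C.alo (C.pt q) i true l' * ((C.y i).1 - (C.pt q).1) -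
            sg s * (sl (C.pt q) (C.y i) * ((C.y i).1 - (C.pt q).1)) =
            sg s * ((C.y i).1 - (C.pt q).1) * (C.alo (C.pt q) i true l' - sl (C.pt q) (C.y i)) := by
          ring
        rw [e2]
        exact mul_nonneg hy.le (by linarith [hb2.1])
      · apply le_of_eq; ring
      · have hp2 : p ∈ C.altV (C.pt q) i true l' := hp
        have h1 := hnear.side p hp2
        have h2 := (hnear.slope p hp2).1
        have h3 := helper15_sl_mul h1
        have e : -(sg s * C.alo (C.pt q) i true l') * p.1 + sg s * p.2 +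
            (sg s * C.alo (C.pt q) i true l' * (C.y i).1 - sg s * (C.y i).2) =
            sg s * (p.2 - (C.y i).2) - sg s * C.alo (C.pt q) i true l' * (p.1 - (C.y i).1) := by
          ring
        rw [e, h3]
        have e2 : sg s * (sl (C.y i) p * (p.1 - (C.y i).1)) -
            sg s * C.alo (C.pt q) i true l' * (p.1 - (C.y i).1) =
            sg s * (p.1 - (C.y i).1) * (sl (C.y i) p - C.alo (C.pt q) i true l') := by ring
        rw [e2]
        exact mul_nonneg h1.le (by linarith)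
    have hov := overlap (x := C.pt q) (y := C.y i) (q := b) (s := s) (t := true)
      (α := C.alo (C.pt q) i true l') (β := C.ahi (C.pt q) i true l) hy hs.1
      (by simp only [sg, if_true, one_mul]; exact hb1)
      (by simp only [sg, if_true, mul_one] at hf ⊢; linarith)
    have e1 : sg true = 1 := by simp [sg]
    rw [e1, one_mul, one_mul] at hov
    refine le_trans (mul_le_mul_of_nonneg_left ?_ hs.1.le) (le_trans hov
      (mul_le_mul_of_nonneg_left ?_ hy.le))
    · linarith
    · have : C.alo (C.pt q) i true l' ≤ C.ahi (C.pt q) i true l' := by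
        unfold ahi
        have : 0 ≤ C.ε / (10 * C.L) := (div_pos hε hLp).le
        linarith
      linarith [hb2.2]
  | false =>
    have hb1 := (hs.2.2 rfl).1
    have hb2 := hbd'.2 rfl
    have hb3 := hsep.2 rfl
    have hf : 0 ≤ (sg s * C.ahi (C.pt q) i false l') * b.1 + (-(sg s)) * b.2 +
        (-(sg s * C.ahi (C.pt q) i false l' * (C.y i).1) + sg s * (C.y i).2) := by
      refine halfplane ?_ hp'
      rintro p (rfl | rfl | hp)
      · have e : sg s * C.ahi (C.pt q) i false l' * (C.pt q).1 + (-(sg s)) * (C.pt q).2 +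
            (-(sg s * C.ahi (C.pt q) i false l' * (C.y i).1) + sg s * (C.y i).2) =
            sg s * ((C.y i).2 - (C.pt q).2) -
            sg s * C.ahi (C.pt q) i false l' * ((C.y i).1 - (C.pt q).1) := by ring
        rw [e, hsl]
        have e2 : sg s * (sl (C.pt q) (C.y i) * ((C.y i).1 - (C.pt q).1)) -
            sg s * C.ahi (C.pt q) i false l' * ((C.y i).1 - (C.pt q).1) =
            sg s * ((C.y i).1 - (C.pt q).1) * (sl (C.pt q) (C.y i) - C.ahi (C.pt q) i false l') := by
          ring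
        rw [e2]
        exact mul_nonneg hy.le (by linarith [hb2.2])
      · apply le_of_eq; ring
      · have hp2 : p ∈ C.altV (C.pt q) i false l' := hp
        have h1 := hnear.side p hp2
        have h2 := (hnear.slope p hp2).2
        have h3 := helper15_sl_mul h1
        have e : sg s * C.ahi (C.pt q) i false l' * p.1 + (-(sg s)) * p.2 +
            (-(sg s * C.ahi (C.pt q) i false l' * (C.y i).1) + sg s * (C.y i).2) =
            sg s * C.ahi (C.pt q) i false l' * (p.1 - (C.y i).1) -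
            sg s * (p.2 - (C.y i).2) := by
          ring
        rw [e, h3]
        have e2 : sg s * C.ahi (C.pt q) i false l' * (p.1 - (C.y i).1) -
            sg s * (sl (C.y i) p * (p.1 - (C.y i).1)) =
            sg s * (p.1 - (C.y i).1) * (C.ahi (C.pt q) i false l' - sl (C.y i) p) := by ring
        rw [e2]
        exact mul_nonneg h1.le (by linarith)
    have hov := overlap (x := C.pt q) (y := C.y i) (q := b) (s := s) (t := false)
      (α := C.ahi (C.pt q) i false l') (β := C.alo (C.pt q) i false l) hy hs.1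
      (by simp only [sg, Bool.false_eq_true, if_false]; linarith)
      (by simp only [sg, Bool.false_eq_true, if_false] at hf ⊢; linarith)
    have e1 : sg false = -1 := by simp [sg]
    rw [e1] at hov
    refine le_trans (mul_le_mul_of_nonneg_left ?_ hs.1.le) (le_trans hov
      (mul_le_mul_of_nonneg_left ?_ hy.le))
    · linarith
    · have : C.alo (C.pt q) i false l' ≤ C.ahi (C.pt q) i false l' := by
        unfold ahi
        have : 0 ≤ C.ε / (10 * C.L) := (div_pos hε hLp).le
        linarith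
      linarith [hb2.1]

/-- A point that hits some `(i, τ)` seen from an admissible `x` with `|q.1| ≤ 1` is in the box
`|u|, |v| ≤ V0`. -/
theorem hit_box {q : ℝ × ℝ} (h : OKX C.N C.V0 C.t q) (hq1 : |q.1| ≤ 1) (hq2 : |q.2| ≤ 1) {i : ℕ}
    (hi : i < C.N) {τ : Bool} {b : Pt} (hb : b ≠ C.pt q)
    (hit : C.hit (C.pt q) b (Sum.inr (i, τ))) :
    |cX C.z C.r b| ≤ C.V0 ∧ |cH C.z C.r C.σ C.ε b| ≤ C.V0 := by
  have hov := C.helper80_overlap h hi hb hit
  have hsl := C.helper12_hit_slope h hi hb hit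
  have hsy := C.slope_y h hi
  have hε := C.ε_pos
  have hr := C.hr
  have hL := C.h37_L_pos
  have ht0 := (C.t_box hi).2.2.1
  have htN := C.helper80_t_le hi
  have hN : (2 : ℝ) ≤ C.N := by exact_mod_cast C.hN
  have hy : 0 < sg (C.sd (C.pt q) i) * ((C.y i).1 - (C.pt q).1) := sideOf_pos (C.fst_ne h hi)
  set s := C.sd (C.pt q) i with hs
  rw [C.helper80_fst, C.helper80_yfst] at hov
  rw [C.helper80_yfst] at hy
  have hsabs : |sg s| = 1 := by cases s <;> simp [sg]
  -- D = |cX b - q.1|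
  have hD1 : sg s * (cX C.z C.r b - q.1) = |cX C.z C.r b - q.1| := by
    have h1 : 0 < sg s * (cX C.z C.r b - q.1) := by
      have : 0 < C.r * (sg s * (cX C.z C.r b - q.1)) := by linarith [hov.1]
      exact (pos_iff_pos_of_mul_pos this).1 hr
    have h2 : |sg s * (cX C.z C.r b - q.1)| = |cX C.z C.r b - q.1| := by
      rw [abs_mul, hsabs, one_mul]
    rw [← h2, abs_of_pos h1]
  have hD2 : sg s * (C.t i - q.1) = |C.t i - q.1| := by
    have h1 : 0 < sg s * (C.t i - q.1) := by
      have : 0 < C.r * (sg s * (C.t i - q.1)) := by linarith [hy]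
      exact (pos_iff_pos_of_mul_pos this).1 hr
    have h2 : |sg s * (C.t i - q.1)| = |C.t i - q.1| := by
      rw [abs_mul, hsabs, one_mul]
    rw [← h2, abs_of_pos h1]
  have hq1' := abs_le.1 hq1
  have hti : |C.t i - q.1| ≤ C.N + 1 / 100 := by
    rw [abs_le]
    constructor <;> linarith [hq1'.1, hq1'.2]
  have hDle : |cX C.z C.r b - q.1| ≤ 3 * C.L * (C.N + 1 / 100) := by
    have h1 : C.r * (|cX C.z C.r b - q.1| * (C.ε / (10 * C.L))) ≤
        C.r * (|C.t i - q.1| * (3 * C.ε / 10)) := by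
      rw [← hD1, ← hD2]
      have := hov.2
      nlinarith [this]
    have h2 := le_of_mul_le_mul_left h1 hr
    have h3 : |cX C.z C.r b - q.1| * (C.ε / (10 * C.L)) ≤ (C.N + 1 / 100) * (3 * C.ε / 10) :=
      le_trans h2 (mul_le_mul_of_nonneg_right hti (by positivity))
    have h4 : |cX C.z C.r b - q.1| * (C.ε / (10 * C.L)) =
        |cX C.z C.r b - q.1| / (3 * C.L) * (3 * C.ε / 10) := by
      field_simp
    rw [h4] at h3
    have h5 := le_of_mul_le_mul_right h3 (by positivity)
    rw [div_le_iff₀ (by positivity)] at h5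
    linarith
  have hne : q.1 ≠ cX C.z C.r b := by
    intro e
    have h1 := hsl.1
    rw [C.helper80_fst, ← e, sub_self, mul_zero, mul_zero] at h1
    exact lt_irrefl _ h1
  have hslb := C.helper80_sl hne
  set κ := (cH C.z C.r C.σ C.ε b - q.2) / (cX C.z C.r b - q.1) with hκ
  have hκb : |κ| ≤ C.N + 1 := by
    have h1 := abs_le.1 hsl.2.2.2
    have h2 := abs_lt.1 hsy
    rw [hslb] at h1
    have h3 : C.ε * κ ≤ C.ε * (C.N + 1) := by nlinarith [h1.1, h1.2, h2.1, h2.2, hq1'.1, hq1'.2]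
    have h4 : C.ε * (-(C.N + 1)) ≤ C.ε * κ := by nlinarith [h1.1, h1.2, h2.1, h2.2, hq1'.1, hq1'.2]
    rw [abs_le]
    exact ⟨le_of_mul_le_mul_left h4 hε, le_of_mul_le_mul_left h3 hε⟩
  have hH : cH C.z C.r C.σ C.ε b = q.2 + κ * (cX C.z C.r b - q.1) := by
    rw [hκ, div_mul_cancel₀ _ (sub_ne_zero.2 hne.symm)]
    ring
  have hL1 : (1 : ℝ) ≤ C.L := by
    have : 1 ≤ C.L := by rw [C.hL]; omega
    exact_mod_cast this
  constructor
  · have h1 : |cX C.z C.r b| ≤ |cX C.z C.r b - q.1| + |q.1| := by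
      have := abs_add_le (cX C.z C.r b - q.1) q.1
      simpa using this
    rw [C.hV0]
    nlinarith [mul_nonneg hL.le (by linarith : (0 : ℝ) ≤ C.N)]
  · rw [hH]
    have h1 : |q.2 + κ * (cX C.z C.r b - q.1)| ≤ |q.2| + |κ| * |cX C.z C.r b - q.1| := by
      have := abs_add_le q.2 (κ * (cX C.z C.r b - q.1))
      rwa [abs_mul] at this
    have h2 : |κ| * |cX C.z C.r b - q.1| ≤ (C.N + 1) * (3 * C.L * (C.N + 1 / 100)) :=
      mul_le_mul hκb hDle (abs_nonneg _) (by linarith)
    rw [C.hV0]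
    have h3 : ((C.N : ℝ) + 1) * (3 * C.L * (C.N + 1 / 100)) ≤ 3 * C.N * C.L * (C.N + 2) := by
      have : ((C.N : ℝ) + 1) * (C.N + 1 / 100) ≤ C.N * (C.N + 2) := by nlinarith
      have h4 := mul_le_mul_of_nonneg_left this (by positivity : (0 : ℝ) ≤ 3 * C.L)
      have e1 : ((C.N : ℝ) + 1) * (3 * C.L * (C.N + 1 / 100)) =
          3 * C.L * ((C.N + 1) * (C.N + 1 / 100)) := by ring
      have e2 : 3 * (C.N : ℝ) * C.L * (C.N + 2) = 3 * C.L * (C.N * (C.N + 2)) := by ring
      rw [e1, e2]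
      exact h4
    linarith

/-- A point seen steeply from `x` hits nothing. -/
theorem steep_no_hit {Γ : Finset (Bool × Finset Pt)} (hΓ : C.GOk Γ) {q : ℝ × ℝ}
    (h : OKX C.N C.V0 C.t q) {b : Pt}
    (hne : q.1 ≠ cX C.z C.r b)
    (hst : (cH C.z C.r C.σ C.ε b - q.2) / (cX C.z C.r b - q.1) ∈ Ioo (C.K - 2) (C.K - 1))
    {a : Idx} (ha : a ∈ C.idx Γ) : ¬ C.hit (C.pt q) b a := by
  intro hit
  have hslb := C.helper80_sl hne
  have hε := C.ε_pos
  have hr := C.hr
  have hK := C.K_pos
  have hbq : b ≠ C.pt q := by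
    intro e
    have h1 := C.helper80_fst (q := q) b
    rw [e, sub_self] at h1
    rcases mul_eq_zero.1 h1.symm with h2 | h2
    · exact hr.ne' h2
    · rw [← e] at h2
      exact hne (by linarith)
  have hVK := C.h37_V0_le_K
  have hεK := C.h37_εK
  have hσ := C.hσ
  set κ := (cH C.z C.r C.σ C.ε b - q.2) / (cX C.z C.r b - q.1) with hκ
  have hN : (0 : ℝ) ≤ C.N := Nat.cast_nonneg _
  have hV := C.h37_V0_ge'
  have e1 : C.ε * κ < C.ε * C.K := mul_lt_mul_of_pos_left (by linarith [hst.2]) hε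
  have e2 : C.ε * (C.V0 + C.N + 4) < C.ε * κ := mul_lt_mul_of_pos_left (by linarith [hst.1]) hε
  have e3 : 0 ≤ C.ε * (C.V0 + C.N + 4) := mul_nonneg hε.le (by linarith)
  rcases a with γ | ⟨i, τ⟩
  · have hγ : γ ∈ Γ := by simpa only [idx, Finset.inl_mem_disjSum] using ha
    have h1 := C.helper12_hit_gold hΓ h hγ hbq hit
    have hnw : 0 < C.nw * C.w := mul_pos C.h37_nw_pos C.hw
    rcases h1 with h1 | h1
    · rw [hslb] at h1
      linarith
    · rw [hslb] at h1
      linarith
  · have hi : i < C.N := by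
      simp only [idx, Finset.inr_mem_disjSum, Finset.mem_product, Finset.mem_range] at ha
      exact ha.1
    have h1 := abs_le.1 (C.helper12_hit_slope h hi hbq hit).2.2.2
    have h2 := abs_le.1 (C.slope_bd h hi)
    rw [hslb] at h1
    nlinarith [h1.2, h2.2]

open Classical in
/-- The points of `Q` hit at most `Q.card` indices. -/
theorem helper80_card {Γ : Finset (Bool × Finset Pt)} (hΓ : C.GOk Γ)
    {M1 B1 : Finset Pt} (hok : Ok M1 B1) (hM : C.M ⊆ M1)
    (hY : ∀ i < C.N, C.y i ∈ M1) {q : ℝ × ℝ} (h : OKX C.N C.V0 C.t q)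
    (hleg : LegalMove (M1 ∪ B1) (C.pt q)) {Q : Finset Pt} (hQ : Q ⊆ B1) :
    ((C.idx Γ).filter fun a => ∃ b ∈ Q, C.hit (C.pt q) b a).card ≤ Q.card := by
  have hex : ∀ a ∈ (C.idx Γ).filter (fun a => ∃ b ∈ Q, C.hit (C.pt q) b a),
      ∃ b, b ∈ Q ∧ C.hit (C.pt q) b a := by
    intro a ha
    obtain ⟨_, b, hb, hh⟩ := Finset.mem_filter.1 ha
    exact ⟨b, hb, hh⟩
  choose! f hf using hex
  refine Finset.card_le_card_of_injOn f (fun a ha => (hf a ha).1) ?_
  intro a ha a' ha' he
  have h1 := hf a ha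
  have h2 := hf a' ha'
  have hb : f a ∈ B1 := hQ h1.1
  have hbM1 : f a ∉ M1 := fun hm => (Finset.disjoint_left.1 hok.1) hm hb
  have hpt : C.pt q ∉ M1 ∪ B1 := hleg.1
  refine C.hit_uniq hΓ h (S := insert (C.pt q) (M1 ∪ B1)) hleg.2
    (fun m hm => Finset.mem_insert_of_mem (Finset.mem_union_left _ (hM hm)))
    (fun i hi => Finset.mem_insert_of_mem (Finset.mem_union_left _ (hY i hi)))
    (Finset.mem_insert_self _ _) (b := f a)
    (Finset.mem_insert_of_mem (Finset.mem_union_right _ hb))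
    (fun hm => hbM1 (hM hm)) (fun i hi e => hbM1 (e ▸ hY i hi))
    (fun e => hpt (e ▸ Finset.mem_union_right _ hb))
    (Finset.mem_filter.1 (Finset.mem_coe.1 ha)).1 (Finset.mem_filter.1 (Finset.mem_coe.1 ha')).1
    h1.2 (he ▸ h2.2)

open Classical in
/-- **Choice of the final point.** -/
theorem choose {Γ : Finset (Bool × Finset Pt)} (hΓ : C.GOk Γ) (hcard : Γ.card < 2 * (C.N - 1))
    {M1 B1 : Finset Pt} (hok : Ok M1 B1) (hM : C.M ⊆ M1) (hB : C.B ⊆ B1)
    (hY : ∀ i < C.N, C.y i ∈ M1) (hQ : (B1 \ C.B).card ≤ 2 * (C.N - 1)) :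
    ∃ q : ℝ × ℝ, OKX C.N C.V0 C.t q ∧ LegalMove (M1 ∪ B1) (C.pt q) ∧
      ((C.idx Γ).filter fun a => ∃ b ∈ B1 \ C.B, C.hit (C.pt q) b a).card + 1 ≤ 2 * (C.N - 1) := by
  have hV := C.h37_V0_ge'
  have hr := C.hr
  have hε := C.ε_pos
  -- first choice
  have hO : IsOpen ({q : ℝ × ℝ | OKX C.N C.V0 C.t q} ∩ {q : ℝ × ℝ | |q.1| < 1 ∧ |q.2| < 1}) := by
    refine (OKX.isOpen _ _ _).inter ?_
    have h1 : IsOpen {q : ℝ × ℝ | |q.1| < 1} :=
      isOpen_lt (continuous_abs.comp continuous_fst) continuous_const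
    have h2 : IsOpen {q : ℝ × ℝ | |q.2| < 1} :=
      isOpen_lt (continuous_abs.comp continuous_snd) continuous_const
    exact h1.inter h2
  have hne : ({q : ℝ × ℝ | OKX C.N C.V0 C.t q} ∩
      {q : ℝ × ℝ | |q.1| < 1 ∧ |q.2| < 1}).Nonempty := by
    refine ⟨(1 / 2, 1 / 4), ⟨?_, ?_⟩, ?_, ?_⟩
    · simp only
      rw [abs_of_pos (by norm_num)]
      linarith
    · intro i hi
      have hti := abs_lt.1 (C.h37_t_near hi)
      have hne : (1 / 2 : ℝ) ≠ C.t i := by
        intro e
        rcases Nat.eq_zero_or_pos i with rfl | hpos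
        · rw [C.ht0] at e; norm_num at e
        · have : (1 : ℝ) ≤ i := by exact_mod_cast hpos
          linarith [hti.1, hti.2]
      refine ⟨hne, ?_⟩
      have h2 : 0 < |(1 / 2 : ℝ) - C.t i| := abs_pos.2 (sub_ne_zero.2 hne)
      have h3 : |(1 / 4 : ℝ) - (1 / 2) ^ 2| = 0 := by norm_num
      simp only
      rw [h3]
      positivity
    · simp only
      rw [abs_of_pos (by norm_num)]
      norm_num
    · simp only
      rw [abs_of_pos (by norm_num)]
      norm_num
  obtain ⟨q0, ⟨hq0, hq0b⟩, hleg0⟩ := exists_legal_chart (z := C.z) (σ := C.σ) hok.2 hr hε hO hne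
  by_cases hc : ((C.idx Γ).filter fun a => ∃ b ∈ B1 \ C.B, C.hit (C.pt q0) b a).card + 1 ≤
      2 * (C.N - 1)
  · exact ⟨q0, hq0, hleg0, hc⟩
  · have hsub : B1 \ C.B ⊆ B1 := Finset.sdiff_subset
    -- some pair index is hit
    have hex : ∃ i τ, i < C.N ∧ ∃ b ∈ B1 \ C.B, C.hit (C.pt q0) b (Sum.inr (i, τ)) := by
      by_contra hno
      push Not at hno
      have hle : ((C.idx Γ).filter fun a => ∃ b ∈ B1 \ C.B, C.hit (C.pt q0) b a).card ≤
          Γ.card := by
        have hss : ((C.idx Γ).filter fun a => ∃ b ∈ B1 \ C.B, C.hit (C.pt q0) b a) ⊆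
            Γ.map Function.Embedding.inl := by
          intro a ha
          obtain ⟨h1, b, hb, hh⟩ := Finset.mem_filter.1 ha
          rcases a with γ | ⟨i, τ⟩
          · have hγ : γ ∈ Γ := by simpa only [idx, Finset.inl_mem_disjSum] using h1
            exact Finset.mem_map.2 ⟨γ, hγ, rfl⟩
          · exfalso
            have hi : i < C.N := by
              simp only [idx, Finset.inr_mem_disjSum, Finset.mem_product, Finset.mem_range] at h1
              exact h1.1
            exact hno i τ hi b hb hh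
        have := Finset.card_le_card hss
        rwa [Finset.card_map] at this
      omega
    obtain ⟨i, τ, hi, b, hb, hit⟩ := hex
    have hbB : b ∈ B1 := hsub hb
    have hbM1 : b ∉ M1 := fun hm => (Finset.disjoint_left.1 hok.1) hm hbB
    have hbq : b ≠ C.pt q0 := fun e => hleg0.1 (by
      have : C.pt q0 ∈ M1 ∪ B1 := e ▸ Finset.mem_union_right _ hbB
      exact this)
    have hbox := C.hit_box hq0 hq0b.1.le hq0b.2.le hi hbq hit
    have hsne := steep_nonempty (N := C.N) (V0 := C.V0) (κ := C.K - 2) (t := C.t)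
      (by linarith) (by rw [C.hK]; have : (0 : ℝ) ≤ C.N := Nat.cast_nonneg _; linarith)
      hbox.1 hbox.2 (by
        intro j hj hjj
        apply hbM1
        have h1 := phi_cX (z := C.z) (σ := C.σ) hr hε b
        rw [hjj.1, hjj.2] at h1
        rw [← h1]
        exact hY j hj)
    obtain ⟨q, hq, hleg⟩ := exists_legal_chart (z := C.z) (σ := C.σ) hok.2 hr hε
      (steep_isOpen C.N C.V0 (C.K - 2) C.t _ _) hsne
    refine ⟨q, hq.1, hleg, ?_⟩
    have hst : (cH C.z C.r C.σ C.ε b - q.2) / (cX C.z C.r b - q.1) ∈ Ioo (C.K - 2) (C.K - 1) := by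
      have h1 := hq.2.2
      refine ⟨h1.1, ?_⟩
      have := h1.2
      linarith
    have hnoh : ∀ a ∈ C.idx Γ, ¬ C.hit (C.pt q) b a := fun a ha =>
      C.steep_no_hit hΓ hq.1 hq.2.1 hst ha
    have hss : ((C.idx Γ).filter fun a => ∃ b ∈ B1 \ C.B, C.hit (C.pt q) b a) ⊆
        ((C.idx Γ).filter fun a => ∃ b' ∈ (B1 \ C.B).erase b, C.hit (C.pt q) b' a) := by
      intro a ha
      obtain ⟨h1, b', hb', hh⟩ := Finset.mem_filter.1 ha
      refine Finset.mem_filter.2 ⟨h1, b', Finset.mem_erase.2 ⟨?_, hb'⟩, hh⟩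
      rintro rfl
      exact hnoh a h1 hh
    have h1 := Finset.card_le_card hss
    have h2 := C.helper80_card hΓ hok hM hY hq.1 hleg (Q := (B1 \ C.B).erase b)
      (fun x hx => hsub (Finset.mem_of_mem_erase hx))
    have h3 := Finset.card_erase_of_mem hb
    have h4 : 0 < (B1 \ C.B).card := Finset.card_pos.2 ⟨b, hb⟩
    omega

end Ctx

end Pool.Agent.KHG77
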