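import Pool.Agent.KHG77.FlagB
import Pool.Agent.KHG77.Legal
import Pool.Agent.KHG77.Alg

/-!
# KHG77.NodeDef: statement of the node lemma

Windows of the cell `(c, c + nw * w)`: `(c + m * w, c + (m + 1) * w)`, `m < nw`.
A watched item `(s, V, lo, hi)` is a flag `V` of side `s` with slopes in `(lo, hi)`, an interval
disjoint from the cell.
-/

namespace Pool.Agent.KHG77

open Set Filter Topology

/-- The target of the node lemma. `lv s` is the level of the base flags of side `s`. -/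
def NodeTarget (lv : Bool → ℕ) (c C : ℝ) (z : Pt) (B : Finset Pt)
    (WL : Finset (Bool × Finset Pt × ℝ × ℝ)) (Γ : Finset (Bool × Finset Pt))
    (M' B' : Finset Pt) : Prop :=
  ∃ x ∈ M',
    (∀ t ∈ WL, (∀ v ∈ t.2.1, 0 < sg t.1 * (v.1 - x.1)) ∧
      (∀ v ∈ t.2.1, sl x v ∈ Ioo t.2.2.1 t.2.2.2) ∧
      (Flag M' B' x t.1 t.2.1 ∨ ∃ b ∈ B' \ B, b ∈ convexHull ℝ (insert x (t.2.1 : Set Pt)))) ∧
    (∀ t ∈ WL, ∀ t' ∈ WL, Sepd z (t.1, t.2.1) (t'.1, t'.2.1) →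
      Sepd x (t.1, t.2.1) (t'.1, t'.2.1)) ∧
    ∃ New : Finset (Bool × Finset Pt),
      (∀ ν ∈ New, Flag M' B' x ν.1 ν.2 ∧ ν.2.card = lv ν.1 + 1 ∧ ∀ u ∈ ν.2, sl x u ∈ Ioo c C) ∧
      PairSep x New ∧
      ∃ Γ' ⊆ Γ, (∀ γ ∈ Γ', Flag M' B' x γ.1 γ.2) ∧ Γ.card + 1 ≤ New.card + Γ'.card

/-- The node property for at most `g` golden flags, at most `d` bad windows and `nw` windows per
cell: Maker can force `NodeTarget` within `g + 2` rounds. -/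
def NodeProp (g d nw : ℕ) : Prop :=
  ∀ (c w : ℝ), 0 < w → ∀ (lv : Bool → ℕ), (∀ s, 1 ≤ lv s) → ∀ (M B : Finset Pt) (z : Pt),
  Ok M B → z ∈ M →
  ∀ (U : Bool → ℕ → Finset Pt) (Bad : Bool → Finset ℕ), (∀ s, (Bad s).card ≤ d) →
  (∀ s m, m < nw → m ∉ Bad s → Flag M B z s (U s m) ∧ (U s m).card = lv s ∧
    ∀ u ∈ U s m, sl z u ∈ Ioo (c + m * w) (c + (m + 1) * w)) →
  ∀ (WL : Finset (Bool × Finset Pt × ℝ × ℝ)),
  (∀ t ∈ WL, Flag M B z t.1 t.2.1 ∧ (∀ v ∈ t.2.1, sl z v ∈ Ioo t.2.2.1 t.2.2.2) ∧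
    (t.2.2.2 ≤ c ∨ c + nw * w ≤ t.2.2.1)) →
  ∀ (Γ : Finset (Bool × Finset Pt)), Γ.card ≤ g →
  (∀ γ ∈ Γ, ∃ lo hi, (γ.1, γ.2, lo, hi) ∈ WL) → PairSep z Γ →
  Force (NodeTarget lv c (c + nw * w) z B WL Γ) (g + 2) M B

end Pool.Agent.KHG77
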