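import Pool.Agent.KHG77.Stage2
import Pool.Agent.KHG77.Node

/-!
# KHG77.Stage: the stage lemma
-/

namespace Pool.Agent.KHG77

open Set Filter Topology

/-- Inclusion of slope intervals with integer endpoints. -/
lemma helper67_Ioo {p w : ℝ} (hw : 0 < w) {k m₁ m₂ k' : ℕ} (h1 : k ≤ m₁) (h2 : m₂ ≤ k') {x : ℝ}
    (hx : x ∈ Ioo (p + (m₁ : ℝ) * w) (p + (m₂ : ℝ) * w)) :
    x ∈ Ioo (p + (k : ℝ) * w) (p + (k' : ℝ) * w) := by
  have e1 : (k : ℝ) * w ≤ (m₁ : ℝ) * w :=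
    mul_le_mul_of_nonneg_right (by exact_mod_cast h1) hw.le
  have e2 : (m₂ : ℝ) * w ≤ (k' : ℝ) * w :=
    mul_le_mul_of_nonneg_right (by exact_mod_cast h2) hw.le
  exact ⟨by have := hx.1; linarith, by have := hx.2; linarith⟩

/-- From a rich position one gets the initial state of a stage. -/
theorem state_of_rich {a b D Hc nw : ℕ} (ha : 1 ≤ a) (hb : 1 ≤ b) (hpos : 0 < D * Hc * nw) {M B : Finset Pt}
    (hok : Ok M B) (h : Rich a b (D * Hc * nw) M B) :
    ∃ σ : StageData, σ.D = D ∧ σ.Hc = Hc ∧ σ.nw = nw ∧ σ.lv false = a ∧ σ.lv true = b ∧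
      σ.State (fun _ => 0) (fun _ => 0) 0 M B := by
  classical
  obtain ⟨z, hz, p, w, hw, h⟩ := h
  have key : ∀ (s : Bool) (m : ℕ), ∃ U : Finset Pt, m < D * Hc * nw →
      (Flag M B z s U ∧ ∀ u ∈ U, sl z u ∈ Ioo (p + m * w) (p + (m + 1) * w)) ∧
      U.card = (if s then b else a) := by
    intro s m
    by_cases hm : m < D * Hc * nw
    · obtain ⟨⟨U, hU1, hU2, hU3⟩, ⟨V, hV1, hV2, hV3⟩⟩ := h m hm
      cases s with
      | false => exact ⟨U, fun _ => ⟨⟨hU1, hU3⟩, by simpa using hU2⟩⟩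
      | true => exact ⟨V, fun _ => ⟨⟨hV1, hV3⟩, by simpa using hV2⟩⟩
    · exact ⟨∅, fun h' => absurd h' hm⟩
  choose U hU using key
  refine ⟨{ p := p, w := w, hw := hw, D := D, Hc := Hc, nw := nw,
            lv := fun s => if s then b else a,
            lv_pos := by intro s; cases s <;> simp [ha, hb],
            U := U,
            card_U := fun s m hm => (hU s m hm).2 }, rfl, rfl, rfl, by simp, by simp, hok, z, hz,
            ∅, ?_, ?_, ?_⟩
  · intro d _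
    simp
  · intro s
    simp only [Finset.notMem_empty, not_false_eq_true, true_and, nonpos_iff_eq_zero,
      Finset.card_eq_zero]
    rw [Finset.filter_eq_empty_iff]
    intro m hm
    rw [Finset.mem_range] at hm
    rw [not_not]
    exact (hU s m hm).1
  · intro d _
    exact ⟨∅, by simp, by intro γ hγ; simp at hγ, by intro γ hγ; simp at hγ⟩

/-- A base flag in each block. -/
lemma helper67_base (σ : StageData) {M B : Finset Pt} {z : Pt} {used : Finset ℕ} {d H T : ℕ}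
    (hd : d < σ.D) (hH : H < σ.Hc) (hT : 2 * T < σ.nw)
    (h1 : (used.filter fun c => c / σ.Hc = d).card ≤ H) (s : Bool)
    (h2 : ∀ F : Finset ℕ, (∀ m ∈ F, m < σ.D * σ.Hc * σ.nw ∧ m / σ.nw ∉ used ∧
      ¬ σ.Good M B z s m) → F.card ≤ 2 * T) :
    ∃ U, Flag M B z s U ∧ U.card = σ.lv s ∧ ∀ u ∈ U, sl z u ∈
      Ioo (σ.p + ((d * (σ.Hc * σ.nw) : ℕ) : ℝ) * σ.w)
        (σ.p + (((d + 1) * (σ.Hc * σ.nw) : ℕ) : ℝ) * σ.w) := by
  classical
  have hHc : 0 < σ.Hc := by omega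
  have hnw : 0 < σ.nw := by omega
  -- an unused cell
  obtain ⟨c, hc, hcu⟩ : ∃ c < σ.Hc, d * σ.Hc + c ∉ used := by
    by_contra hcon
    push Not at hcon
    have hsub : (Finset.range σ.Hc).image (fun c => d * σ.Hc + c) ⊆
        used.filter fun c => c / σ.Hc = d := by
      intro x hx
      rw [Finset.mem_image] at hx
      obtain ⟨c, hc, rfl⟩ := hx
      rw [Finset.mem_range] at hc
      rw [Finset.mem_filter]
      refine ⟨hcon c hc, ?_⟩
      rw [Nat.add_comm, Nat.add_mul_div_right _ _ hHc, Nat.div_eq_of_lt hc, Nat.zero_add]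
    have hcard := Finset.card_le_card hsub
    rw [Finset.card_image_of_injective _ (by intro x y h; simpa using h),
      Finset.card_range] at hcard
    omega
  set c' := d * σ.Hc + c with hc'
  have hc'1 : d * σ.Hc ≤ c' := by omega
  have hc'2 : c' + 1 ≤ (d + 1) * σ.Hc := by
    rw [Nat.add_mul, Nat.one_mul]; omega
  -- a good window
  obtain ⟨j, hj, hjg⟩ : ∃ j < σ.nw, σ.Good M B z s (c' * σ.nw + j) := by
    by_contra hcon
    push Not at hcon
    have hF := h2 ((Finset.range σ.nw).image fun j => c' * σ.nw + j) (by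
      intro m hm
      rw [Finset.mem_image] at hm
      obtain ⟨j, hj, rfl⟩ := hm
      rw [Finset.mem_range] at hj
      refine ⟨?_, ?_, hcon j hj⟩
      · have e0 : (c' + 1) * σ.nw = c' * σ.nw + σ.nw := by ring
        have e1 : c' * σ.nw + j < (c' + 1) * σ.nw := by omega
        have e2 : (c' + 1) * σ.nw ≤ (d + 1) * σ.Hc * σ.nw := Nat.mul_le_mul_right _ hc'2
        have e3 : (d + 1) * σ.Hc * σ.nw ≤ σ.D * σ.Hc * σ.nw :=
          Nat.mul_le_mul_right _ (Nat.mul_le_mul_right _ hd)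
        omega
      · rw [Nat.add_comm, Nat.add_mul_div_right _ _ hnw, Nat.div_eq_of_lt hj, Nat.zero_add]
        exact hcu)
    rw [Finset.card_image_of_injective _ (by intro x y h; simpa using h),
      Finset.card_range] at hF
    omega
  have hm1 : d * (σ.Hc * σ.nw) ≤ c' * σ.nw + j := by
    have : d * σ.Hc * σ.nw ≤ c' * σ.nw := Nat.mul_le_mul_right _ hc'1
    rw [← Nat.mul_assoc]
    omega
  have hm2 : c' * σ.nw + j + 1 ≤ (d + 1) * (σ.Hc * σ.nw) := by
    have e2 : (c' + 1) * σ.nw ≤ (d + 1) * σ.Hc * σ.nw := Nat.mul_le_mul_right _ hc'2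
    have e0 : (c' + 1) * σ.nw = c' * σ.nw + σ.nw := by ring
    have e1 : c' * σ.nw + j + 1 ≤ (c' + 1) * σ.nw := by omega
    rw [← Nat.mul_assoc]
    omega
  refine ⟨_, hjg.1, σ.card_U s _ ?_, fun u hu => ?_⟩
  · have e3 : (d + 1) * (σ.Hc * σ.nw) ≤ σ.D * (σ.Hc * σ.nw) := Nat.mul_le_mul_right _ hd
    rw [Nat.mul_assoc]
    omega
  · have := hjg.2 u hu
    refine helper67_Ioo σ.hw hm1 hm2 ?_
    push_cast at this ⊢
    exact this

/-- The dichotomy at the end of a stage. -/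
theorem rich_of_state {a b n H T : ℕ} (hn : 0 < n) (σ : StageData) (hD : σ.D = n * n)
    (hH : H < σ.Hc) (hT : 2 * T < σ.nw) (ha : σ.lv false = a) (hb : σ.lv true = b)
    {M B : Finset Pt}
    (h : σ.State (fun d => if d < n * n then 1 else 0) (fun d => if d < n * n then H else 0)
      (2 * T) M B) : Rich (a + 1) b n M B ∨ Rich a (b + 1) n M B := by
  classical
  obtain ⟨hok, z, hz, used, h1, h2, h3⟩ := h
  have hHc : 0 < σ.Hc := by omega
  have hnw : 0 < σ.nw := by omega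
  -- base flags
  have hbase : ∀ d < n * n, ∀ s, ∃ U, Flag M B z s U ∧ U.card = σ.lv s ∧ ∀ u ∈ U, sl z u ∈
      Ioo (σ.p + ((d * (σ.Hc * σ.nw) : ℕ) : ℝ) * σ.w)
        (σ.p + (((d + 1) * (σ.Hc * σ.nw) : ℕ) : ℝ) * σ.w) := by
    intro d hd s
    refine helper67_base σ (T := T) (by rw [hD]; exact hd) hH hT
      (by simpa [hd] using h1 d (by rw [hD]; exact hd)) s ?_
    intro F hF
    refine (Finset.card_le_card ?_).trans (h2 s)
    intro m hm
    rw [Finset.mem_filter, Finset.mem_range]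
    exact hF m hm
  -- golden flags
  have hgold : ∀ d < n * n, ∃ s, ∃ U, Flag M B z s U ∧ U.card = σ.lv s + 1 ∧
      ∀ u ∈ U, sl z u ∈
      Ioo (σ.p + ((d * (σ.Hc * σ.nw) : ℕ) : ℝ) * σ.w)
        (σ.p + (((d + 1) * (σ.Hc * σ.nw) : ℕ) : ℝ) * σ.w) := by
    intro d hd
    obtain ⟨G, hG1, -, hG3⟩ := h3 d (by rw [hD]; exact hd)
    have hG1' : 0 < G.card := by
      have : (if d < n * n then 1 else 0) = 1 := by simp [hd]
      simp only [this] at hG1
      omega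
    obtain ⟨γ, hγ⟩ := Finset.card_pos.mp hG1'
    obtain ⟨hf, hcard, c, -, hcd, hsl⟩ := hG3 γ hγ
    refine ⟨γ.1, γ.2, hf, hcard, fun u hu => ?_⟩
    have hc1 : d * σ.Hc ≤ c := by
      rw [← hcd]; exact Nat.div_mul_le_self _ _
    have hc2 : c + 1 ≤ (d + 1) * σ.Hc := by
      rw [← hcd]
      have := Nat.lt_mul_div_succ c hHc
      rw [Nat.mul_comm]
      exact this
    refine helper67_Ioo σ.hw (m₁ := c * σ.nw) (m₂ := (c + 1) * σ.nw) ?_ ?_ (hsl u hu)
    · rw [← Nat.mul_assoc]; exact Nat.mul_le_mul_right _ hc1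
    · rw [← Nat.mul_assoc]; exact Nat.mul_le_mul_right _ hc2
  by_cases hcase : ∃ g < n, ∀ m < n, ¬ ∃ U, Flag M B z false U ∧ U.card = σ.lv false + 1 ∧
      ∀ u ∈ U, sl z u ∈ Ioo (σ.p + (((g * n + m) * (σ.Hc * σ.nw) : ℕ) : ℝ) * σ.w)
        (σ.p + (((g * n + m + 1) * (σ.Hc * σ.nw) : ℕ) : ℝ) * σ.w)
  · right
    obtain ⟨g, hg, hno⟩ := hcase
    refine ⟨z, hz, σ.p + ((g * n * (σ.Hc * σ.nw) : ℕ) : ℝ) * σ.w,
      ((σ.Hc * σ.nw : ℕ) : ℝ) * σ.w, ?_, ?_⟩
    · exact mul_pos (by exact_mod_cast Nat.mul_pos hHc hnw) σ.hw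
    intro m hm
    have hd : g * n + m < n * n := by
      have : (g + 1) * n ≤ n * n := Nat.mul_le_mul_right _ hg
      rw [Nat.add_mul, Nat.one_mul] at this
      omega
    have e1 : σ.p + ((g * n * (σ.Hc * σ.nw) : ℕ) : ℝ) * σ.w +
        (m : ℝ) * (((σ.Hc * σ.nw : ℕ) : ℝ) * σ.w) =
        σ.p + (((g * n + m) * (σ.Hc * σ.nw) : ℕ) : ℝ) * σ.w := by
      push_cast; ring
    have e2 : σ.p + ((g * n * (σ.Hc * σ.nw) : ℕ) : ℝ) * σ.w +
        ((m : ℝ) + 1) * (((σ.Hc * σ.nw : ℕ) : ℝ) * σ.w) =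
        σ.p + (((g * n + m + 1) * (σ.Hc * σ.nw) : ℕ) : ℝ) * σ.w := by
      push_cast; ring
    rw [e1, e2]
    constructor
    · obtain ⟨U, hU1, hU2, hU3⟩ := hbase _ hd false
      exact ⟨U, hU1, hU2.trans ha, hU3⟩
    · obtain ⟨s, U, hU1, hU2, hU3⟩ := hgold _ hd
      cases s with
      | false => exact absurd ⟨U, hU1, hU2, hU3⟩ (hno m hm)
      | true => exact ⟨U, hU1, by rw [hU2, hb], hU3⟩
  · left
    push Not at hcase
    refine ⟨z, hz, σ.p, ((n * (σ.Hc * σ.nw) : ℕ) : ℝ) * σ.w, ?_, ?_⟩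
    · exact mul_pos (by exact_mod_cast Nat.mul_pos hn (Nat.mul_pos hHc hnw)) σ.hw
    intro g hg
    obtain ⟨m, hm, U, hU1, hU2, hU3⟩ := hcase g hg
    have hd : g * n + m < n * n := by
      have : (g + 1) * n ≤ n * n := Nat.mul_le_mul_right _ hg
      rw [Nat.add_mul, Nat.one_mul] at this
      omega
    have e1 : σ.p + (g : ℝ) * (((n * (σ.Hc * σ.nw) : ℕ) : ℝ) * σ.w) =
        σ.p + ((g * n * (σ.Hc * σ.nw) : ℕ) : ℝ) * σ.w := by
      push_cast; ring
    have e2 : σ.p + ((g : ℝ) + 1) * (((n * (σ.Hc * σ.nw) : ℕ) : ℝ) * σ.w) =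
        σ.p + (((g + 1) * n * (σ.Hc * σ.nw) : ℕ) : ℝ) * σ.w := by
      push_cast; ring
    have hle1 : g * n * (σ.Hc * σ.nw) ≤ (g * n + m) * (σ.Hc * σ.nw) :=
      Nat.mul_le_mul_right _ (by omega)
    have hle2 : (g * n + m + 1) * (σ.Hc * σ.nw) ≤ (g + 1) * n * (σ.Hc * σ.nw) :=
      Nat.mul_le_mul_right _ (by rw [Nat.add_mul, Nat.one_mul]; omega)
    rw [e1, e2]
    constructor
    · exact ⟨U, hU1, by rw [hU2, ha], fun u hu => helper67_Ioo σ.hw hle1 hle2 (hU3 u hu)⟩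
    · obtain ⟨V, hV1, hV2, hV3⟩ := hbase _ hd true
      exact ⟨V, hV1, hV2.trans hb, fun u hu => helper67_Ioo σ.hw hle1 hle2 (hV3 u hu)⟩

/-- **Stage lemma.** -/
theorem stage (a b n : ℕ) (ha : 1 ≤ a) (hb : 1 ≤ b) (hn : 0 < n) : ∃ n' T : ℕ, 0 < n' ∧ ∀ M B, Ok M B → Rich a b n' M B →
    Force (fun M' B' => Rich (a + 1) b n M' B' ∨ Rich a (b + 1) n M' B') T M B := by
  classical
  obtain ⟨T, H, G, hbl⟩ := blocks (n * n) 1
  choose n0 hn0 using fun g => node g (2 * T)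
  set nw := 2 * T + 1 + ∑ g ∈ Finset.range G, n0 g with hnwdef
  have hnw : ∀ g < G, n0 g ≤ nw := by
    intro g hg
    have := Finset.single_le_sum (f := n0) (fun i _ => Nat.zero_le _)
      (Finset.mem_range.mpr hg)
    omega
  have hpos : 0 < n * n * (H + 1) * nw := by
    have : 0 < nw := by omega
    positivity
  refine ⟨n * n * (H + 1) * nw, T, hpos, ?_⟩
  intro M B hok hR
  obtain ⟨σ, hσD, hσH, hσn, hσa, hσb, hst⟩ := state_of_rich ha hb hpos hok hR
  have h1 := hbl σ (by rw [hσn]; omega) (by rw [hσD]) (by rw [hσH]; omega)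
    (fun g hg => by rw [hσn]; exact hn0 g nw (hnw g hg)) M B hst
  refine Force.mono ?_ le_rfl h1
  intro M' B' h'
  exact rich_of_state hn σ hσD (H := H) (T := T) (by rw [hσH]; omega) (by rw [hσn]; omega)
    hσa hσb h'

end Pool.Agent.KHG77
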