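import Pool.Agent.KHG77.StageDef

/-!
# KHG77.Stage1: one node in a fresh cell of block `d`
-/

namespace Pool.Agent.KHG77

open Set Filter Topology

/-- Counting items that are hit by distinct points. -/
theorem helper3_card_le {ι : Type*} (K : Finset ι) (S : Finset Pt) (P : ι → Pt → Prop)
    (h1 : ∀ i ∈ K, ∃ b ∈ S, P i b) (h2 : ∀ i ∈ K, ∀ j ∈ K, i ≠ j → ∀ b ∈ S, P i b → P j b → False) :
    K.card ≤ S.card := by
  classical
  choose! f hf hP using h1
  refine Finset.card_le_card_of_injOn f (fun i hi => hf i hi) ?_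
  intro i hi j hj hij
  by_contra hne
  exact h2 i hi j hj hne (f i) (hf i hi) (hP i hi) (by rw [hij]; exact hP j hj)

/-- A new Breaker point is not collinear with `x` and a vertex. -/
theorem helper3_det3_ne {M B : Finset Pt} (hok : Ok M B) {x v b : Pt} (hx : x ∈ M) (hv : v ∈ M)
    (hb : b ∈ B) (hvx : v ≠ x) : det3 x v b ≠ 0 := by
  intro h0
  have hbx : b ≠ x := fun h => (Finset.disjoint_left.1 hok.1) hx (h ▸ hb)
  have hbv : b ≠ v := fun h => (Finset.disjoint_left.1 hok.1) hv (h ▸ hb)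
  exact hok.2 x (Finset.mem_union_left _ hx) v (Finset.mem_union_left _ hv) b
    (Finset.mem_union_right _ hb) (Ne.symm hvx) (Ne.symm hbx) (Ne.symm hbv)
    ((collinear_iff_det3 x v b).2 h0)

/-- Two watched items that are separated at `x` are not hit by the same Breaker point. -/
theorem helper3_hit {M B : Finset Pt} (hok : Ok M B) {x b : Pt} (hx : x ∈ M) (hb : b ∈ B)
    {γ γ' : Bool × Finset Pt} (hγ : γ.2 ⊆ M)
    (hs : ∀ v ∈ γ.2, 0 < sg γ.1 * (v.1 - x.1)) (hs' : ∀ v ∈ γ'.2, 0 < sg γ'.1 * (v.1 - x.1))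
    (hsep : Sepd x γ γ')
    (hq : b ∈ convexHull ℝ (insert x (γ.2 : Set Pt)))
    (hq' : b ∈ convexHull ℝ (insert x (γ'.2 : Set Pt))) : False := by
  refine hit_unique hs hs' hsep (fun h => (Finset.disjoint_left.1 hok.1) hx (h ▸ hb)) ?_ hq hq'
  intro v hv
  refine helper3_det3_ne hok hx (hγ hv) hb ?_
  rintro rfl
  have := hs v hv
  simp at this

/-- Separation from slopes in disjoint intervals. -/
theorem helper3_sepd {x : Pt} {γ γ' : Bool × Finset Pt} {lo hi lo' hi' : ℝ}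
    (h : ∀ v ∈ γ.2, sl x v ∈ Ioo lo hi) (h' : ∀ v ∈ γ'.2, sl x v ∈ Ioo lo' hi')
    (hd : hi ≤ lo' ∨ hi' ≤ lo) : Sepd x γ γ' := by
  rcases hd with hd | hd
  · exact Or.inr (Or.inl fun u hu u' hu' =>
      Or.inr (lt_of_lt_of_le (h u hu).2 (hd.trans (h' u' hu').1.le)))
  · exact Or.inr (Or.inr fun u hu u' hu' =>
      Or.inr (lt_of_lt_of_le (h' u hu).2 (hd.trans (h u' hu').1.le)))

theorem helper3_cell_disj (σ : StageData) {c c' : ℕ} (h : c ≠ c') :
    σ.p + ((c + 1) * σ.nw : ℕ) * σ.w ≤ σ.p + (c' * σ.nw : ℕ) * σ.w ∨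
    σ.p + ((c' + 1) * σ.nw : ℕ) * σ.w ≤ σ.p + (c * σ.nw : ℕ) * σ.w := by
  have hw := σ.hw.le
  rcases lt_or_gt_of_ne h with h | h
  · left
    have : (((c + 1) * σ.nw : ℕ) : ℝ) ≤ ((c' * σ.nw : ℕ) : ℝ) := by
      exact_mod_cast Nat.mul_le_mul_right _ h
    have := mul_le_mul_of_nonneg_right this hw
    linarith
  · right
    have : (((c' + 1) * σ.nw : ℕ) : ℝ) ≤ ((c * σ.nw : ℕ) : ℝ) := by
      exact_mod_cast Nat.mul_le_mul_right _ h
    have := mul_le_mul_of_nonneg_right this hw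
    linarith

theorem helper3_win_disj (σ : StageData) {m m' : ℕ} (h : m ≠ m') :
    σ.p + ((m : ℝ) + 1) * σ.w ≤ σ.p + (m' : ℝ) * σ.w ∨
    σ.p + ((m' : ℝ) + 1) * σ.w ≤ σ.p + (m : ℝ) * σ.w := by
  have hw := σ.hw.le
  rcases lt_or_gt_of_ne h with h | h
  · left
    have : ((m : ℝ) + 1) ≤ (m' : ℝ) := by exact_mod_cast h
    have := mul_le_mul_of_nonneg_right this hw
    linarith
  · right
    have : ((m' : ℝ) + 1) ≤ (m : ℝ) := by exact_mod_cast h
    have := mul_le_mul_of_nonneg_right this hw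
    linarith

/-- A window outside a cell. -/
theorem helper3_win_cell (σ : StageData) (hnw : 0 < σ.nw) {m c : ℕ} (h : m / σ.nw ≠ c) :
    σ.p + ((m : ℝ) + 1) * σ.w ≤ σ.p + (c * σ.nw : ℕ) * σ.w ∨
    σ.p + (c * σ.nw : ℕ) * σ.w + σ.nw * σ.w ≤ σ.p + (m : ℝ) * σ.w := by
  have hw := σ.hw.le
  rcases lt_or_gt_of_ne h with h | h
  · left
    have h1 : m < c * σ.nw := (Nat.div_lt_iff_lt_mul hnw).1 h
    have : ((m : ℝ) + 1) ≤ ((c * σ.nw : ℕ) : ℝ) := by exact_mod_cast h1
    have := mul_le_mul_of_nonneg_right this hw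
    linarith
  · right
    have h1 : (c + 1) * σ.nw ≤ m := (Nat.le_div_iff_mul_le hnw).1 h
    have h2 : ((c * σ.nw : ℕ) : ℝ) + σ.nw ≤ (m : ℝ) := by
      have : (((c + 1) * σ.nw : ℕ) : ℝ) ≤ (m : ℝ) := by exact_mod_cast h1
      push_cast at this ⊢
      linarith
    have := mul_le_mul_of_nonneg_right h2 hw
    linarith

/-- A fresh cell in block `d`. -/
theorem helper3_fresh (σ : StageData) {d k : ℕ} (used : Finset ℕ)
    (h : (used.filter fun c => c / σ.Hc = d).card ≤ k) (hk : k < σ.Hc) :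
    ∃ c0, c0 ∉ used ∧ c0 / σ.Hc = d := by
  by_contra hcon
  push Not at hcon
  have hH : 0 < σ.Hc := by omega
  have hsub : (Finset.range σ.Hc).image (fun i => d * σ.Hc + i) ⊆
      used.filter fun c => c / σ.Hc = d := by
    intro c hc
    obtain ⟨i, hi, rfl⟩ := Finset.mem_image.1 hc
    have hi' := Finset.mem_range.1 hi
    have hdiv : (d * σ.Hc + i) / σ.Hc = d := by
      rw [Nat.mul_comm, Nat.mul_add_div hH, Nat.div_eq_of_lt hi', Nat.add_zero]
    refine Finset.mem_filter.2 ⟨?_, hdiv⟩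
    by_contra hno
    exact hcon _ hno hdiv
  have h1 := Finset.card_le_card hsub
  rw [Finset.card_image_of_injective _ (fun i j hij => Nat.add_left_cancel hij),
    Finset.card_range] at h1
  omega

/-- One node: block `d` has exactly `g` counted golden flags and an unused cell; after `g + 2`
rounds it has `g + 1`, every other block has lost at most `2 (g + 2)`. -/
theorem nodeStep (σ : StageData) {g dm : ℕ} (hnode : NodeProp g dm σ.nw) (hnw : 0 < σ.nw)
    {n e : ℕ → ℕ} {β d : ℕ} (hd : d < σ.D) (hg : n d = g) (he : e d < σ.Hc) (hβ : β ≤ dm)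
    {M B : Finset Pt} (h : σ.State n e β M B) :
    Force (σ.State (fun d' => if d' = d then g + 1 else n d' - 2 * (g + 2))
      (fun d' => if d' = d then e d + 1 else e d') (β + 2 * (g + 2))) (g + 2) M B := by
  classical
  obtain ⟨hok, z, hz, used, hused, hbad, hgold⟩ := h
  obtain ⟨c0, hc0, hc0d⟩ := helper3_fresh σ used (hused d hd) he
  choose! G hGn hGsep hG using hgold
  choose! cc hcc using fun d' (hd' : d' < σ.D) (γ : Bool × Finset Pt) (hγ : γ ∈ G d') =>
    (hG d' hd' γ hγ).2.2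
  -- the golden subfamily
  obtain ⟨Γ, hΓG, hΓc⟩ := Finset.exists_subset_card_eq (show g ≤ (G d).card by
    rw [← hg]; exact hGn d hd)
  -- watch list
  let WLg : Finset (Bool × Finset Pt × ℝ × ℝ) := (Finset.range σ.D).biUnion fun d' =>
    (G d').image fun γ => (γ.1, γ.2, σ.p + (cc d' γ * σ.nw : ℕ) * σ.w,
      σ.p + ((cc d' γ + 1) * σ.nw : ℕ) * σ.w)
  let WLb : Finset (Bool × Finset Pt × ℝ × ℝ) := (Finset.univ : Finset Bool).biUnion fun s =>
    ((Finset.range (σ.D * σ.Hc * σ.nw)).filter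
      fun m => m / σ.nw ∉ insert c0 used ∧ σ.Good M B z s m).image
      fun m => (s, σ.U s m, σ.p + (m : ℝ) * σ.w, σ.p + ((m : ℝ) + 1) * σ.w)
  have hmg : ∀ d' < σ.D, ∀ γ ∈ G d', (γ.1, γ.2, σ.p + (cc d' γ * σ.nw : ℕ) * σ.w,
      σ.p + ((cc d' γ + 1) * σ.nw : ℕ) * σ.w) ∈ WLg ∪ WLb := by
    intro d' hd' γ hγ
    exact Finset.mem_union_left _ (Finset.mem_biUnion.2 ⟨d', Finset.mem_range.2 hd',
      Finset.mem_image.2 ⟨γ, hγ, rfl⟩⟩)
  have hmb : ∀ s, ∀ m < σ.D * σ.Hc * σ.nw, m / σ.nw ∉ insert c0 used → σ.Good M B z s m →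
      (s, σ.U s m, σ.p + (m : ℝ) * σ.w, σ.p + ((m : ℝ) + 1) * σ.w) ∈ WLg ∪ WLb := by
    intro s m hm hmu hgd
    exact Finset.mem_union_right _ (Finset.mem_biUnion.2 ⟨s, Finset.mem_univ _,
      Finset.mem_image.2 ⟨m, Finset.mem_filter.2 ⟨Finset.mem_range.2 hm, hmu, hgd⟩, rfl⟩⟩)
  have hForce := hnode (σ.p + (c0 * σ.nw : ℕ) * σ.w) σ.w σ.hw σ.lv σ.lv_pos M B z hok hz
    (fun s j => σ.U s (c0 * σ.nw + j))
    (fun s => (Finset.range σ.nw).filter fun j => ¬ σ.Good M B z s (c0 * σ.nw + j))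
    ?_ ?_ (WLg ∪ WLb) ?_ Γ hΓc.le ?_ ?_
  · -- main part
    refine Force.mono (n := g + 2) ?_ le_rfl (hForce.track hok)
    rintro M' B' ⟨⟨x, hxM', hN1, hN1', New, hNew, hNewSep, Γ', hΓ'Γ, hΓ'fl, hcount⟩, hok', hMM', hBB',
      hBcard, -⟩
    have hcellx : ∀ d' < σ.D, ∀ γ ∈ G d', ∀ v ∈ γ.2, sl x v ∈ σ.cellI (cc d' γ) := by
      intro d' hd' γ hγ v hv
      exact (hN1 _ (hmg d' hd' γ hγ)).2.1 v hv
    have hsidex : ∀ d' < σ.D, ∀ γ ∈ G d', ∀ v ∈ γ.2, 0 < sg γ.1 * (v.1 - x.1) := by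
      intro d' hd' γ hγ v hv
      exact (hN1 _ (hmg d' hd' γ hγ)).1 v hv
    have hsepx : ∀ d' < σ.D, ∀ γ ∈ G d', ∀ γ' ∈ G d', γ ≠ γ' → Sepd x γ γ' := by
      intro d' hd' γ hγ γ' hγ' hne
      exact hN1' _ (hmg d' hd' γ hγ) _ (hmg d' hd' γ' hγ') (hGsep d' hd' γ hγ γ' hγ' hne)
    refine ⟨hok', x, hxM', insert c0 used, ?_, ?_, ?_⟩
    · intro d' hd'
      rw [Finset.filter_insert]
      by_cases hdd : d' = d
      · subst hdd
        simp only [hc0d, if_true]
        exact (Finset.card_insert_le _ _).trans (Nat.succ_le_succ (hused d' hd'))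
      · rw [if_neg (show ¬ c0 / σ.Hc = d' by rw [hc0d]; exact Ne.symm hdd)]
        simp only [if_neg hdd]
        exact hused d' hd'
    · intro s
      have hsplit : ((Finset.range (σ.D * σ.Hc * σ.nw)).filter
          fun m => m / σ.nw ∉ insert c0 used ∧ ¬ σ.Good M' B' x s m) ⊆
          ((Finset.range (σ.D * σ.Hc * σ.nw)).filter
            fun m => m / σ.nw ∉ used ∧ ¬ σ.Good M B z s m) ∪
          ((Finset.range (σ.D * σ.Hc * σ.nw)).filter
            fun m => m / σ.nw ∉ insert c0 used ∧ σ.Good M B z s m ∧ ¬ σ.Good M' B' x s m) := by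
        intro m hm
        obtain ⟨hm1, hm2, hm3⟩ := Finset.mem_filter.1 hm
        by_cases hgd : σ.Good M B z s m
        · exact Finset.mem_union_right _ (Finset.mem_filter.2 ⟨hm1, hm2, hgd, hm3⟩)
        · exact Finset.mem_union_left _ (Finset.mem_filter.2
            ⟨hm1, fun hc => hm2 (Finset.mem_insert_of_mem hc), hgd⟩)
      have hk : ((Finset.range (σ.D * σ.Hc * σ.nw)).filter
            fun m => m / σ.nw ∉ insert c0 used ∧ σ.Good M B z s m ∧ ¬ σ.Good M' B' x s m).card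
            ≤ (B' \ B).card := by
        refine helper3_card_le _ _ (fun m b => b ∈ convexHull ℝ (insert x (σ.U s m : Set Pt)))
          ?_ ?_
        · intro m hm
          obtain ⟨hm1, hm2, hm3, hm4⟩ := Finset.mem_filter.1 hm
          obtain ⟨hs1, hs2, hs3⟩ := hN1 _ (hmb s m (Finset.mem_range.1 hm1) hm2 hm3)
          rcases hs3 with hs3 | hs3
          · exact absurd ⟨hs3, hs2⟩ hm4
          · exact hs3
        · intro m hm m' hm' hne b hb hP hP'
          obtain ⟨hm1, hm2, hm3, hm4⟩ := Finset.mem_filter.1 hm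
          obtain ⟨hm1', hm2', hm3', hm4'⟩ := Finset.mem_filter.1 hm'
          obtain ⟨hs1, hs2, -⟩ := hN1 _ (hmb s m (Finset.mem_range.1 hm1) hm2 hm3)
          obtain ⟨hs1', hs2', -⟩ := hN1 _ (hmb s m' (Finset.mem_range.1 hm1') hm2' hm3')
          exact helper3_hit (γ := (s, σ.U s m)) (γ' := (s, σ.U s m')) hok' hxM'
            (Finset.mem_sdiff.1 hb).1 (hm3.1.sub.trans hMM') hs1 hs1'
            (helper3_sepd hs2 hs2' (helper3_win_disj σ hne)) hP hP'
      calc _ ≤ _ := Finset.card_le_card hsplit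
        _ ≤ _ := Finset.card_union_le _ _
        _ ≤ _ := Nat.add_le_add (hbad s) (hk.trans hBcard)
    · intro d' hd'
      by_cases hdd : d' = d
      · subst hdd
        have hΓ'G : Γ' ⊆ G d' := hΓ'Γ.trans hΓG
        have hcc0 : ∀ γ ∈ G d', cc d' γ ≠ c0 := fun γ hγ heq =>
          hc0 (heq ▸ (hcc d' hd' γ hγ).1)
        have hNewcell : ∀ ν ∈ New, ∀ u ∈ ν.2, sl x u ∈ σ.cellI c0 := by
          intro ν hν u hu
          have := (hNew ν hν).2.2 u hu
          refine ⟨this.1, ?_⟩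
          have h2 := this.2
          have : σ.p + ((c0 + 1) * σ.nw : ℕ) * σ.w
              = σ.p + (c0 * σ.nw : ℕ) * σ.w + σ.nw * σ.w := by push_cast; ring
          rw [this]; exact h2
        have hcross : ∀ ν ∈ New, ∀ γ ∈ G d', Sepd x ν γ := by
          intro ν hν γ hγ
          exact helper3_sepd (hNewcell ν hν) (hcellx d' hd' γ hγ)
            (helper3_cell_disj σ (Ne.symm (hcc0 γ hγ)))
        have hcross' : ∀ ν ∈ New, ∀ γ ∈ G d', Sepd x γ ν := by
          intro ν hν γ hγ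
          exact helper3_sepd (hcellx d' hd' γ hγ) (hNewcell ν hν)
            (helper3_cell_disj σ (hcc0 γ hγ))
        have hdisj : Disjoint New Γ' := by
          rw [Finset.disjoint_left]
          intro ν hν hν'
          have hcard : 0 < ν.2.card := by
            rw [(hNew ν hν).2.1]; omega
          obtain ⟨u, hu⟩ := Finset.card_pos.1 hcard
          have h1 := hNewcell ν hν u hu
          have h2 := hcellx d' hd' ν (hΓ'G hν') u hu
          rcases helper3_cell_disj σ (hcc0 ν (hΓ'G hν')) with h3 | h3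
          · exact absurd (lt_of_lt_of_le h2.2 (h3.trans h1.1.le)) (lt_irrefl _)
          · exact absurd (lt_of_lt_of_le h1.2 (h3.trans h2.1.le)) (lt_irrefl _)
        refine ⟨New ∪ Γ', ?_, ?_, ?_⟩
        · simp only [if_true]
          rw [Finset.card_union_of_disjoint hdisj]
          omega
        · intro γ hγ γ' hγ' hne
          rcases Finset.mem_union.1 hγ with h1 | h1 <;> rcases Finset.mem_union.1 hγ' with h2 | h2
          · exact hNewSep γ h1 γ' h2 hne
          · exact hcross γ h1 γ' (hΓ'G h2)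
          · exact hcross' γ' h2 γ (hΓ'G h1)
          · exact hsepx d' hd' γ (hΓ'G h1) γ' (hΓ'G h2) hne
        · intro γ hγ
          rcases Finset.mem_union.1 hγ with h1 | h1
          · exact ⟨(hNew γ h1).1, (hNew γ h1).2.1, c0, Finset.mem_insert_self _ _, hc0d,
              hNewcell γ h1⟩
          · have hγG := hΓ'G h1
            exact ⟨hΓ'fl γ h1, (hG d' hd' γ hγG).2.1, cc d' γ,
              Finset.mem_insert_of_mem (hcc d' hd' γ hγG).1, (hcc d' hd' γ hγG).2.1,
              hcellx d' hd' γ hγG⟩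
      · refine ⟨(G d').filter fun γ => Flag M' B' x γ.1 γ.2, ?_, ?_, ?_⟩
        · simp only [if_neg hdd]
          have hk : ((G d').filter fun γ => ¬ Flag M' B' x γ.1 γ.2).card ≤ (B' \ B).card := by
            refine helper3_card_le _ _
              (fun γ b => b ∈ convexHull ℝ (insert x (γ.2 : Set Pt))) ?_ ?_
            · intro γ hγ
              obtain ⟨hγ1, hγ2⟩ := Finset.mem_filter.1 hγ
              obtain ⟨-, -, hs3⟩ := hN1 _ (hmg d' hd' γ hγ1)
              rcases hs3 with hs3 | hs3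
              · exact absurd hs3 hγ2
              · exact hs3
            · intro γ hγ γ' hγ' hne b hb hP hP'
              obtain ⟨hγ1, -⟩ := Finset.mem_filter.1 hγ
              obtain ⟨hγ1', -⟩ := Finset.mem_filter.1 hγ'
              exact helper3_hit hok' hxM' (Finset.mem_sdiff.1 hb).1
                ((hG d' hd' γ hγ1).1.sub.trans hMM') (hsidex d' hd' γ hγ1)
                (hsidex d' hd' γ' hγ1') (hsepx d' hd' γ hγ1 γ' hγ1' hne) hP hP'
          have htot := Finset.card_filter_add_card_filter_not (s := G d')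
            (fun γ => Flag M' B' x γ.1 γ.2)
          have := hGn d' hd'
          omega
        · intro γ hγ γ' hγ' hne
          exact hsepx d' hd' γ (Finset.mem_filter.1 hγ).1 γ' (Finset.mem_filter.1 hγ').1 hne
        · intro γ hγ
          obtain ⟨hγ1, hγ2⟩ := Finset.mem_filter.1 hγ
          exact ⟨hγ2, (hG d' hd' γ hγ1).2.1, cc d' γ,
            Finset.mem_insert_of_mem (hcc d' hd' γ hγ1).1, (hcc d' hd' γ hγ1).2.1,
            hcellx d' hd' γ hγ1⟩
  · -- bad windows of the cell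
    intro s
    refine le_trans ?_ (le_trans (hbad s) hβ)
    refine Finset.card_le_card_of_injOn (fun j => c0 * σ.nw + j) ?_ ?_
    · intro j hj
      obtain ⟨hj1, hj2⟩ := Finset.mem_filter.1 hj
      have hj1 := Finset.mem_range.1 hj1
      have hdiv : (c0 * σ.nw + j) / σ.nw = c0 := by
        rw [Nat.mul_comm, Nat.mul_add_div hnw, Nat.div_eq_of_lt hj1, Nat.add_zero]
      have hc0lt : c0 < σ.D * σ.Hc := by
        have hH : 0 < σ.Hc := by omega
        exact (Nat.div_lt_iff_lt_mul hH).1 (by rw [hc0d]; exact hd)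
      refine Finset.mem_coe.2 (Finset.mem_filter.2 ⟨Finset.mem_range.2 ?_, ?_, hj2⟩)
      · calc c0 * σ.nw + j < c0 * σ.nw + σ.nw := by omega
          _ = (c0 + 1) * σ.nw := by ring
          _ ≤ σ.D * σ.Hc * σ.nw := Nat.mul_le_mul_right _ hc0lt
      · show (c0 * σ.nw + j) / σ.nw ∉ used
        rw [hdiv]; exact hc0
    · intro i _ j _ hij
      exact Nat.add_left_cancel hij
  · -- good windows of the cell
    intro s j hj hjb
    have hgd : σ.Good M B z s (c0 * σ.nw + j) := by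
      by_contra hno
      exact hjb (Finset.mem_filter.2 ⟨Finset.mem_range.2 hj, hno⟩)
    have hc0lt : c0 < σ.D * σ.Hc := by
      have hH : 0 < σ.Hc := by omega
      exact (Nat.div_lt_iff_lt_mul hH).1 (by rw [hc0d]; exact hd)
    have hlt : c0 * σ.nw + j < σ.D * σ.Hc * σ.nw := by
      calc c0 * σ.nw + j < c0 * σ.nw + σ.nw := by omega
        _ = (c0 + 1) * σ.nw := by ring
        _ ≤ σ.D * σ.Hc * σ.nw := Nat.mul_le_mul_right _ hc0lt
    refine ⟨hgd.1, σ.card_U s _ hlt, ?_⟩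
    intro u hu
    have h1 := hgd.2 u hu
    constructor
    · have := h1.1
      push_cast at this ⊢
      nlinarith
    · have := h1.2
      push_cast at this ⊢
      nlinarith
  · -- watch list
    intro t ht
    rcases Finset.mem_union.1 ht with ht | ht
    · obtain ⟨d', hd', ht⟩ := Finset.mem_biUnion.1 ht
      have hd' := Finset.mem_range.1 hd'
      obtain ⟨γ, hγ, rfl⟩ := Finset.mem_image.1 ht
      refine ⟨(hG d' hd' γ hγ).1, (hcc d' hd' γ hγ).2.2, ?_⟩
      have hne : cc d' γ ≠ c0 := fun heq => hc0 (heq ▸ (hcc d' hd' γ hγ).1)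
      have he : σ.p + (c0 * σ.nw : ℕ) * σ.w + σ.nw * σ.w
          = σ.p + ((c0 + 1) * σ.nw : ℕ) * σ.w := by push_cast; ring
      rw [he]
      exact helper3_cell_disj σ hne
    · obtain ⟨s, -, ht⟩ := Finset.mem_biUnion.1 ht
      obtain ⟨m, hm, rfl⟩ := Finset.mem_image.1 ht
      obtain ⟨hm1, hm2, hm3⟩ := Finset.mem_filter.1 hm
      refine ⟨hm3.1, hm3.2, ?_⟩
      refine helper3_win_cell σ hnw ?_
      intro heq
      exact hm2 (heq ▸ Finset.mem_insert_self _ _)
  · -- Γ in WL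
    intro γ hγ
    exact ⟨_, _, hmg d hd γ (hΓG hγ)⟩
  · intro γ hγ γ' hγ' hne
    exact hGsep d hd γ (hΓG hγ) γ' (hΓG hγ') hne

end Pool.Agent.KHG77
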