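import Pool.Agent.KHG77.Stage1

/-!
# KHG77.Stage2: phases and blocks
-/

namespace Pool.Agent.KHG77

open Set Filter Topology

/-- Weakening a state. -/
theorem StageData.State.mono {σ : StageData} {n e n' e' : ℕ → ℕ} {β β' : ℕ} {M B : Finset Pt}
    (h : σ.State n e β M B) (hn : ∀ d, n' d ≤ n d) (he : ∀ d, e d ≤ e' d) (hβ : β ≤ β') :
    σ.State n' e' β' M B := by
  obtain ⟨hok, z, hz, used, h1, h2, h3⟩ := h
  refine ⟨hok, z, hz, used, fun d hd => (h1 d hd).trans (he d), fun s => (h2 s).trans hβ, ?_⟩
  intro d hd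
  obtain ⟨G, hG1, hG2, hG3⟩ := h3 d hd
  exact ⟨G, (hn d).trans hG1, hG2, hG3⟩

/-- Weakening the node property. -/
theorem NodeProp.mono {g d d' nw : ℕ} (h : NodeProp g d nw) (hd : d' ≤ d) :
    NodeProp g d' nw := by
  intro c w hw lv hlv M B z hok hz U Bad hBad hU WL hWL Γ hΓ hΓ' hsep
  exact h c w hw lv hlv M B z hok hz U Bad (fun s => (hBad s).trans hd) hU WL hWL Γ hΓ hΓ' hsep

/-- A phase: `m` golden flags in block `d`. -/
theorem phase (σ : StageData) (hnw : 0 < σ.nw) {dm m : ℕ}
    (hnode : ∀ g < m, NodeProp g dm σ.nw)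
    {n e : ℕ → ℕ} {β d : ℕ} (hd : d < σ.D) (hn : n d = 0) (he : e d + m ≤ σ.Hc)
    (hβ : β + 2 * Tph m ≤ dm) {M B : Finset Pt} (h : σ.State n e β M B) :
    Force (σ.State (fun d' => if d' = d then m else n d' - 2 * Tph m)
      (fun d' => if d' = d then e d + m else e d') (β + 2 * Tph m)) (Tph m) M B := by
  induction m with
  | zero =>
    refine Force.of_target (h.mono ?_ ?_ ?_)
    · intro d'
      by_cases hdd : d' = d
      · simp [hdd]
      · simp [hdd]
    · intro d'
      by_cases hdd : d' = d
      · simp [hdd]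
      · simp [hdd]
    · omega
  | succ m ih =>
    have hT : Tph (m + 1) = Tph m + (m + 2) := rfl
    have h1 := ih (fun g hg => hnode g (Nat.lt_succ_of_lt hg)) (by omega) (by omega)
    rw [hT]
    refine Force.trans h1 ?_
    intro M' B' h'
    have h2 := nodeStep σ (hnode m (Nat.lt_succ_self m)) hnw hd
      (n := fun d' => if d' = d then m else n d' - 2 * Tph m)
      (e := fun d' => if d' = d then e d + m else e d') (by simp) (by simp; omega)
      (by omega) h'
    refine Force.mono ?_ le_rfl h2
    intro M'' B'' h3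
    refine h3.mono ?_ ?_ ?_
    · intro d'
      by_cases hdd : d' = d
      · simp [hdd]
      · simp [hdd]; omega
    · intro d'
      by_cases hdd : d' = d
      · simp [hdd]
      · simp [hdd]
    · omega

/-- The first `i` blocks: at least `m` golden flags in each. -/
theorem blocks (i m : ℕ) : ∃ T H G : ℕ, ∀ (σ : StageData), 0 < σ.nw → i ≤ σ.D → H ≤ σ.Hc →
    (∀ g < G, NodeProp g (2 * T) σ.nw) → ∀ M B : Finset Pt,
    σ.State (fun _ => 0) (fun _ => 0) 0 M B →
    Force (σ.State (fun d => if d < i then m else 0) (fun d => if d < i then H else 0) (2 * T))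
      T M B := by
  induction i generalizing m with
  | zero =>
    refine ⟨0, 0, 0, ?_⟩
    intro σ _ _ _ _ M B h
    refine Force.of_target (h.mono ?_ ?_ ?_)
    · intro d; simp
    · intro d; simp
    · omega
  | succ i ih =>
    obtain ⟨T₁, H₁, G₁, hih⟩ := ih (m + 2 * Tph m)
    refine ⟨T₁ + Tph m, max H₁ m, max G₁ m, ?_⟩
    intro σ hnw hi hH hnode M B h
    have hH₁ : H₁ ≤ σ.Hc := (le_max_left _ _).trans hH
    have hHm : m ≤ σ.Hc := (le_max_right _ _).trans hH
    have h1 := hih σ hnw (by omega) hH₁
      (fun g hg => (hnode g (lt_of_lt_of_le hg (le_max_left _ _))).mono (by omega)) M B h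
    refine Force.trans h1 ?_
    intro M' B' h'
    have h2 := phase σ hnw (dm := 2 * (T₁ + Tph m)) (m := m)
      (fun g hg => hnode g (lt_of_lt_of_le hg (le_max_right _ _)))
      (n := fun d => if d < i then m + 2 * Tph m else 0)
      (e := fun d => if d < i then H₁ else 0) (β := 2 * T₁) (d := i)
      (by omega) (by simp) (by simpa using hHm) (by omega) h'
    refine Force.mono ?_ le_rfl h2
    intro M'' B'' h3
    refine h3.mono ?_ ?_ ?_
    · intro d'
      by_cases hdd : d' = i
      · simp [hdd]
      · by_cases hlt : d' < i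
        · have h4 : d' < i + 1 := by omega
          simp [hdd, hlt, h4]
        · have h4 : ¬ d' < i + 1 := by omega
          simp [h4]
    · intro d'
      by_cases hdd : d' = i
      · simp [hdd]
      · by_cases hlt : d' < i
        · have h4 : d' < i + 1 := by omega
          simp [hdd, hlt, h4]
        · simp [hdd, hlt]
    · omega

end Pool.Agent.KHG77
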