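import Pool.Agent.KHG77.NodeDef

/-!
# KHG77.StageDef: definitions for the stage lemma

A stage works in the slope interval `(p, p + D * Hc * nw * w)`, which is divided into `D` blocks of
`Hc` cells of `nw` windows of length `w`. Window `m` is `(p + m * w, p + (m + 1) * w)`, it belongs to
the cell `m / nw`; the cell `c` belongs to the block `c / Hc`.
-/

namespace Pool.Agent.KHG77

open Set Filter Topology

/-- `Rich a b n`: at some point `z` of Maker, each of `n` consecutive open slope windows of equal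
length contains a left flag of level `a` and a right flag of level `b`. -/
def Rich (a b n : ℕ) (M B : Finset Pt) : Prop :=
  ∃ z ∈ M, ∃ p w : ℝ, 0 < w ∧ ∀ m < n,
    (∃ U, Flag M B z false U ∧ U.card = a ∧ ∀ u ∈ U, sl z u ∈ Ioo (p + m * w) (p + (m + 1) * w)) ∧
    (∃ U, Flag M B z true U ∧ U.card = b ∧ ∀ u ∈ U, sl z u ∈ Ioo (p + m * w) (p + (m + 1) * w))

/-- The data of a stage. -/
structure StageData where
  p : ℝ
  w : ℝ
  hw : 0 < w
  /-- number of blocks -/
  D : ℕ
  /-- cells per block -/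
  Hc : ℕ
  /-- windows per cell -/
  nw : ℕ
  /-- levels of the base flags -/
  lv : Bool → ℕ
  lv_pos : ∀ s, 1 ≤ lv s
  /-- the base flags -/
  U : Bool → ℕ → Finset Pt
  card_U : ∀ s m, m < D * Hc * nw → (U s m).card = lv s

namespace StageData

variable (σ : StageData)

/-- The base flag `U s m` is alive at `z`. -/
def Good (M B : Finset Pt) (z : Pt) (s : Bool) (m : ℕ) : Prop :=
  Flag M B z s (σ.U s m) ∧ ∀ u ∈ σ.U s m, sl z u ∈ Ioo (σ.p + m * σ.w) (σ.p + (m + 1) * σ.w)

/-- Open slope interval of the cell `c`. -/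
def cellI (c : ℕ) : Set ℝ := Ioo (σ.p + (c * σ.nw : ℕ) * σ.w) (σ.p + ((c + 1) * σ.nw : ℕ) * σ.w)

open Classical in
/-- The state of a stage: `n d` golden flags in block `d`, at most `e d` used cells in block `d`,
at most `β` dead base flags in unused cells on each side. -/
def State (n e : ℕ → ℕ) (β : ℕ) (M B : Finset Pt) : Prop :=
  Ok M B ∧ ∃ z ∈ M, ∃ used : Finset ℕ,
    (∀ d < σ.D, (used.filter fun c => c / σ.Hc = d).card ≤ e d) ∧
    (∀ s, ((Finset.range (σ.D * σ.Hc * σ.nw)).filter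
      fun m => m / σ.nw ∉ used ∧ ¬ σ.Good M B z s m).card ≤ β) ∧
    (∀ d < σ.D, ∃ G : Finset (Bool × Finset Pt), n d ≤ G.card ∧ PairSep z G ∧
      ∀ γ ∈ G, Flag M B z γ.1 γ.2 ∧ γ.2.card = σ.lv γ.1 + 1 ∧
        ∃ c ∈ used, c / σ.Hc = d ∧ ∀ u ∈ γ.2, sl z u ∈ σ.cellI c)

end StageData

/-- Number of rounds used to get `m` golden flags in one block. -/
def Tph : ℕ → ℕ
  | 0 => 0
  | m + 1 => Tph m + (m + 2)

end Pool.Agent.KHG77
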